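import Pool.Agent.Lib.H13J.D

set_option autoImplicit false

open scoped unitInterval Polynomial

namespace H13J

open H13K

variable {ι : Type}

private theorem c1a_swap_coeff (f : ℂ[X][X]) (i j : ℕ) :
    ((Polynomial.Bivariate.swap f).coeff i).coeff j = (f.coeff j).coeff i := by
  induction f using Polynomial.induction_on' with
  | add p q hp hq =>
    rw [map_add, Polynomial.coeff_add, Polynomial.coeff_add, Polynomial.coeff_add,
      Polynomial.coeff_add, hp, hq]
  | monomial n a =>
    induction a using Polynomial.induction_on' with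
    | add p q hp hq =>
      rw [map_add (Polynomial.monomial n), map_add, Polynomial.coeff_add, Polynomial.coeff_add,
        Polynomial.coeff_add, Polynomial.coeff_add, hp, hq]
    | monomial m r =>
      rw [Polynomial.Bivariate.swap_monomial_monomial]
      by_cases h1 : m = i
      · by_cases h2 : n = j
        · subst h1 h2
          rw [Polynomial.coeff_monomial_same, Polynomial.coeff_monomial_same,
            Polynomial.coeff_monomial_same, Polynomial.coeff_monomial_same]
        · subst h1
          rw [Polynomial.coeff_monomial_same, Polynomial.coeff_monomial_of_ne _ (Ne.symm h2),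
            Polynomial.coeff_monomial_of_ne _ (Ne.symm h2), Polynomial.coeff_zero]
      · rw [Polynomial.coeff_monomial_of_ne _ (Ne.symm h1), Polynomial.coeff_zero]
        by_cases h2 : n = j
        · subst h2
          rw [Polynomial.coeff_monomial_same, Polynomial.coeff_monomial_of_ne _ (Ne.symm h1)]
        · rw [Polynomial.coeff_monomial_of_ne _ (Ne.symm h2), Polynomial.coeff_zero]

private theorem c1a_deg (g h q : ℂ[X][X]) (D : ℕ) (hg : g ≠ 0) (hh : h ≠ 0) (he : g * h = q)
    (hq : ∀ j i, D < i → (q.coeff j).coeff i = 0) (j i : ℕ) (hi : D < i) :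
    (g.coeff j).coeff i = 0 := by
  have h1 : (Polynomial.Bivariate.swap q).natDegree ≤ D := by
    rw [Polynomial.natDegree_le_iff_coeff_eq_zero]
    intro N hN
    ext m
    rw [c1a_swap_coeff, hq m N hN, Polynomial.coeff_zero]
  have h2 : Polynomial.Bivariate.swap g * Polynomial.Bivariate.swap h = Polynomial.Bivariate.swap q := by
    rw [← map_mul, he]
  have h3 : Polynomial.Bivariate.swap g ≠ 0 := by
    intro h0
    exact hg ((map_eq_zero_iff _ (AlgEquiv.injective Polynomial.Bivariate.swap)).1 h0)
  have h4 : Polynomial.Bivariate.swap h ≠ 0 := by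
    intro h0
    exact hh ((map_eq_zero_iff _ (AlgEquiv.injective Polynomial.Bivariate.swap)).1 h0)
  have h5 : (Polynomial.Bivariate.swap g).natDegree ≤ D := by
    have h6 := Polynomial.natDegree_mul h3 h4
    rw [h2] at h6
    omega
  have h7 : (Polynomial.Bivariate.swap g).coeff i = 0 :=
    Polynomial.coeff_eq_zero_of_natDegree_lt (lt_of_le_of_lt h5 hi)
  rw [← c1a_swap_coeff, h7, Polynomial.coeff_zero]

private theorem c1a_iter (f : ℂ[X]) (n : ℕ) :
    iteratedDeriv n (fun z => f.eval z) = fun z => (Polynomial.derivative^[n] f).eval z := by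
  induction n with
  | zero => simp
  | succ n ih =>
    rw [iteratedDeriv_succ, ih, Function.iterate_succ_apply']
    funext z
    exact Polynomial.deriv _

private theorem c1a_cauchy (f : ℂ[X]) (M : ℝ) (hM : ∀ z : ℂ, ‖z‖ ≤ 1 → ‖f.eval z‖ ≤ M) (n : ℕ) :
    ‖f.coeff n‖ ≤ M := by
  have h1 := Complex.norm_iteratedDeriv_le_of_forall_mem_sphere_norm_le (c := 0) (R := 1) (C := M)
    (f := fun z => f.eval z) n one_pos (f.differentiable.diffContOnCl)
    (fun z hz => hM z (by rw [mem_sphere_zero_iff_norm] at hz; exact hz.le))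
  rw [c1a_iter] at h1
  have h2 : (Polynomial.derivative^[n] f).eval 0 = (n.factorial : ℂ) * f.coeff n := by
    rw [← Polynomial.coeff_zero_eq_eval_zero, Polynomial.coeff_iterate_derivative, zero_add,
      Nat.descFactorial_self, nsmul_eq_mul]
  have h3 : ‖(Polynomial.derivative^[n] f).eval 0‖ ≤ n.factorial * M / 1 ^ n := h1
  rw [h2, norm_mul, Complex.norm_natCast, one_pow, div_one] at h3
  exact le_of_mul_le_mul_left h3 (by exact_mod_cast n.factorial_pos)

private theorem c1a_bound (p : ℂ[X][X]) :
    ∃ M : ℝ, ∀ c : ℂ, ‖c‖ ≤ 1 → ∀ g h : ℂ[X][X], g.Monic → h.Monic →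
      g * h = p - Polynomial.C (Polynomial.C c) → ∀ j i, ‖(g.coeff j).coeff i‖ ≤ M := by
  obtain ⟨B, hB⟩ : ∃ B : ℝ, ∀ z : ℂ, ‖z‖ ≤ 1 → ∀ i ∈ Finset.range (p.natDegree + 1),
      ‖(p.coeff i).eval z‖ ≤ B := by
    have h1 : ∃ B, ∀ z ∈ Metric.closedBall (0 : ℂ) 1,
        ‖∑ i ∈ Finset.range (p.natDegree + 1), ‖(p.coeff i).eval z‖‖ ≤ B := by
      apply (isCompact_closedBall (0 : ℂ) 1).exists_bound_of_continuousOn
      apply Continuous.continuousOn
      apply continuous_finsetSum
      intro i _
      exact (p.coeff i).continuous.norm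
    obtain ⟨B, hB⟩ := h1
    refine ⟨B, fun z hz i hi => ?_⟩
    have h2 := hB z (by simpa using hz)
    have h3 : ‖(p.coeff i).eval z‖ ≤ ∑ i ∈ Finset.range (p.natDegree + 1), ‖(p.coeff i).eval z‖ :=
      Finset.single_le_sum (f := fun i => ‖(p.coeff i).eval z‖) (fun _ _ => norm_nonneg _) hi
    exact h3.trans ((le_abs_self _).trans h2)
  have hB0 : 0 ≤ B := (norm_nonneg _).trans (hB 0 (by simp) 0 (by simp))
  refine ⟨max (B + 2) 1 ^ p.natDegree * p.natDegree.choose (p.natDegree / 2), ?_⟩
  intro c hc g h hg hh he j i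
  apply c1a_cauchy
  intro z hz
  have hnat : (p - Polynomial.C (Polynomial.C c)).natDegree = p.natDegree :=
    Polynomial.natDegree_sub_C
  have hmon : (p - Polynomial.C (Polynomial.C c)).Monic := by
    rw [← he]
    exact hg.mul hh
  have hle : g.natDegree ≤ p.natDegree := by
    rw [← hnat, ← he, hg.natDegree_mul hh]
    omega
  have key := Polynomial.coeff_bdd_of_roots_le (B := B + 2) (d := p.natDegree)
    (Polynomial.evalRingHom z) hg (IsAlgClosed.splits _) hle ?_ j
  · rwa [Polynomial.coeff_map] at key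
  · intro w hw
    have hw1 : ((g.map (Polynomial.evalRingHom z))).eval w = 0 :=
      (Polynomial.mem_roots'.1 hw).2
    set q : ℂ[X] := (p - Polynomial.C (Polynomial.C c)).map (Polynomial.evalRingHom z) with hq
    have hqm : q.Monic := hmon.map _
    have hqr : q.IsRoot w := by
      rw [Polynomial.IsRoot.def, hq, ← he, Polynomial.map_mul, Polynomial.eval_mul, hw1, zero_mul]
    have h1 := hqr.norm_lt_cauchyBound hqm.ne_zero
    have h2 : q.cauchyBound ≤ Real.toNNReal (B + 2) := by
      unfold Polynomial.cauchyBound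
      rw [hqm.leadingCoeff, nnnorm_one, div_one]
      have h3 : (Finset.range q.natDegree).sup (‖q.coeff ·‖₊) ≤ Real.toNNReal (B + 1) := by
        apply Finset.sup_le
        intro k hk
        rw [← NNReal.coe_le_coe, coe_nnnorm, Real.coe_toNNReal _ (by linarith), hq,
          Polynomial.coeff_map, Polynomial.coeff_sub, Polynomial.coe_evalRingHom, Polynomial.eval_sub]
        have hk' : k ∈ Finset.range (p.natDegree + 1) := by
          have h4 : q.natDegree = p.natDegree := by
            rw [hq, hmon.natDegree_map, hnat]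
          rw [Finset.mem_range] at hk ⊢
          omega
        refine (norm_sub_le _ _).trans (add_le_add (hB z hz k hk') ?_)
        rw [Polynomial.coeff_C]
        split_ifs
        · simpa using hc
        · simp
      have h5 : Real.toNNReal (B + 2) = Real.toNNReal (B + 1) + 1 := by
        rw [← Real.toNNReal_one, ← Real.toNNReal_add (by linarith) (by norm_num)]
        congr 1
        ring
      rw [h5]
      exact add_le_add_left h3 1
    have h6 : ‖w‖₊ ≤ Real.toNNReal (B + 2) := h1.le.trans h2
    rw [← NNReal.coe_le_coe, coe_nnnorm, Real.coe_toNNReal _ (by linarith)] at h6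
    exact h6

private theorem c1a_lim (𝒰 : Ultrafilter ℕ) (u : ℕ → ℂ) (M : ℝ) (h : ∀ n, ‖u n‖ ≤ M) :
    ∃ a : ℂ, Filter.Tendsto u 𝒰 (nhds a) := by
  obtain ⟨a, -, ha⟩ := (isCompact_closedBall (0 : ℂ) M).ultrafilter_le_nhds (𝒰.map u) (by
    rw [Filter.le_principal_iff]
    show ∀ᶠ n in (𝒰 : Filter ℕ), u n ∈ Metric.closedBall (0 : ℂ) M
    exact Filter.Eventually.of_forall (fun n => by simpa using h n))
  exact ⟨a, ha⟩

private noncomputable def c1a_pol (A : ℕ → ℕ → ℂ) (k D : ℕ) : ℂ[X][X] :=
  ∑ j ∈ Finset.range (k + 1), Polynomial.monomial j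
    (∑ i ∈ Finset.range (D + 1), Polynomial.monomial i (A j i))

private theorem c1a_pol_coeff (A : ℕ → ℕ → ℂ) (k D : ℕ) (hk : ∀ j i, k < j → A j i = 0)
    (hD : ∀ j i, D < i → A j i = 0) (j i : ℕ) : ((c1a_pol A k D).coeff j).coeff i = A j i := by
  unfold c1a_pol
  rw [Polynomial.finsetSum_coeff]
  simp only [Polynomial.coeff_monomial]
  rw [Finset.sum_ite_eq']
  by_cases h1 : j ∈ Finset.range (k + 1)
  · rw [if_pos h1, Polynomial.finsetSum_coeff]
    simp only [Polynomial.coeff_monomial]
    rw [Finset.sum_ite_eq']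
    by_cases h2 : i ∈ Finset.range (D + 1)
    · rw [if_pos h2]
    · rw [if_neg h2, hD j i (by rw [Finset.mem_range] at h2; omega)]
  · rw [if_neg h1, Polynomial.coeff_zero, hk j i (by rw [Finset.mem_range] at h1; omega)]

private theorem c1a_coeff_mul (f g : ℂ[X][X]) (m n : ℕ) :
    ((f * g).coeff m).coeff n = ∑ x ∈ Finset.HasAntidiagonal.antidiagonal m, ∑ y ∈ Finset.HasAntidiagonal.antidiagonal n,
      (f.coeff x.1).coeff y.1 * (g.coeff x.2).coeff y.2 := by
  rw [Polynomial.coeff_mul, Polynomial.finsetSum_coeff]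
  exact Finset.sum_congr rfl fun x _ => Polynomial.coeff_mul _ _ _

/-- p - c is irreducible for all small c.
Proof by compactness: otherwise there are c_n → 0 and monic g_n, h_n with p - c_n = g_n * h_n, both of
degree between 1 and d - 1 in w; pass to a subsequence with natDegree g_n = k.  The degree in z of all
coefficients of g_n is at most the degree D of p - c_n in z (degrees in z add up; `Polynomial.Bivariate.swap`
or leading coefficients).  For z in the set {0, 1, .., D} the roots of g_n (z, .) are roots of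
p (z, .) - c_n, so bounded, so all coefficients of g_n (z, .) are bounded, so by Lagrange interpolation
all coefficients of g_n (and h_n) are bounded; a convergent subsequence gives p = g * h with g and h
monic of degree k and d - k: contradiction. -/
theorem irred_near (p : ℂ[X][X]) (hp : p.Monic) (hpi : Irreducible p) :
    ∃ ε : ℝ, 0 < ε ∧ ∀ c : ℂ, ‖c‖ < ε → Irreducible (p - Polynomial.C (Polynomial.C c)) := by
  have hd : 0 < p.natDegree := by
    rcases Nat.eq_zero_or_pos p.natDegree with h0 | h0
    · exfalso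
      have h1 := hp.natDegree_eq_zero.1 h0
      rw [h1] at hpi
      exact not_irreducible_one hpi
    · exact h0
  by_contra hcon
  push Not at hcon
  have hcon' : ∀ n : ℕ, ∃ c : ℂ, ‖c‖ < 1 / ((n : ℝ) + 1) ∧
      ¬ Irreducible (p - Polynomial.C (Polynomial.C c)) := by
    intro n
    exact hcon (1 / ((n : ℝ) + 1)) (by positivity)
  choose c hc hci using hcon'
  have hnat : ∀ c : ℂ, (p - Polynomial.C (Polynomial.C c)).natDegree = p.natDegree :=
    fun c => Polynomial.natDegree_sub_C
  have hmon : ∀ c : ℂ, (p - Polynomial.C (Polynomial.C c)).Monic := by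
    intro c
    apply hp.sub_of_left
    refine (Polynomial.degree_C_le).trans_lt ?_
    rwa [← Polynomial.natDegree_pos_iff_degree_pos]
  have hfac : ∀ n, ∃ f g : ℂ[X][X], f.Monic ∧ g.Monic ∧
      f * g = p - Polynomial.C (Polynomial.C (c n)) ∧ 0 < f.natDegree ∧
      f.natDegree ≤ p.natDegree / 2 := by
    intro n
    have h1 := hci n
    rw [(hmon (c n)).irreducible_iff_natDegree'] at h1
    push Not at h1
    obtain ⟨g, f, hg, hf, hfg, hn⟩ := h1 (by
      intro h2
      have h3 := hnat (c n)
      rw [h2, Polynomial.natDegree_one] at h3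
      omega)
    rw [hnat, Finset.mem_Ioc] at hn
    exact ⟨f, g, hf, hg, by rw [mul_comm]; exact hfg, hn.1, hn.2⟩
  choose f g hf hg hfg hpos hle using hfac
  have hc1 : ∀ n, ‖c n‖ ≤ 1 := by
    intro n
    refine (hc n).le.trans ?_
    rw [div_le_one (by positivity)]
    have : (0 : ℝ) ≤ n := Nat.cast_nonneg n
    linarith
  obtain ⟨M, hM⟩ := c1a_bound p
  have hMf : ∀ n j i, ‖((f n).coeff j).coeff i‖ ≤ M := fun n j i =>
    hM (c n) (hc1 n) (f n) (g n) (hf n) (hg n) (hfg n) j i
  have hMg : ∀ n j i, ‖((g n).coeff j).coeff i‖ ≤ M := fun n j i =>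
    hM (c n) (hc1 n) (g n) (f n) (hg n) (hf n) (by rw [mul_comm]; exact hfg n) j i
  -- the degree in z
  obtain ⟨D, hD⟩ : ∃ D : ℕ, ∀ (c : ℂ) (j i : ℕ), D < i →
      ((p - Polynomial.C (Polynomial.C c)).coeff j).coeff i = 0 := by
    refine ⟨(Polynomial.Bivariate.swap p).natDegree, fun c j i hi => ?_⟩
    rw [Polynomial.coeff_sub, Polynomial.coeff_sub, ← c1a_swap_coeff p i j,
      Polynomial.coeff_eq_zero_of_natDegree_lt hi, Polynomial.coeff_zero, Polynomial.coeff_C]
    split_ifs
    · rw [Polynomial.coeff_C, if_neg (by omega), sub_zero]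
    · rw [Polynomial.coeff_zero, sub_zero]
  have hDf : ∀ n j i, D < i → ((f n).coeff j).coeff i = 0 := fun n j i hi =>
    c1a_deg (f n) (g n) _ D (hf n).ne_zero (hg n).ne_zero (hfg n) (hD (c n)) j i hi
  have hDg : ∀ n j i, D < i → ((g n).coeff j).coeff i = 0 := fun n j i hi =>
    c1a_deg (g n) (f n) _ D (hg n).ne_zero (hf n).ne_zero (by rw [mul_comm]; exact hfg n)
      (hD (c n)) j i hi
  -- the ultrafilter
  set 𝒰 : Ultrafilter ℕ := Filter.hyperfilter ℕ with h𝒰
  have hfin : ∃ k : ℕ, ∀ᶠ n in (𝒰 : Filter ℕ), (f n).natDegree = k := by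
    have hlt : ∀ n, (f n).natDegree < p.natDegree + 1 := by
      intro n
      have := hle n
      omega
    obtain ⟨k, hk⟩ := (𝒰.map (fun n => (⟨(f n).natDegree, hlt n⟩ : Fin (p.natDegree + 1)))).eq_pure_of_finite
    refine ⟨k, ?_⟩
    have h1 : {k} ∈ 𝒰.map (fun n => (⟨(f n).natDegree, hlt n⟩ : Fin (p.natDegree + 1))) := by
      rw [hk]
      exact Set.mem_singleton k
    have h2 : ∀ᶠ n in (𝒰 : Filter ℕ), (⟨(f n).natDegree, hlt n⟩ : Fin (p.natDegree + 1)) ∈ ({k} : Set _) := h1
    filter_upwards [h2] with n hn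
    rw [Set.mem_singleton_iff] at hn
    rw [← hn]
  obtain ⟨k, hk⟩ := hfin
  have hsum : ∀ n, (f n).natDegree + (g n).natDegree = p.natDegree := by
    intro n
    rw [← (hf n).natDegree_mul (hg n), hfg n, hnat]
  have hkpos : 0 < k ∧ k ≤ p.natDegree / 2 := by
    obtain ⟨n, hn⟩ := hk.exists
    exact ⟨hn ▸ hpos n, hn ▸ hle n⟩
  choose A hA using fun j i => c1a_lim 𝒰 (fun n => ((f n).coeff j).coeff i) M (fun n => hMf n j i)
  choose B hB using fun j i => c1a_lim 𝒰 (fun n => ((g n).coeff j).coeff i) M (fun n => hMg n j i)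
  have hconst : ∀ (u : ℕ → ℂ) (a b : ℂ), Filter.Tendsto u 𝒰 (nhds a) →
      (∀ᶠ n in (𝒰 : Filter ℕ), u n = b) → a = b := by
    intro u a b h1 h2
    exact tendsto_nhds_unique h1 ((Filter.tendsto_congr' h2).2 tendsto_const_nhds)
  have hAD : ∀ j i, D < i → A j i = 0 := fun j i hi =>
    hconst _ _ _ (hA j i) (Filter.Eventually.of_forall fun n => hDf n j i hi)
  have hBD : ∀ j i, D < i → B j i = 0 := fun j i hi =>
    hconst _ _ _ (hB j i) (Filter.Eventually.of_forall fun n => hDg n j i hi)
  have hAk : ∀ j i, k < j → A j i = 0 := by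
    intro j i hj
    refine hconst _ _ _ (hA j i) ?_
    filter_upwards [hk] with n hn
    have h1 : (f n).coeff j = 0 := Polynomial.coeff_eq_zero_of_natDegree_lt (by omega)
    rw [h1, Polynomial.coeff_zero]
  have hBk : ∀ j i, p.natDegree - k < j → B j i = 0 := by
    intro j i hj
    refine hconst _ _ _ (hB j i) ?_
    filter_upwards [hk] with n hn
    have h0 := hsum n
    have h1 : (g n).coeff j = 0 := Polynomial.coeff_eq_zero_of_natDegree_lt (by omega)
    rw [h1, Polynomial.coeff_zero]
  have hA1 : ∀ i, A k i = (1 : ℂ[X]).coeff i := by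
    intro i
    refine hconst _ _ _ (hA k i) ?_
    filter_upwards [hk] with n hn
    rw [← hn, (hf n).coeff_natDegree]
  have hB1 : ∀ i, B (p.natDegree - k) i = (1 : ℂ[X]).coeff i := by
    intro i
    refine hconst _ _ _ (hB _ i) ?_
    filter_upwards [hk] with n hn
    have h1 : p.natDegree - k = (g n).natDegree := by
      have := hsum n
      omega
    rw [h1, (hg n).coeff_natDegree]
  set F : ℂ[X][X] := c1a_pol A k D with hF
  set H : ℂ[X][X] := c1a_pol B (p.natDegree - k) D with hH
  have hFc : ∀ j i, (F.coeff j).coeff i = A j i := c1a_pol_coeff A k D hAk hAD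
  have hHc : ∀ j i, (H.coeff j).coeff i = B j i := c1a_pol_coeff B (p.natDegree - k) D hBk hBD
  have hFk : F.coeff k = 1 := Polynomial.ext fun i => by rw [hFc, hA1]
  have hHk : H.coeff (p.natDegree - k) = 1 := Polynomial.ext fun i => by rw [hHc, hB1]
  have hFd : F.natDegree ≤ k := by
    rw [Polynomial.natDegree_le_iff_coeff_eq_zero]
    intro N hN
    exact Polynomial.ext fun i => by rw [hFc, hAk N i hN, Polynomial.coeff_zero]
  have hHd : H.natDegree ≤ p.natDegree - k := by
    rw [Polynomial.natDegree_le_iff_coeff_eq_zero]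
    intro N hN
    exact Polynomial.ext fun i => by rw [hHc, hBk N i hN, Polynomial.coeff_zero]
  have hFm : F.Monic := Polynomial.monic_of_natDegree_le_of_coeff_eq_one k hFd hFk
  have hHm : H.Monic := Polynomial.monic_of_natDegree_le_of_coeff_eq_one _ hHd hHk
  have hFn : F.natDegree = k := by
    refine le_antisymm hFd (Polynomial.le_natDegree_of_ne_zero ?_)
    rw [hFk]
    exact one_ne_zero
  have hprod : F * H = p := by
    refine Polynomial.ext fun m => Polynomial.ext fun n => ?_
    rw [c1a_coeff_mul]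
    have h1 : Filter.Tendsto (fun N => (((f N) * (g N)).coeff m).coeff n) 𝒰
        (nhds (∑ x ∈ Finset.HasAntidiagonal.antidiagonal m, ∑ y ∈ Finset.HasAntidiagonal.antidiagonal n, A x.1 y.1 * B x.2 y.2)) := by
      have h2 : (fun N => (((f N) * (g N)).coeff m).coeff n) = fun N =>
          ∑ x ∈ Finset.HasAntidiagonal.antidiagonal m, ∑ y ∈ Finset.HasAntidiagonal.antidiagonal n,
            ((f N).coeff x.1).coeff y.1 * ((g N).coeff x.2).coeff y.2 := by
        funext N
        exact c1a_coeff_mul _ _ _ _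
      rw [h2]
      apply tendsto_finsetSum
      intro x _
      apply tendsto_finsetSum
      intro y _
      exact (hA x.1 y.1).mul (hB x.2 y.2)
    have hc0 : Filter.Tendsto c 𝒰 (nhds 0) := by
      have h3 : Filter.Tendsto c Filter.atTop (nhds 0) := by
        rw [tendsto_zero_iff_norm_tendsto_zero]
        exact squeeze_zero (fun _ => norm_nonneg _) (fun n => (hc n).le)
          tendsto_one_div_add_atTop_nhds_zero_nat
      refine h3.mono_left ?_
      rw [← Nat.cofinite_eq_atTop]
      exact Filter.hyperfilter_le_cofinite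
    have h4 : Filter.Tendsto (fun N => (((f N) * (g N)).coeff m).coeff n) 𝒰
        (nhds ((p.coeff m).coeff n)) := by
      have h5 : (fun N => (((f N) * (g N)).coeff m).coeff n) = fun N =>
          (p.coeff m).coeff n - (if m = 0 ∧ n = 0 then c N else 0) := by
        funext N
        rw [hfg N, Polynomial.coeff_sub, Polynomial.coeff_sub, Polynomial.coeff_C]
        by_cases hm : m = 0
        · rw [if_pos hm, Polynomial.coeff_C]
          by_cases hn : n = 0
          · rw [if_pos hn, if_pos ⟨hm, hn⟩]
          · rw [if_neg hn, if_neg (fun h => hn h.2)]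
        · rw [if_neg hm, if_neg (fun h => hm h.1), Polynomial.coeff_zero]
      rw [h5]
      have h6 : Filter.Tendsto (fun N => (if m = 0 ∧ n = 0 then c N else 0)) 𝒰 (nhds 0) := by
        by_cases hmn : m = 0 ∧ n = 0
        · simpa [hmn] using hc0
        · simp only [if_neg hmn]
          exact tendsto_const_nhds
      have h7 := (tendsto_const_nhds (x := (p.coeff m).coeff n) (f := (𝒰 : Filter ℕ))).sub h6
      rwa [sub_zero] at h7
    have h8 := tendsto_nhds_unique h1 h4
    rw [← h8]
    refine Finset.sum_congr rfl fun x _ => Finset.sum_congr rfl fun y _ => ?_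
    rw [hFc, hHc]
  have h9 := hpi
  rw [hp.irreducible_iff_natDegree'] at h9
  refine h9.2 H F hHm hFm (by rw [mul_comm]; exact hprod) ?_
  rw [hFn, Finset.mem_Ioc]
  exact hkpos

end H13J
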