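import Pool.Agent.Lib.H13J.D
import Pool.Agent.Lib.H13J.C1a
import Pool.Agent.Lib.H13K.K15

set_option autoImplicit false

open scoped unitInterval Polynomial

namespace H13J

open H13K

variable {ι : Type}

/-- Near the irreducible fibre 0 the fibres off the branch points are path connected.
Proof: `irred_near` and `H13K.CS_pathConnected` for the polynomial p - C (C c) and r = e.eval (C c) (a
polynomial in z, r.eval z = e.evalEval z c, nonzero because of the finiteness). -/
theorem conn_near (p : ℂ[X][X]) (hp : p.Monic) (hpi : Irreducible p) (e : ℂ[X][X]) (he : e ≠ 0)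
    (hg : ∀ z c, e.evalEval z c ≠ 0 → ∀ u, p.evalEval z u = c →
      (Polynomial.derivative p).evalEval z u ≠ 0) :
    ∃ ε : ℝ, 0 < ε ∧ ∀ c : ℂ, c ≠ 0 → ‖c‖ < ε → {z | e.evalEval z c = 0}.Finite →
      IsPathConnected {x : ℂ × ℂ | p.evalEval x.1 x.2 = c ∧ e.evalEval x.1 c ≠ 0} := by
  obtain ⟨ε, hε, hirr⟩ := irred_near p hp hpi
  refine ⟨ε, hε, fun c _ hcε hfin => ?_⟩
  have hdeg : 0 < p.natDegree := by
    rw [Nat.pos_iff_ne_zero]
    intro h0
    exact hpi.not_isUnit ((hp.isUnit_iff).2 (hp.natDegree_eq_zero.1 h0))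
  have hmon : (p - Polynomial.C (Polynomial.C c)).Monic := by
    apply hp.sub_of_left
    refine lt_of_le_of_lt Polynomial.degree_C_le ?_
    exact Polynomial.natDegree_pos_iff_degree_pos.1 hdeg
  have hev : ∀ z w, (p - Polynomial.C (Polynomial.C c)).evalEval z w = p.evalEval z w - c := by
    intro z w
    simp [Polynomial.evalEval]
  have hr : e.eval (Polynomial.C c) ≠ 0 := by
    intro h0
    have h1 : {z : ℂ | e.evalEval z c = 0} = Set.univ := by
      ext z
      simp [Polynomial.evalEval, h0]
    rw [h1] at hfin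
    exact Set.infinite_univ hfin
  have hs : Simple (p - Polynomial.C (Polynomial.C c)) (e.eval (Polynomial.C c)) := by
    intro z w hz hw
    rw [hev, sub_eq_zero] at hw
    rw [Polynomial.derivative_sub, Polynomial.derivative_C, sub_zero]
    exact hg z c hz w hw
  have h := CS_pathConnected _ hmon (hirr c hcε) _ hr hs
  have hset : CS (p - Polynomial.C (Polynomial.C c)) (e.eval (Polynomial.C c)) =
      {x : ℂ × ℂ | p.evalEval x.1 x.2 = c ∧ e.evalEval x.1 c ≠ 0} := by
    ext x
    show (_ ∧ _) ↔ (_ ∧ _)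
    rw [hev, sub_eq_zero, and_comm]
  rwa [hset] at h

end H13J
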