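import Pool.Agent.Lib.H13J.D

set_option autoImplicit false

open scoped unitInterval Polynomial

namespace H13J

open H13K

variable {ι : Type}

/-- An integral equation of `p` modulo a monic polynomial `q`. -/
private theorem exists_eq (q p : ℂ[X][X]) (hq : q.Monic) :
    ∃ e : ℂ[X][X], e.Monic ∧ ∀ z u, q.evalEval z u = 0 → e.evalEval z (p.evalEval z u) = 0 := by
  have : Module.Finite ℂ[X] (AdjoinRoot q) := hq.finite_adjoinRoot
  obtain ⟨e, he, he0⟩ : IsIntegral ℂ[X] (AdjoinRoot.mk q p) := Algebra.IsIntegral.isIntegral _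
  refine ⟨e, he, fun z u hz => ?_⟩
  have h1 : AdjoinRoot.mk q (e.comp p) = 0 := by
    rw [← he0, Polynomial.comp, Polynomial.hom_eval₂]
    rfl
  rw [AdjoinRoot.mk_eq_zero] at h1
  obtain ⟨r, hr⟩ := h1
  have h2 : (e.comp p).evalEval z u = e.evalEval z (p.evalEval z u) := by
    have h3 : (Polynomial.evalEvalRingHom z u) (e.comp p) =
        Polynomial.eval₂ ((Polynomial.evalEvalRingHom z u).comp Polynomial.C)
          ((Polynomial.evalEvalRingHom z u) p) e := by
      rw [Polynomial.comp, Polynomial.hom_eval₂]
    have h4 : (Polynomial.evalEvalRingHom z u).comp Polynomial.C = Polynomial.evalRingHom z := by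
      ext a
      · simp
      · simp
    rw [h4] at h3
    have h5 : Polynomial.eval₂ (Polynomial.evalRingHom z) (p.evalEval z u) e =
        e.evalEval z (p.evalEval z u) := by
      rw [Polynomial.evalEval, ← Polynomial.eval₂_evalRingHom]
    rw [← h5]
    exact h3
  rw [← h2, hr, Polynomial.evalEval_mul, hz, zero_mul]

/-- The branch polynomial e (inner variable z, outer variable c).
Proof: e = product of resultants in w of (P s - c, derivative (P s)) and (P s - c, P j), j ≠ s, as
polynomials in w over ℂ[z][c]; specialise (`Polynomial.resultant_map_map`, `resultant_eq_zero_iff` or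
exists_mul_add_mul_eq_C_resultant).  Not 0: as a polynomial in c the first one is, for fixed z, up to
a nonzero constant the product over the critical points v of (P s (z, v) - c), the others are the
products over the roots v of P j (z, .) of (P s (z, v) - c) up to sign; both are nonzero polynomials
in c.  (natDegree (P s) ≥ 1.) -/
theorem exists_bad [Fintype ι] (P : ι → ℂ[X][X]) (hm : ∀ i, (P i).Monic)
    (hirr : ∀ i, Irreducible (P i)) (s : ι) :
    ∃ e : ℂ[X][X], e ≠ 0 ∧ ∀ z c, e.evalEval z c ≠ 0 → Good P s z c := by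
  classical
  have hd : (P s).natDegree ≠ 0 := by
    intro h
    have h1 : P s = 1 := (hm s).natDegree_eq_zero.1 h
    exact (hirr s).not_isUnit (by rw [h1]; exact isUnit_one)
  have hd0 : (((P s).natDegree : ℕ) : ℂ) ≠ 0 := by exact_mod_cast hd
  set q : ℂ[X][X] := Polynomial.C (Polynomial.C ((((P s).natDegree : ℕ) : ℂ)⁻¹)) * Polynomial.derivative (P s)
    with hq
  have hqm : q.Monic := by
    refine Polynomial.monic_of_natDegree_le_of_coeff_eq_one ((P s).natDegree - 1) ?_ ?_
    · rw [hq]
      refine (Polynomial.natDegree_C_mul_le _ _).trans ?_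
      exact Polynomial.natDegree_derivative_le _
    · rw [hq, Polynomial.coeff_C_mul, Polynomial.coeff_derivative]
      have h1 : (P s).natDegree - 1 + 1 = (P s).natDegree := by omega
      rw [h1, (hm s).coeff_natDegree, one_mul]
      have h2 : (((((P s).natDegree - 1 : ℕ) : ℂ[X])) + 1) = Polynomial.C (((P s).natDegree : ℕ) : ℂ) := by
        have h3 : (((P s).natDegree - 1 : ℕ) : ℂ[X]) + 1 = (((P s).natDegree : ℕ) : ℂ[X]) := by
          rw [← Nat.cast_succ]
          congr 1
        rw [h3]
        exact (Polynomial.C_eq_natCast _).symm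
      rw [h2, ← Polynomial.C_mul, inv_mul_cancel₀ hd0, Polynomial.C_1]
  obtain ⟨e₀, he₀, h₀⟩ := exists_eq q (P s) hqm
  choose e he h using fun j : ι => exists_eq (P j) (P s) (hm j)
  refine ⟨e₀ * ∏ j, e j, ?_, ?_⟩
  · exact mul_ne_zero he₀.ne_zero (Finset.prod_ne_zero_iff.2 fun j _ => (he j).ne_zero)
  · intro z c hzc u hu
    rw [Polynomial.evalEval_mul] at hzc
    constructor
    · intro h1
      refine left_ne_zero_of_mul hzc ?_
      rw [← hu]
      refine h₀ z u ?_
      rw [hq, Polynomial.evalEval_mul, h1, mul_zero]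
    · intro j _ h1
      refine right_ne_zero_of_mul hzc ?_
      have h2 : (∏ j, e j).evalEval z c = ∏ j, (e j).evalEval z c := by
        exact map_prod (Polynomial.evalEvalRingHom z c) e Finset.univ
      rw [h2]
      refine Finset.prod_eq_zero (Finset.mem_univ j) ?_
      rw [← hu]
      exact h j z u h1

end H13J
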