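import Pool.Agent.Lib.H13J.D

set_option autoImplicit false

open scoped unitInterval Polynomial

namespace H13J

open H13K

variable {ι : Type}

private theorem f0b_eval (e : ℂ[X][X]) (r : ℂ[X]) (z : ℂ) :
    Polynomial.eval z (Polynomial.eval r e) =
      Polynomial.eval z (Polynomial.eval (Polynomial.C (Polynomial.eval z r)) e) := by
  have h1 := Polynomial.eval₂_at_apply (p := e) (Polynomial.evalRingHom z) r
  have h2 := Polynomial.eval₂_at_apply (p := e) (Polynomial.evalRingHom z)
    (Polynomial.C (Polynomial.eval z r))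
  rw [Polynomial.coe_evalRingHom] at h1 h2
  rw [Polynomial.eval_C] at h2
  rw [← h1, ← h2]

/-- Composition with a nonconstant monic polynomial is injective: T = e.comp p (for fixed z with
e (z, .) ≠ 0 the polynomial w ↦ p (z, w) takes all values). -/
theorem comp_ne_zero (e p : ℂ[X][X]) (he : e ≠ 0) (hp : p.Monic) (hd : 0 < p.natDegree) :
    ∃ T : ℂ[X][X], T ≠ 0 ∧ ∀ z w, T.evalEval z w = e.evalEval z (p.evalEval z w) := by
  refine ⟨e.comp p, ?_, fun z w => ?_⟩
  · intro h
    rcases Polynomial.comp_eq_zero_iff.1 h with h1 | ⟨_, h2⟩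
    · exact he h1
    · rw [h2, Polynomial.natDegree_C] at hd
      exact lt_irrefl _ hd
  · show Polynomial.eval z (Polynomial.eval (Polynomial.C w) (e.comp p)) =
      Polynomial.eval z (Polynomial.eval (Polynomial.C
        (Polynomial.eval z (Polynomial.eval (Polynomial.C w) p))) e)
    rw [Polynomial.eval_comp]
    exact f0b_eval e _ z

end H13J
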