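import Pool.Agent.Lib.H13J.D
import Pool.Agent.Lib.H13K.K1
import Pool.Agent.Lib.H13K.K3

set_option autoImplicit false

open scoped unitInterval Polynomial

namespace H13J

open H13K

variable {ι : Type}

private theorem f1_factor (n : ℕ) : ∀ q : ℂ[X][X], q.Monic → q.natDegree ≤ n →
    ∃ S : Finset ℂ[X][X], (∀ p ∈ S, p.Monic ∧ Irreducible p) ∧
      ∀ z w, (q.evalEval z w = 0 ↔ ∃ p ∈ S, p.evalEval z w = 0) := by
  classical
  have hzero : ∀ q : ℂ[X][X], q.Monic → q.natDegree = 0 →
      ∃ S : Finset ℂ[X][X], (∀ p ∈ S, p.Monic ∧ Irreducible p) ∧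
        ∀ z w, (q.evalEval z w = 0 ↔ ∃ p ∈ S, p.evalEval z w = 0) := by
    intro q hq hn
    have h1 : q = 1 := Polynomial.eq_one_of_monic_natDegree_zero hq hn
    refine ⟨∅, by simp, fun z w => ?_⟩
    rw [h1, Polynomial.evalEval_one]
    simp
  induction n with
  | zero =>
    intro q hq hn
    exact hzero q hq (by omega)
  | succ n ih =>
    intro q hq hn
    by_cases h0 : q.natDegree = 0
    · exact hzero q hq h0
    · have hu : ¬ IsUnit q := by
        intro hu
        rw [hq.isUnit_iff] at hu
        rw [hu, Polynomial.natDegree_one] at h0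
        exact h0 rfl
      obtain ⟨g, hg, h, hgh⟩ := WfDvdMonoid.exists_irreducible_factor hu hq.ne_zero
      have hlc : g.leadingCoeff * h.leadingCoeff = 1 := by
        rw [← Polynomial.leadingCoeff_mul, ← hgh, hq.leadingCoeff]
      have hgm : (Polynomial.C h.leadingCoeff * g).Monic := by
        rw [Polynomial.Monic, Polynomial.leadingCoeff_mul, Polynomial.leadingCoeff_C, mul_comm, hlc]
      have hhm : (Polynomial.C g.leadingCoeff * h).Monic := by
        rw [Polynomial.Monic, Polynomial.leadingCoeff_mul, Polynomial.leadingCoeff_C, hlc]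
      have hq' : q = (Polynomial.C h.leadingCoeff * g) * (Polynomial.C g.leadingCoeff * h) := by
        calc q = g * h := hgh
          _ = Polynomial.C (g.leadingCoeff * h.leadingCoeff) * (g * h) := by
            rw [hlc, Polynomial.C_1, one_mul]
          _ = _ := by
            rw [Polynomial.C_mul]
            ring
      have hun : IsUnit (Polynomial.C h.leadingCoeff : ℂ[X][X]) := by
        apply Polynomial.isUnit_C.2
        exact IsUnit.of_mul_eq_one_right _ hlc
      have hgi : Irreducible (Polynomial.C h.leadingCoeff * g) := (irreducible_isUnit_mul hun).2 hg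
      have hgd : (Polynomial.C h.leadingCoeff * g).natDegree ≠ 0 := by
        intro h1
        have h2 := Polynomial.eq_one_of_monic_natDegree_zero hgm h1
        exact hgi.not_isUnit (h2 ▸ isUnit_one)
      have hdeg := hgm.natDegree_mul hhm
      rw [← hq'] at hdeg
      obtain ⟨S, hS1, hS2⟩ := ih _ hhm (by omega)
      refine ⟨insert (Polynomial.C h.leadingCoeff * g) S, ?_, ?_⟩
      · intro p hp
        rcases Finset.mem_insert.1 hp with h1 | h1
        · rw [h1]
          exact ⟨hgm, hgi⟩
        · exact hS1 p h1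
      · intro z w
        rw [hq', Polynomial.evalEval_mul, mul_eq_zero, hS2 z w]
        simp only [Finset.mem_insert, exists_eq_or_imp]

private theorem f1_swap (e : ℂ[X][X]) (z c : ℂ) :
    (Polynomial.Bivariate.swap e).evalEval c z = e.evalEval z c := by
  have h := Polynomial.Bivariate.aevalAeval_swap (R := ℂ) c z e
  rw [Polynomial.coe_aevalAeval_eq_evalEval, Polynomial.coe_aevalAeval_eq_evalEval] at h
  exact h

/-- The zeros z of e (., c) as continuous functions of c off a finite set.
Proof: let e' be e with the variables exchanged (`Polynomial.Bivariate.swap` or by hand): a nonzero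
polynomial in z over ℂ[c], leading coefficient l(c).  `Polynomial.integralNormalization` of e' is
monic, its zeros over c with l(c) ≠ 0 are l(c) * (zeros of e').  It has the same zeros as the product
of its different monic irreducible factors P_i (zero set; if its degree is 0 take M = 0); discriminant
r from `exists_disc`; Bif = zeros of l and r; `local_roots` for the product of the P_i (simple roots
over r ≠ 0), divided by l(c). -/
theorem root_functions (e : ℂ[X][X]) (he : e ≠ 0) :
    ∃ (Bif : Set ℂ) (M : ℕ), Bif.Finite ∧ ∀ b, b ∉ Bif → ∃ ρ : ℝ, 0 < ρ ∧ ∃ f : Fin M → ℂ → ℂ,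
      (∀ a, ContinuousOn (f a) (Metric.ball b ρ)) ∧
      (∀ c ∈ Metric.ball b ρ, Function.Injective (fun a => f a c)) ∧
      ∀ c ∈ Metric.ball b ρ, ∀ z, (e.evalEval z c = 0 ↔ ∃ a, z = f a c) := by
  classical
  set e' : ℂ[X][X] := Polynomial.Bivariate.swap e with he'
  have he0 : e' ≠ 0 := by
    rw [he']
    intro h
    apply he
    exact (map_eq_zero_iff _ (Polynomial.Bivariate.swap (R := ℂ)).injective).1 h
  have hev : ∀ z c, e.evalEval z c = e'.evalEval c z := fun z c => (f1_swap e z c).symm
  set l : ℂ[X] := e'.leadingCoeff with hl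
  have hl0 : l ≠ 0 := Polynomial.leadingCoeff_ne_zero.2 he0
  have hball : ∀ b, l.eval b ≠ 0 → ∃ ρ : ℝ, 0 < ρ ∧ ∀ c ∈ Metric.ball b ρ, l.eval c ≠ 0 := by
    intro b hb
    have h1 : IsOpen {c : ℂ | l.eval c ≠ 0} := isOpen_ne_fun l.continuous continuous_const
    obtain ⟨ρ, hρ, h2⟩ := Metric.isOpen_iff.1 h1 b hb
    exact ⟨ρ, hρ, fun c hc => h2 hc⟩
  by_cases hd : e'.natDegree = 0
  · refine ⟨{c | l.eval c = 0}, 0, ?_, fun b hb => ?_⟩
    · exact Polynomial.finite_setOfPred_isRoot hl0
    · obtain ⟨ρ, hρ, h1⟩ := hball b hb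
      refine ⟨ρ, hρ, fun a => a.elim0, fun a => a.elim0, fun c _ a => a.elim0, fun c hc z => ?_⟩
      constructor
      · intro h2
        exfalso
        apply h1 c hc
        rw [hev, Polynomial.eq_C_of_natDegree_eq_zero hd, Polynomial.evalEval_C] at h2
        rw [hl, Polynomial.leadingCoeff, hd]
        exact h2
      · rintro ⟨a, -⟩
        exact a.elim0
  · set q : ℂ[X][X] := e'.integralNormalization with hq
    have hqm : q.Monic := Polynomial.monic_integralNormalization he0
    obtain ⟨S, hS1, hS2⟩ := f1_factor q.natDegree q hqm le_rfl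
    obtain ⟨r, hr⟩ := exists_disc (fun i : {p // p ∈ S} => i.1) (fun i => (hS1 i.1 i.2).1)
      (fun i => (hS1 i.1 i.2).2) Subtype.val_injective
    set p : ℂ[X][X] := ∏ i : {p // p ∈ S}, i.1 with hp
    have hpm : p.Monic := Polynomial.monic_prod_of_monic _ _ fun i _ => (hS1 i.1 i.2).1
    have hpev : ∀ z w, (p.evalEval z w = 0 ↔ q.evalEval z w = 0) := by
      intro z w
      rw [hS2, hp, Polynomial.evalEval_prod, Finset.prod_eq_zero_iff]
      constructor
      · rintro ⟨i, -, hi⟩
        exact ⟨i.1, i.2, hi⟩
      · rintro ⟨g, hg, hg0⟩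
        exact ⟨⟨g, hg⟩, Finset.mem_univ _, hg0⟩
    have hkey : ∀ z c, l.eval c ≠ 0 → (e.evalEval z c = 0 ↔ p.evalEval c (l.eval c * z) = 0) := by
      intro z c hc
      have h1 := Polynomial.integralNormalization_eval₂_leadingCoeff_mul (p := e')
        (by omega) (Polynomial.evalRingHom c) z
      rw [Polynomial.eval₂_evalRingHom, ← hl, ← hq, Polynomial.coe_evalRingHom] at h1
      rw [hpev, hev, h1, mul_eq_zero]
      constructor
      · intro h2
        exact Or.inr h2
      · rintro (h2 | h2)
        · exact absurd h2 (pow_ne_zero _ hc)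
        · exact h2
    refine ⟨{c | l.eval c = 0} ∪ {c | r.eval c = 0}, p.natDegree, ?_, fun b hb => ?_⟩
    · exact (Polynomial.finite_setOfPred_isRoot hl0).union (Polynomial.finite_setOfPred_isRoot hr.ne)
    · have hb' : l.eval b ≠ 0 ∧ r.eval b ≠ 0 := ⟨fun h => hb (Or.inl h), fun h => hb (Or.inr h)⟩
      have hs : ∀ w, p.evalEval b w = 0 → (Polynomial.derivative p).evalEval b w ≠ 0 := by
        intro w hw
        rw [hp, Polynomial.evalEval_prod, Finset.prod_eq_zero_iff] at hw
        obtain ⟨i, -, hi⟩ := hw
        rw [hp, Polynomial.derivative_prod_finset, Polynomial.evalEval_finsetSum,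
          Finset.sum_eq_single i]
        · rw [Polynomial.evalEval_mul, Polynomial.evalEval_prod]
          apply mul_ne_zero
          · rw [Finset.prod_ne_zero_iff]
            intro j hj
            exact hr.disj i j b w (Finset.ne_of_mem_erase hj).symm hb'.2 hi
          · exact hr.simple i b w hb'.2 hi
        · intro j _ hji
          rw [Polynomial.evalEval_mul, Polynomial.evalEval_prod]
          rw [Finset.prod_eq_zero (Finset.mem_erase.2 ⟨hji.symm, Finset.mem_univ i⟩) hi, zero_mul]
        · intro h
          exact absurd (Finset.mem_univ i) h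
      obtain ⟨ρ₁, hρ₁, h, hh1, hh2, hh3⟩ := local_roots p hpm b hs
      obtain ⟨ρ₂, hρ₂, hl2⟩ := hball b hb'.1
      have hsub1 : Metric.ball b (min ρ₁ ρ₂) ⊆ Metric.ball b ρ₁ :=
        Metric.ball_subset_ball (min_le_left _ _)
      have hsub2 : Metric.ball b (min ρ₁ ρ₂) ⊆ Metric.ball b ρ₂ :=
        Metric.ball_subset_ball (min_le_right _ _)
      refine ⟨min ρ₁ ρ₂, lt_min hρ₁ hρ₂, fun a c => h a c / l.eval c, ?_, ?_, ?_⟩
      · intro a
        apply ContinuousOn.div
        · exact (hh1 a).continuousOn.mono hsub1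
        · exact l.continuous.continuousOn
        · exact fun c hc => hl2 c (hsub2 hc)
      · intro c hc a a' haa
        have haa' : h a c / l.eval c = h a' c / l.eval c := haa
        have h0 := hl2 c (hsub2 hc)
        rw [div_left_inj' h0] at haa'
        exact hh2 c (hsub1 hc) haa'
      · intro c hc z
        have h0 := hl2 c (hsub2 hc)
        rw [hkey z c h0, ← Polynomial.map_evalRingHom_eval, hh3 c (hsub1 hc), Polynomial.eval_prod,
          Finset.prod_eq_zero_iff]
        constructor
        · rintro ⟨a, -, ha⟩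
          refine ⟨a, ?_⟩
          rw [Polynomial.eval_sub, Polynomial.eval_X, Polynomial.eval_C, sub_eq_zero] at ha
          rw [eq_div_iff h0, mul_comm]
          exact ha
        · rintro ⟨a, ha⟩
          refine ⟨a, Finset.mem_univ _, ?_⟩
          rw [Polynomial.eval_sub, Polynomial.eval_X, Polynomial.eval_C, sub_eq_zero]
          rw [eq_div_iff h0, mul_comm] at ha
          exact ha

end H13J
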