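import Pool.Agent.Lib.H13J.D
import Pool.Agent.Lib.H13M.C3
import Pool.Agent.Lib.H13K.K3
import Pool.Agent.Lib.H13K.K4

set_option autoImplicit false

open scoped unitInterval Polynomial

namespace H13J

open H13K

variable {ι : Type}

private theorem f2a_evenly {X : Type} [TopologicalSpace X] (p : (MvPolynomial (Fin 2) ℂ)[X])
    (hp : p.Monic) (z : C(X, Fin 2 → ℂ)) (t₀ : X)
    (hs : ∀ w, H13M.ev p (z t₀, w) = 0 → H13M.ev (Polynomial.derivative p) (z t₀, w) ≠ 0) :
    IsEvenlyCovered (fun q : {q : X × ℂ // H13M.ev p (z q.1, q.2) = 0} => q.1.1) t₀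
      (Fin p.natDegree) := by
  obtain ⟨ρ, hρ, h, hd, hi, hf⟩ := H13M.local_roots p hp (z t₀) hs
  set E := {q : X × ℂ // H13M.ev p (z q.1, q.2) = 0} with hE
  set U : Set X := z ⁻¹' Metric.ball (z t₀) ρ with hU
  have hUo : IsOpen U := Metric.isOpen_ball.preimage z.continuous
  have hfc : Continuous (fun q : E => q.1.1) := continuous_fst.comp continuous_subtype_val
  have hroot : ∀ t ∈ U, ∀ w, H13M.ev p (z t, w) = 0 ↔ ∃ a, h a (z t) = w := by
    intro t ht w
    rw [H13M.ev, hf (z t) ht, Polynomial.eval_prod, Finset.prod_eq_zero_iff]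
    constructor
    · rintro ⟨a, -, ha⟩
      refine ⟨a, ?_⟩
      rw [Polynomial.eval_sub, Polynomial.eval_X, Polynomial.eval_C, sub_eq_zero] at ha
      exact ha.symm
    · rintro ⟨a, ha⟩
      refine ⟨a, Finset.mem_univ _, ?_⟩
      rw [Polynomial.eval_sub, Polynomial.eval_X, Polynomial.eval_C, ha, sub_self]
  have hcont : ∀ a, Continuous (fun t : U => h a (z t.1)) := by
    intro a
    have h1 : ContinuousOn (h a) (Metric.ball (z t₀) ρ) := (hd a).continuousOn
    exact h1.comp_continuous (z.continuous.comp continuous_subtype_val) (fun t => t.2)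
  have hex : ∀ q : (fun q : E => q.1.1) ⁻¹' U, ∃ a, h a (z q.1.1.1) = q.1.1.2 := by
    intro q
    exact (hroot q.1.1.1 q.2 q.1.1.2).1 q.1.2
  choose idx hidx using hex
  have hidx_iff : ∀ q a, idx q = a ↔ h a (z q.1.1.1) = q.1.1.2 := by
    intro q a
    constructor
    · rintro rfl
      exact hidx q
    · intro ha
      exact hi (z q.1.1.1) q.2 (by show h (idx q) _ = h a _; rw [hidx q, ha])
  have hclosed : ∀ a, IsClosed {q : (fun q : E => q.1.1) ⁻¹' U | idx q = a} := by
    intro a
    have h2 : {q : (fun q : E => q.1.1) ⁻¹' U | idx q = a} =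
        {q | h a (z q.1.1.1) = q.1.1.2} := by
      ext q
      exact hidx_iff q a
    rw [h2]
    apply isClosed_eq
    · exact (hcont a).comp (Continuous.subtype_mk (hfc.comp continuous_subtype_val) (fun q => q.2))
    · exact continuous_snd.comp (continuous_subtype_val.comp continuous_subtype_val)
  refine ⟨inferInstance, U, by simp [hU, hρ], hUo, hUo.preimage hfc,
    { toFun := fun q => (⟨q.1.1.1, q.2⟩, idx q)
      invFun := fun y => ⟨⟨(y.1.1, h y.2 (z y.1.1)),
        (hroot y.1.1 y.1.2 _).2 ⟨y.2, rfl⟩⟩, y.1.2⟩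
      left_inv := ?_
      right_inv := ?_
      continuous_toFun := ?_
      continuous_invFun := ?_ }, fun _ => rfl⟩
  · intro q
    apply Subtype.ext
    apply Subtype.ext
    exact Prod.ext rfl (hidx q)
  · intro y
    refine Prod.ext rfl ?_
    exact (hidx_iff _ _).2 rfl
  · refine Continuous.prodMk
      (Continuous.subtype_mk (hfc.comp continuous_subtype_val) (fun q => q.2)) ?_
    rw [continuous_discrete_rng]
    intro a
    have h3 : idx ⁻¹' {a} = (⋃ b ∈ (Finset.univ.erase a : Finset (Fin p.natDegree)),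
        {q : (fun q : E => q.1.1) ⁻¹' U | idx q = b})ᶜ := by
      ext q
      simp only [Set.mem_preimage, Set.mem_singleton_iff, Set.mem_compl_iff, Set.mem_iUnion,
        Finset.mem_erase, Finset.mem_univ, and_true, Set.mem_ofPred_eq, exists_prop, not_exists,
        not_and]
      constructor
      · intro h4 b hb h5
        exact hb (h5.symm.trans h4)
      · intro h4
        by_contra h5
        exact h4 (idx q) h5 rfl
    rw [h3, isOpen_compl_iff]
    exact isClosed_biUnion_finset (fun b _ => hclosed b)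
  · refine Continuous.subtype_mk (Continuous.subtype_mk ?_ _) _
    refine Continuous.prodMk (continuous_subtype_val.comp continuous_fst) ?_
    rw [continuous_prod_of_discrete_right]
    intro a
    exact hcont a

/-- The polynomial `p - c` with coefficients in `ℂ[z, c]`. -/
private noncomputable def f2aP (p : ℂ[X][X]) : (MvPolynomial (Fin 2) ℂ)[X] :=
  p.map (Polynomial.aeval (MvPolynomial.X (0 : Fin 2)) : ℂ[X] →ₐ[ℂ] MvPolynomial (Fin 2) ℂ).toRingHom -
    Polynomial.C (MvPolynomial.X (1 : Fin 2))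

private theorem f2a_hom (x : Fin 2 → ℂ) :
    (MvPolynomial.eval x).comp
      (Polynomial.aeval (MvPolynomial.X (0 : Fin 2)) : ℂ[X] →ₐ[ℂ] MvPolynomial (Fin 2) ℂ).toRingHom =
        Polynomial.evalRingHom (x 0) := by
  apply Polynomial.ringHom_ext
  · intro a
    simp [MvPolynomial.algebraMap_eq]
  · simp

private theorem f2a_ev (p : ℂ[X][X]) (x : Fin 2 → ℂ) (w : ℂ) :
    H13M.ev (f2aP p) (x, w) = p.evalEval (x 0) w - x 1 := by
  rw [H13M.ev, f2aP, Polynomial.map_sub, Polynomial.map_map, f2a_hom, Polynomial.eval_sub,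
    Polynomial.map_evalRingHom_eval, Polynomial.map_C, Polynomial.eval_C, MvPolynomial.eval_X]

private theorem f2a_dev (p : ℂ[X][X]) (x : Fin 2 → ℂ) (w : ℂ) :
    H13M.ev (Polynomial.derivative (f2aP p)) (x, w) = (Polynomial.derivative p).evalEval (x 0) w := by
  rw [H13M.ev, f2aP, Polynomial.derivative_sub, Polynomial.derivative_C, sub_zero,
    Polynomial.derivative_map, Polynomial.map_map, f2a_hom, Polynomial.map_evalRingHom_eval]

private theorem f2a_monic (p : ℂ[X][X]) (hp : p.Monic) (h : p.natDegree ≠ 0) : (f2aP p).Monic := by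
  refine (hp.map _).sub_of_left ?_
  refine lt_of_le_of_lt Polynomial.degree_C_le ?_
  rw [hp.degree_map]
  exact Polynomial.natDegree_pos_iff_degree_pos.1 (Nat.pos_of_ne_zero h)

/-- Lifting squares through (z, w) ↦ (z, p (z, w)) off the branch points.
Proof: the projection {(q, u) : p (q.1, u) = q.2} → ℂ × ℂ restricted to the open set of the q over
which all roots are simple is a covering map (`H13M.local_roots` for the polynomial p - c with
coefficients in ℂ[z, c], n = 2); the square is simply connected and locally path connected: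
`IsCoveringMap.existsUnique_continuousMap_lifts`.  Compare the proof of `H13K.roots_along`
(K4.lean). -/
theorem lift_square (p : ℂ[X][X]) (hp : p.Monic) (F : C(I × I, ℂ × ℂ))
    (hF : ∀ x u, p.evalEval (F x).1 u = (F x).2 →
      (Polynomial.derivative p).evalEval (F x).1 u ≠ 0)
    (u₀ : ℂ) (h0 : p.evalEval (F (0, 0)).1 u₀ = (F (0, 0)).2) :
    ∃ U : C(I × I, ℂ), U (0, 0) = u₀ ∧ ∀ x, p.evalEval (F x).1 (U x) = (F x).2 := by
  have hdeg : p.natDegree ≠ 0 := by
    intro h
    have h1 := Polynomial.eq_one_of_monic_natDegree_zero hp h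
    refine hF (0, 0) u₀ h0 ?_
    rw [h1, Polynomial.derivative_one, Polynomial.evalEval_zero]
  have hP := f2a_monic p hp hdeg
  let π : C(ℝ × ℝ, I × I) := ⟨fun x => (Set.projIcc 0 1 zero_le_one x.1, Set.projIcc 0 1 zero_le_one x.2),
    (continuous_projIcc.comp continuous_fst).prodMk (continuous_projIcc.comp continuous_snd)⟩
  have hπ : ∀ x : I × I, π ((x.1 : ℝ), (x.2 : ℝ)) = x := by
    intro x
    exact Prod.ext (Set.projIcc_val zero_le_one x.1) (Set.projIcc_val zero_le_one x.2)
  let z : C(ℝ × ℝ, Fin 2 → ℂ) := ⟨fun x => ![(F (π x)).1, (F (π x)).2], by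
    refine continuous_pi fun i => ?_
    fin_cases i
    · exact continuous_fst.comp (F.continuous.comp π.continuous)
    · exact continuous_snd.comp (F.continuous.comp π.continuous)⟩
  have hz0 : ∀ x, z x 0 = (F (π x)).1 := fun x => rfl
  have hz1 : ∀ x, z x 1 = (F (π x)).2 := fun x => rfl
  have hs : ∀ t w, H13M.ev (f2aP p) (z t, w) = 0 →
      H13M.ev (Polynomial.derivative (f2aP p)) (z t, w) ≠ 0 := by
    intro t w h
    rw [f2a_ev, sub_eq_zero, hz0, hz1] at h
    rw [f2a_dev, hz0]
    exact hF _ w h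
  have hcov : IsCoveringMap (fun q : {q : (ℝ × ℝ) × ℂ // H13M.ev (f2aP p) (z q.1, q.2) = 0} => q.1.1) :=
    fun t => (f2a_evenly (f2aP p) hP z t (hs t)).to_isEvenlyCovered_preimage
  have hπ0 : π (0, 0) = (0, 0) := hπ (0, 0)
  have he : H13M.ev (f2aP p) (z (0, 0), u₀) = 0 := by
    rw [f2a_ev, sub_eq_zero, hz0, hz1, hπ0]
    exact h0
  obtain ⟨G, ⟨hG0, hG⟩, -⟩ := hcov.existsUnique_continuousMap_lifts (ContinuousMap.id (ℝ × ℝ)) (0, 0)
    ⟨((0, 0), u₀), he⟩ rfl
  have hG1 : ∀ t, (G t).1.1 = t := fun t => congrFun hG t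
  refine ⟨⟨fun x => (G ((x.1 : ℝ), (x.2 : ℝ))).1.2, by fun_prop⟩, ?_, ?_⟩
  · show (G (((0 : I) : ℝ), ((0 : I) : ℝ))).1.2 = u₀
    have h1 : G (((0 : I) : ℝ), ((0 : I) : ℝ)) = ⟨((0, 0), u₀), he⟩ := by
      rw [← hG0]
      simp
    rw [h1]
  · intro x
    show p.evalEval (F x).1 (G ((x.1 : ℝ), (x.2 : ℝ))).1.2 = (F x).2
    have h1 := (G ((x.1 : ℝ), (x.2 : ℝ))).2
    rw [hG1, f2a_ev, sub_eq_zero, hz0, hz1, hπ] at h1
    exact h1

end H13J
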