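import Pool.Agent.Lib.H13J.D

set_option autoImplicit false

open scoped unitInterval Polynomial

namespace H13J

open H13K

variable {ι : Type}

/-- The divided difference of `p (z, .)`. -/
private noncomputable def f2bD (p : ℂ[X][X]) (z u v : ℂ) : ℂ :=
  ∑ k ∈ Finset.range (p.natDegree + 1), (p.coeff k).eval z * ∑ i ∈ Finset.range k, u ^ i * v ^ (k - 1 - i)

private theorem f2b_mul (p : ℂ[X][X]) (z u v : ℂ) :
    f2bD p z u v * (u - v) = p.evalEval z u - p.evalEval z v := by
  rw [evalEval_eq_sum, evalEval_eq_sum, ← Finset.sum_sub_distrib]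
  unfold f2bD
  rw [Finset.sum_mul]
  refine Finset.sum_congr rfl fun k _ => ?_
  rw [mul_assoc, (Commute.all u v).geom_sum₂_mul, mul_sub]

private theorem f2b_diag (p : ℂ[X][X]) (z u : ℂ) :
    f2bD p z u u = (Polynomial.derivative p).evalEval z u := by
  show _ = Polynomial.eval z (Polynomial.eval (Polynomial.C u) (Polynomial.derivative p))
  rw [Polynomial.derivative_eval, Polynomial.sum_over_range p (by simp), Polynomial.eval_finsetSum]
  unfold f2bD
  refine Finset.sum_congr rfl fun k _ => ?_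
  rw [geom_sum₂_self]
  simp [mul_assoc]

private theorem f2b_cont (p : ℂ[X][X]) (F : C(I, ℂ × ℂ)) (U U' : C(I, ℂ)) :
    Continuous fun t => f2bD p (F t).1 (U t) (U' t) := by
  unfold f2bD
  refine continuous_finsetSum _ fun k _ => ?_
  refine ((p.coeff k).continuous.comp (continuous_fst.comp F.continuous)).mul ?_
  refine continuous_finsetSum _ fun i _ => ?_
  exact (U.continuous.pow i).mul (U'.continuous.pow _)

/-- Uniqueness of lifts of paths (the roots are simple, so isolated). -/
theorem lift_unique (p : ℂ[X][X]) (hp : p.Monic) (F : C(I, ℂ × ℂ))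
    (hF : ∀ x u, p.evalEval (F x).1 u = (F x).2 →
      (Polynomial.derivative p).evalEval (F x).1 u ≠ 0)
    (U U' : C(I, ℂ)) (hU : ∀ x, p.evalEval (F x).1 (U x) = (F x).2)
    (hU' : ∀ x, p.evalEval (F x).1 (U' x) = (F x).2) (t₀ : I) (h : U t₀ = U' t₀) : U = U' := by
  have hclosed : IsClosed {t : I | U t = U' t} := isClosed_eq U.continuous U'.continuous
  have hopen : IsOpen {t : I | U t = U' t} := by
    rw [isOpen_iff_mem_nhds]
    intro t₁ ht₁
    have ht₁' : U t₁ = U' t₁ := ht₁
    have h1 : f2bD p (F t₁).1 (U t₁) (U' t₁) ≠ 0 := by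
      rw [← ht₁', f2b_diag]
      exact hF t₁ (U t₁) (hU t₁)
    have h2 : ∀ᶠ t in nhds t₁, f2bD p (F t).1 (U t) (U' t) ≠ 0 :=
      (f2b_cont p F U U').continuousAt.eventually_ne h1
    filter_upwards [h2] with t ht
    have h3 := f2b_mul p (F t).1 (U t) (U' t)
    rw [hU, hU', sub_self] at h3
    have h4 : U t - U' t = 0 := (mul_eq_zero.1 h3).resolve_left ht
    exact sub_eq_zero.1 h4
  have huniv : {t : I | U t = U' t} = Set.univ := IsClopen.eq_univ ⟨hclosed, hopen⟩ ⟨t₀, h⟩
  ext t
  have : t ∈ {t : I | U t = U' t} := by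
    rw [huniv]
    trivial
  exact this

end H13J
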