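import Pool.Agent.Lib.H13J.D

set_option autoImplicit false

open scoped unitInterval Polynomial

namespace H13J

open H13K

variable {ι : Type}

/-- the cut-off function -/
private noncomputable def l0chi (δ : ℝ) (w z : ℂ) : ℝ := max 0 (min 1 (2 - 4 * ‖z - w‖ / δ))

private theorem l0chi_cont (δ : ℝ) (w : ℂ) : Continuous (l0chi δ w) := by
  unfold l0chi
  fun_prop

private theorem l0chi_one {δ : ℝ} (hδ : 0 < δ) {w z : ℂ} (h : ‖z - w‖ ≤ δ / 4) :
    l0chi δ w z = 1 := by
  unfold l0chi
  have h1 : 4 * ‖z - w‖ / δ ≤ 1 := by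
    rw [div_le_one hδ]
    linarith
  rw [min_eq_left (by linarith), max_eq_right zero_le_one]

private theorem l0chi_zero {δ : ℝ} (hδ : 0 < δ) {w z : ℂ} (h : δ / 2 ≤ ‖z - w‖) :
    l0chi δ w z = 0 := by
  unfold l0chi
  have h1 : 2 ≤ 4 * ‖z - w‖ / δ := by
    rw [le_div_iff₀ hδ]
    linarith
  exact max_eq_left ((min_le_right _ _).trans (by linarith))

private theorem l0chi_nonneg (δ : ℝ) (w z : ℂ) : 0 ≤ l0chi δ w z := le_max_left _ _

private theorem l0chi_le (δ : ℝ) (w z : ℂ) : l0chi δ w z ≤ 1 :=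
  max_le zero_le_one (min_le_left _ _)

private theorem l0_sep {M : ℕ} (f : Fin M → ℂ → ℂ) (b : ℂ)
    (hinj : Function.Injective (fun a => f a b)) :
    ∃ δ : ℝ, 0 < δ ∧ ∀ a a', a ≠ a' → δ ≤ ‖f a b - f a' b‖ := by
  have h : ∀ᶠ δ : ℝ in nhdsWithin 0 (Set.Ioi 0), ∀ a a', a ≠ a' → δ ≤ ‖f a b - f a' b‖ := by
    refine Filter.eventually_all.2 fun a => Filter.eventually_all.2 fun a' => ?_
    by_cases haa : a = a'
    · exact Filter.Eventually.of_forall fun _ h => absurd haa h
    · have hpos : 0 < ‖f a b - f a' b‖ := by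
        rw [norm_pos_iff, sub_ne_zero]
        exact fun h => haa (hinj h)
      filter_upwards [Ioc_mem_nhdsGT hpos] with δ hδ _ using hδ.2
  obtain ⟨δ, h1, h2⟩ := (h.and self_mem_nhdsWithin).exists
  exact ⟨δ, h2, h1⟩

/-- An explicit isotopy following finitely many moving points.
Proof: δ > 0 the minimal distance of the f a b; ρ' so small that |f a c - f a b| < δ / 16 on
ball b ρ'; ψ (c, c', z) = z + sum over a of χ_a(z) (f a c' - f a c), χ_a(z) = max 0 (min 1 (2 -
4 |z - f a b| / δ)) (1 for |z - f a b| ≤ δ / 4, 0 for ≥ δ / 2, at most one χ_a(z) is nonzero).  If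
|z - f a b| ≤ δ / 4: ψ = z + f a c' - f a c, equal to f a c' iff z = f a c, and far from the other
f a'' c'.  If z is at distance > δ / 4 from all f a b: |ψ - z| ≤ δ / 8, |f a c' - f a b| < δ / 16.
(M = 0: ψ = z; M = 1: δ = 1.) -/
theorem isotopy (M : ℕ) (f : Fin M → ℂ → ℂ) (b : ℂ) (ρ : ℝ) (hρ : 0 < ρ)
    (hc : ∀ a, ContinuousOn (f a) (Metric.ball b ρ))
    (hinj : ∀ c ∈ Metric.ball b ρ, Function.Injective (fun a => f a c)) :
    ∃ ρ' : ℝ, 0 < ρ' ∧ ρ' ≤ ρ ∧ ∃ ψ : ℂ × ℂ × ℂ → ℂ,
      ContinuousOn ψ (Metric.ball b ρ' ×ˢ Metric.ball b ρ' ×ˢ Set.univ) ∧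
      (∀ c ∈ Metric.ball b ρ', ∀ z, ψ (c, c, z) = z) ∧
      ∀ c ∈ Metric.ball b ρ', ∀ c' ∈ Metric.ball b ρ', ∀ z, (∀ a, z ≠ f a c) →
        ∀ a, ψ (c, c', z) ≠ f a c' := by
  obtain ⟨δ, hδ, hsep⟩ := l0_sep f b (hinj b (Metric.mem_ball_self hρ))
  have h1 : ∀ᶠ c in nhds b, ∀ a, ‖f a c - f a b‖ < δ / 16 := by
    refine Filter.eventually_all.2 fun a => ?_
    have hca : ContinuousAt (f a) b := (hc a).continuousAt (Metric.ball_mem_nhds b hρ)
    have := Metric.continuousAt_iff'.1 hca (δ / 16) (by positivity)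
    simpa only [dist_eq_norm] using this
  obtain ⟨ρ1, hρ1, hball⟩ := Metric.eventually_nhds_iff_ball.1 h1
  refine ⟨min ρ1 ρ, lt_min hρ1 hρ, min_le_right _ _,
    fun p => p.2.2 + ∑ a, (l0chi δ (f a b) p.2.2 : ℂ) * (f a p.2.1 - f a p.1), ?_, ?_, ?_⟩
  · have hsub : Metric.ball b (min ρ1 ρ) ⊆ Metric.ball b ρ :=
      Metric.ball_subset_ball (min_le_right _ _)
    have hz : Continuous fun p : ℂ × ℂ × ℂ => p.2.2 := by fun_prop
    refine ContinuousOn.add hz.continuousOn ?_
    refine continuousOn_finsetSum _ fun a _ => ?_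
    refine ContinuousOn.mul ?_ (ContinuousOn.sub ?_ ?_)
    · exact (Complex.continuous_ofReal.comp ((l0chi_cont δ (f a b)).comp hz)).continuousOn
    · refine (hc a).comp (by fun_prop) ?_
      intro p hp
      exact hsub hp.2.1
    · refine (hc a).comp (by fun_prop) ?_
      intro p hp
      exact hsub hp.1
  · intro c _ z
    simp
  · intro c hcb c' hcb' z hz a hψ
    have hball1 : ∀ x ∈ Metric.ball b (min ρ1 ρ), ∀ a, ‖f a x - f a b‖ < δ / 16 := fun x hx =>
      hball x (Metric.ball_subset_ball (min_le_left _ _) hx)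
    have hd : ∀ a, ‖f a c' - f a c‖ < δ / 8 := by
      intro a
      have e : f a c' - f a c = (f a c' - f a b) - (f a c - f a b) := by ring
      rw [e]
      have h2 := hball1 c hcb a
      have h3 := hball1 c' hcb' a
      have h4 := norm_sub_le (f a c' - f a b) (f a c - f a b)
      linarith
    have hfar : ∀ a a', a ≠ a' → ‖z - f a b‖ < δ / 2 → l0chi δ (f a' b) z = 0 := by
      intro a a' haa h
      refine l0chi_zero hδ ?_
      have h2 := hsep a a' haa
      have e : f a b - f a' b = (z - f a' b) - (z - f a b) := by ring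
      rw [e] at h2
      have h3 := norm_sub_le (z - f a' b) (z - f a b)
      linarith
    have hu : ‖∑ a, (l0chi δ (f a b) z : ℂ) * (f a c' - f a c)‖ < δ / 8 := by
      by_cases hex : ∃ a0, ‖z - f a0 b‖ < δ / 2
      · obtain ⟨a0, ha0⟩ := hex
        rw [Finset.sum_eq_single a0]
        · rw [norm_mul, Complex.norm_real, Real.norm_eq_abs, abs_of_nonneg (l0chi_nonneg _ _ _)]
          calc l0chi δ (f a0 b) z * ‖f a0 c' - f a0 c‖ ≤ 1 * ‖f a0 c' - f a0 c‖ :=
                mul_le_mul_of_nonneg_right (l0chi_le _ _ _) (norm_nonneg _)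
            _ < δ / 8 := by
                rw [one_mul]
                exact hd a0
        · intro a' _ ha'
          rw [hfar a0 a' (Ne.symm ha') ha0]
          simp
        · intro h
          exact absurd (Finset.mem_univ _) h
      · push Not at hex
        rw [Finset.sum_eq_zero]
        · rw [norm_zero]
          positivity
        · intro a' _
          rw [l0chi_zero hδ (hex a')]
          simp
    simp only at hψ
    have hzb : ‖z - f a b‖ < δ / 4 := by
      have e : z - f a b = (f a c' - f a b) -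
          ∑ a, (l0chi δ (f a b) z : ℂ) * (f a c' - f a c) := by
        rw [← hψ]
        ring
      rw [e]
      have h2 := norm_sub_le (f a c' - f a b) (∑ a, (l0chi δ (f a b) z : ℂ) * (f a c' - f a c))
      have h3 := hball1 c' hcb' a
      linarith
    rw [Finset.sum_eq_single a] at hψ
    · rw [l0chi_one hδ hzb.le] at hψ
      apply hz a
      have : z = z + ((1 : ℝ) : ℂ) * (f a c' - f a c) - (f a c' - f a c) := by
        push_cast
        ring
      rw [this, hψ]
      ring
    · intro a' _ ha'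
      rw [hfar a a' (Ne.symm ha') (by linarith)]
      simp
    · intro h
      exact absurd (Finset.mem_univ _) h

end H13J
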