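import Pool.Agent.Lib.H13J.D
import Pool.Agent.Lib.H13J.F0a
import Pool.Agent.Lib.H13J.F0b
import Pool.Agent.Lib.H13J.F1
import Pool.Agent.Lib.H13J.F2a
import Pool.Agent.Lib.H13J.F2b
import Pool.Agent.Lib.H13J.L0

set_option autoImplicit false

open scoped unitInterval Polynomial

namespace H13J

open H13K

variable {ι : Type}

private theorem l1_mem {P : ι → ℂ[X][X]} {s : ι} {e : ℂ[X][X]}
    (he : ∀ z c, e.evalEval z c ≠ 0 → Good P s z c) {z c u : ℂ} (h : e.evalEval z c ≠ 0)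
    (hc : c ≠ 0) (hu : (P s).evalEval z u = c) : (z, u) ∈ CX P := by
  intro i
  by_cases hi : i = s
  · subst hi
    change (P i).evalEval z u ≠ 0
    rw [hu]
    exact hc
  · exact (he z c h u hu).2 i hi

private theorem l1_seg {b : ℂ} {ρ : ℝ} {x y : ℂ} (hx : x ∈ Metric.ball b ρ)
    (hy : y ∈ Metric.ball b ρ) (τ : I) :
    (1 - (τ : ℝ)) • x + (τ : ℝ) • y ∈ Metric.ball b ρ :=
  convex_ball b ρ hx hy (by linarith [τ.2.2]) τ.2.1 (by ring)

private theorem l1_const (x : ℂ) (τ : I) : (1 - (τ : ℝ)) • x + (τ : ℝ) • x = x := by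
  rw [← add_smul]
  simp

/-- Push data over a disc.
Proof: ρ ≤ ρ' of `isotopy`, ball b ρ does not contain 0.  (push) p t = (z t, w t), c t = h (p t) ∈ ball,
z t ≠ f a (c t) for all a.  Let b' = h x = h y, c (τ, t) = (1 - τ) c t + τ b', z (τ, t) =
ψ (c t, c (τ, t), z t); F (τ, t) = (z (τ, t), c (τ, t)), all off the zeros of e, so Good;
`lift_square` with U (0, 0) = w 0; `lift_unique`: U (0, t) = w t, U (τ, 0) = w 0, U (τ, 1) = w 1
(on these sides F is constant, c t = b' at the ends).  All points (z (τ, t), U (τ, t)) lie in CX P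
(h = c (τ, t) ≠ 0, Good for j ≠ s).  q t = side τ = 1.  (move) F (τ, t) = (ψ (h x, c τ, z), c τ),
c τ = (1 - τ) (h x) + τ c. -/
theorem push_of_roots (P : ι → ℂ[X][X]) (hm : ∀ i, (P i).Monic) (s : ι) (e : ℂ[X][X])
    (he : ∀ z c, e.evalEval z c ≠ 0 → Good P s z c) (b : ℂ) (hb : b ≠ 0) (ρ : ℝ) (hρ : 0 < ρ)
    (M : ℕ) (f : Fin M → ℂ → ℂ) (hc : ∀ a, ContinuousOn (f a) (Metric.ball b ρ))
    (hinj : ∀ c ∈ Metric.ball b ρ, Function.Injective (fun a => f a c))
    (hf : ∀ c ∈ Metric.ball b ρ, ∀ z, (e.evalEval z c = 0 ↔ ∃ a, z = f a c)) :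
    ∃ ρ' : ℝ, Push P s e b ρ' := by
  obtain ⟨ρ₁, hρ₁, hρρ, ψ, hψc, hψ1, hψ2⟩ := isotopy M f b ρ hρ hc hinj
  set ρ' := min ρ₁ ‖b‖ with hρ'
  have hpos : 0 < ρ' := lt_min hρ₁ (norm_pos_iff.2 hb)
  have hsub₁ : Metric.ball b ρ' ⊆ Metric.ball b ρ₁ := Metric.ball_subset_ball (min_le_left _ _)
  have hsub : Metric.ball b ρ' ⊆ Metric.ball b ρ := hsub₁.trans (Metric.ball_subset_ball hρρ)
  have h0 : ∀ c ∈ Metric.ball b ρ', c ≠ 0 := by
    rintro c hcb rfl
    rw [Metric.mem_ball, dist_zero_left] at hcb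
    exact absurd (hcb.trans_le (min_le_right _ _)) (lt_irrefl _)
  -- the isotopy preserves the complement of the branch curve
  have hiso : ∀ c ∈ Metric.ball b ρ', ∀ c' ∈ Metric.ball b ρ', ∀ z, e.evalEval z c ≠ 0 →
      e.evalEval (ψ (c, c', z)) c' ≠ 0 := by
    intro c hcb c' hcb' z hz h
    obtain ⟨a, ha⟩ := (hf c' (hsub hcb') _).1 h
    exact hψ2 c (hsub₁ hcb) c' (hsub₁ hcb') z (fun a' ha' => hz ((hf c (hsub hcb) z).2 ⟨a', ha'⟩)) a ha
  have hid : ∀ c ∈ Metric.ball b ρ', ∀ z, ψ (c, c, z) = z := fun c hcb z => hψ1 c (hsub₁ hcb) z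
  refine ⟨ρ', hpos, ?_, ?_⟩
  · intro x y p hp hxy
    set b' := hval P s x.1 with hb'
    set c : I → ℂ := fun t => hval P s (p t).1 with hcdef
    have hcc : Continuous c := by
      have := continuous_evalEval (P s)
      exact this.comp (continuous_subtype_val.comp p.continuous)
    have hcb : ∀ t, c t ∈ Metric.ball b ρ' := fun t => (hp t).1
    have hc0 : c 0 = b' := by simp [hcdef, hb']
    have hc1 : c 1 = b' := by rw [hxy]; simp [hcdef]
    have hb'b : b' ∈ Metric.ball b ρ' := by rw [← hc0]; exact hcb 0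
    set z : I → ℂ := fun t => (p t).1.1 with hzdef
    have hzc : Continuous z := (continuous_fst.comp (continuous_subtype_val.comp p.continuous))
    set w : I → ℂ := fun t => (p t).1.2 with hwdef
    have hwc : Continuous w := (continuous_snd.comp (continuous_subtype_val.comp p.continuous))
    have hpw : ∀ t, (P s).evalEval (z t) (w t) = c t := fun t => rfl
    have heg : ∀ t, e.evalEval (z t) (c t) ≠ 0 := fun t => (hp t).2
    -- the square
    have hCmem : ∀ x : I × I, (1 - (x.1 : ℝ)) • c x.2 + (x.1 : ℝ) • b' ∈ Metric.ball b ρ' :=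
      fun x => l1_seg (hcb _) hb'b _
    have hCc : Continuous fun x : I × I => (1 - (x.1 : ℝ)) • c x.2 + (x.1 : ℝ) • b' := by
      fun_prop
    have hZc : Continuous fun x : I × I =>
        ψ (c x.2, (1 - (x.1 : ℝ)) • c x.2 + (x.1 : ℝ) • b', z x.2) := by
      refine hψc.comp_continuous (f := fun x : I × I =>
        (c x.2, (1 - (x.1 : ℝ)) • c x.2 + (x.1 : ℝ) • b', z x.2)) ?_ fun x => ?_
      · exact (hcc.comp continuous_snd).prodMk (hCc.prodMk (hzc.comp continuous_snd))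
      · exact ⟨hsub₁ (hcb _), hsub₁ (hCmem x), trivial⟩
    let F : C(I × I, ℂ × ℂ) := ⟨fun x => (ψ (c x.2, (1 - (x.1 : ℝ)) • c x.2 + (x.1 : ℝ) • b', z x.2),
      (1 - (x.1 : ℝ)) • c x.2 + (x.1 : ℝ) • b'), hZc.prodMk hCc⟩
    have hFe : ∀ x, e.evalEval (F x).1 (F x).2 ≠ 0 := fun x =>
      hiso _ (hcb _) _ (hCmem x) _ (heg _)
    have hFb : ∀ x, (F x).2 ∈ Metric.ball b ρ' := fun x => hCmem x
    have hFg : ∀ x u, (P s).evalEval (F x).1 u = (F x).2 →
        (Polynomial.derivative (P s)).evalEval (F x).1 u ≠ 0 :=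
      fun x u hu => (he _ _ (hFe x) u hu).1
    have hF0 : ∀ t : I, F (0, t) = (z t, c t) := by
      intro t
      have h1 : (1 - ((0 : I) : ℝ)) • c t + ((0 : I) : ℝ) • b' = c t := by simp
      change (ψ (c t, (1 - ((0 : I) : ℝ)) • c t + ((0 : I) : ℝ) • b', z t),
        (1 - ((0 : I) : ℝ)) • c t + ((0 : I) : ℝ) • b') = _
      rw [h1, hid _ (hcb t)]
    have hFe0 : ∀ τ : I, ∀ t : I, c t = b' → F (τ, t) = (z t, b') := by
      intro τ t ht
      change (ψ (c t, (1 - (τ : ℝ)) • c t + (τ : ℝ) • b', z t),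
        (1 - (τ : ℝ)) • c t + (τ : ℝ) • b') = _
      rw [ht, l1_const, hid _ hb'b]
    have hF1 : ∀ t : I, (F (1, t)).2 = b' := by
      intro t
      change (1 - ((1 : I) : ℝ)) • c t + ((1 : I) : ℝ) • b' = b'
      simp
    obtain ⟨U, hU0, hU⟩ := lift_square (P s) (hm s) F hFg (w 0) (by rw [hF0]; exact hpw 0)
    -- the sides
    have hside0 : ∀ t, U (0, t) = w t := by
      have h := lift_unique (P s) (hm s) (F.comp ⟨fun t : I => ((0 : I), t), by fun_prop⟩)
        (fun x u hu => hFg _ u hu) (U.comp ⟨fun t : I => ((0 : I), t), by fun_prop⟩) ⟨w, hwc⟩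
        (fun t => hU (0, t)) (fun t => by
          change (P s).evalEval (F (0, t)).1 (w t) = (F (0, t)).2
          rw [hF0]; exact hpw t) 0 hU0
      exact fun t => congrArg (fun g : C(I, ℂ) => g t) h
    have hsideL : ∀ τ, U (τ, 0) = w 0 := by
      have h := lift_unique (P s) (hm s) (F.comp ⟨fun t : I => (t, (0 : I)), by fun_prop⟩)
        (fun x u hu => hFg _ u hu) (U.comp ⟨fun t : I => (t, (0 : I)), by fun_prop⟩)
        (ContinuousMap.const _ (w 0)) (fun t => hU (t, 0)) (fun t => by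
          change (P s).evalEval (F (t, 0)).1 (w 0) = (F (t, 0)).2
          rw [hFe0 t 0 hc0, ← hc0]; exact hpw 0) 0 hU0
      exact fun t => congrArg (fun g : C(I, ℂ) => g t) h
    have hsideR : ∀ τ, U (τ, 1) = w 1 := by
      have h := lift_unique (P s) (hm s) (F.comp ⟨fun t : I => (t, (1 : I)), by fun_prop⟩)
        (fun x u hu => hFg _ u hu) (U.comp ⟨fun t : I => (t, (1 : I)), by fun_prop⟩)
        (ContinuousMap.const _ (w 1)) (fun t => hU (t, 1)) (fun t => by
          change (P s).evalEval (F (t, 1)).1 (w 1) = (F (t, 1)).2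
          rw [hFe0 t 1 hc1, ← hc1]; exact hpw 1) 0 (hside0 1)
      exact fun t => congrArg (fun g : C(I, ℂ) => g t) h
    have hmem : ∀ x : I × I, ((F x).1, U x) ∈ CX P := fun x =>
      l1_mem he (hFe x) (h0 _ (hFb x)) (hU x)
    let H : C(I × I, CX P) := ⟨fun x => ⟨((F x).1, U x), hmem x⟩, by fun_prop⟩
    have hH0 : ∀ t, H (0, t) = p t := by
      intro t
      apply Subtype.ext
      change ((F (0, t)).1, U (0, t)) = (p t).1
      rw [hF0, hside0]
    have hHL : ∀ τ, H (τ, 0) = x := by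
      intro τ
      apply Subtype.ext
      change ((F (τ, 0)).1, U (τ, 0)) = x.1
      rw [hFe0 τ 0 hc0, hsideL]
      change ((p 0).1.1, (p 0).1.2) = x.1
      rw [p.source]
    have hHR : ∀ τ, H (τ, 1) = y := by
      intro τ
      apply Subtype.ext
      change ((F (τ, 1)).1, U (τ, 1)) = y.1
      rw [hFe0 τ 1 hc1, hsideR]
      change ((p 1).1.1, (p 1).1.2) = y.1
      rw [p.target]
    let q : Path x y := ⟨⟨fun t => H (1, t), by fun_prop⟩, hHL 1, hHR 1⟩
    refine ⟨q, fun t => ?_, ⟨⟨⟨H, hH0, fun t => rfl⟩, fun τ t ht => ?_⟩⟩⟩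
    · have h1 : hval P s (q t).1 = b' := by
        change (P s).evalEval (F (1, t)).1 (U (1, t)) = b'
        rw [hU, hF1]
      refine ⟨h1, ?_⟩
      unfold EG
      rw [h1]
      have h2 := hFe (1, t)
      rw [hF1] at h2
      exact h2
    · rcases ht with rfl | ht
      · change H (τ, 0) = p 0
        rw [hHL, p.source]
      · rw [Set.mem_singleton_iff] at ht
        subst ht
        change H (τ, 1) = p 1
        rw [hHR, p.target]
  · intro x hx hxe c hcb
    set b' := hval P s x.1 with hb'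
    have hCmem : ∀ τ : I, (1 - (τ : ℝ)) • b' + (τ : ℝ) • c ∈ Metric.ball b ρ' :=
      fun τ => l1_seg hx hcb _
    have hCc : Continuous fun x : I × I => (1 - (x.1 : ℝ)) • b' + (x.1 : ℝ) • c := by
      fun_prop
    have hZc : Continuous fun y : I × I =>
        ψ (b', (1 - (y.1 : ℝ)) • b' + (y.1 : ℝ) • c, x.1.1) := by
      refine hψc.comp_continuous (f := fun y : I × I =>
        (b', (1 - (y.1 : ℝ)) • b' + (y.1 : ℝ) • c, x.1.1)) ?_ fun y => ?_
      · exact continuous_const.prodMk (hCc.prodMk continuous_const)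
      · exact ⟨hsub₁ hx, hsub₁ (hCmem y.1), trivial⟩
    let F : C(I × I, ℂ × ℂ) := ⟨fun y => (ψ (b', (1 - (y.1 : ℝ)) • b' + (y.1 : ℝ) • c, x.1.1),
      (1 - (y.1 : ℝ)) • b' + (y.1 : ℝ) • c), hZc.prodMk hCc⟩
    have hFe : ∀ y, e.evalEval (F y).1 (F y).2 ≠ 0 := fun y =>
      hiso _ hx _ (hCmem y.1) _ hxe
    have hFb : ∀ y, (F y).2 ∈ Metric.ball b ρ' := fun y => hCmem y.1
    have hFg : ∀ y u, (P s).evalEval (F y).1 u = (F y).2 →
        (Polynomial.derivative (P s)).evalEval (F y).1 u ≠ 0 :=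
      fun y u hu => (he _ _ (hFe y) u hu).1
    have hF0 : F (0, 0) = (x.1.1, b') := by
      have h1 : (1 - ((0 : I) : ℝ)) • b' + ((0 : I) : ℝ) • c = b' := by simp
      change (ψ (b', (1 - ((0 : I) : ℝ)) • b' + ((0 : I) : ℝ) • c, x.1.1),
        (1 - ((0 : I) : ℝ)) • b' + ((0 : I) : ℝ) • c) = _
      rw [h1, hid _ hx]
    have hF1 : (F (1, 0)).2 = c := by
      change (1 - ((1 : I) : ℝ)) • b' + ((1 : I) : ℝ) • c = c
      simp
    obtain ⟨U, hU0, hU⟩ := lift_square (P s) (hm s) F hFg x.1.2 (by rw [hF0]; rfl)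
    have hmem : ∀ y : I × I, ((F y).1, U y) ∈ CX P := fun y =>
      l1_mem he (hFe y) (h0 _ (hFb y)) (hU y)
    let H : C(I × I, CX P) := ⟨fun y => ⟨((F y).1, U y), hmem y⟩, by fun_prop⟩
    have hH0 : H (0, 0) = x := by
      apply Subtype.ext
      change ((F (0, 0)).1, U (0, 0)) = x.1
      rw [hF0, hU0]
    refine ⟨H (1, 0), ⟨⟨fun t => H (t, 0), by fun_prop⟩, hH0, rfl⟩, ?_, fun t => ?_⟩
    · change (P s).evalEval (F (1, 0)).1 (U (1, 0)) = c
      rw [hU, hF1]
    · have h1 : hval P s (H (t, 0)).1 = (F (t, 0)).2 := hU (t, 0)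
      refine ⟨?_, ?_⟩
      · change hval P s (H (t, 0)).1 ∈ Metric.ball b ρ'
        rw [h1]
        exact hFb _
      · change e.evalEval (F (t, 0)).1 (hval P s (H (t, 0)).1) ≠ 0
        rw [h1]
        exact hFe _

end H13J
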