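import Pool.Agent.Lib.H13J.D
import Pool.Agent.Lib.H13J.L1

set_option autoImplicit false

open scoped unitInterval Polynomial

namespace H13J

open H13K

variable {ι : Type}

/-- Existence of branch data: `exists_bad`, `root_functions` (Bif enlarged by 0), `push_of_roots`. -/
theorem exists_branch [Fintype ι] (P : ι → ℂ[X][X]) (hm : ∀ i, (P i).Monic)
    (hirr : ∀ i, Irreducible (P i)) (s : ι) : ∃ (e : ℂ[X][X]) (Bif : Set ℂ), Branch P s e Bif := by
  obtain ⟨e, he, hgood⟩ := exists_bad P hm hirr s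
  obtain ⟨Bif, M, hfin, hroot⟩ := root_functions e he
  refine ⟨e, insert 0 Bif, ⟨he, hfin.insert 0, Set.mem_insert _ _, hgood, ?_, ?_⟩⟩
  · intro c hc
    have hc' : c ∉ Bif := fun h => hc (Set.mem_insert_of_mem _ h)
    obtain ⟨ρ, hρ, f, _, _, hf⟩ := hroot c hc'
    have hcb : c ∈ Metric.ball c ρ := Metric.mem_ball_self hρ
    have heq : {z | e.evalEval z c = 0} = Set.range (fun a => f a c) := by
      ext z
      rw [Set.mem_setOf_eq, hf c hcb z, Set.mem_range]
      constructor
      · rintro ⟨a, ha⟩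
        exact ⟨a, ha.symm⟩
      · rintro ⟨a, ha⟩
        exact ⟨a, ha.symm⟩
    rw [heq]
    exact Set.finite_range _
  · intro b hb
    have hb' : b ∉ Bif := fun h => hb (Set.mem_insert_of_mem _ h)
    have hb0 : b ≠ 0 := by
      intro h
      apply hb
      rw [h]
      exact Set.mem_insert _ _
    obtain ⟨ρ, hρ, f, hcont, hinj, hf⟩ := hroot b hb'
    exact push_of_roots P hm s e hgood b hb0 ρ hρ M f hcont hinj hf

end H13J
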