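import Pool.Agent.Lib.H13J.D
import Pool.Agent.Lib.H13J.C1a
import Pool.Agent.Lib.H13J.C1b
import Pool.Agent.Lib.H13J.L2

set_option autoImplicit false

open scoped unitInterval Polynomial

namespace H13J

open H13K

variable {ι : Type}

private theorem c2_step (p e : ℂ[X][X]) (b c c' : ℂ) (ρ : ℝ)
    (hP : Push (fun _ : Unit => p) () e b ρ) (hc : c ∈ Metric.ball b ρ) (hc' : c' ∈ Metric.ball b ρ)
    (hc0 : c ≠ 0) (hc0' : c' ≠ 0)
    (hn : {x : ℂ × ℂ | p.evalEval x.1 x.2 = c' ∧ e.evalEval x.1 c' ≠ 0}.Nonempty)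
    (h : IsPathConnected {x : ℂ × ℂ | p.evalEval x.1 x.2 = c ∧ e.evalEval x.1 c ≠ 0}) :
    IsPathConnected {x : ℂ × ℂ | p.evalEval x.1 x.2 = c' ∧ e.evalEval x.1 c' ≠ 0} := by
  rw [isPathConnected_iff] at h ⊢
  refine ⟨hn, ?_⟩
  have key : ∀ x ∈ {x : ℂ × ℂ | p.evalEval x.1 x.2 = c' ∧ e.evalEval x.1 c' ≠ 0},
      ∃ (X : CX fun _ : Unit => p) (Y : CX fun _ : Unit => p) (r : Path X Y), X.1 = x ∧
        (Y.1 ∈ {x : ℂ × ℂ | p.evalEval x.1 x.2 = c ∧ e.evalEval x.1 c ≠ 0}) ∧
        ∀ t, hval (fun _ : Unit => p) () (r t).1 ∈ Metric.ball b ρ ∧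
          EG (fun _ : Unit => p) () e (r t).1 := by
    intro x hx
    obtain ⟨hx1, hx2⟩ := hx
    have hX : x ∈ CX fun _ : Unit => p := by
      intro i
      show p.evalEval x.1 x.2 ≠ 0
      rw [hx1]
      exact hc0'
    have hv : hval (fun _ : Unit => p) () x = c' := hx1
    obtain ⟨Y, r, hY, hr⟩ := hP.move ⟨x, hX⟩ (by
      show hval (fun _ : Unit => p) () x ∈ _
      rw [hv]
      exact hc') (by
      show e.evalEval x.1 (hval (fun _ : Unit => p) () x) ≠ 0
      rw [hv]
      exact hx2) c hc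
    refine ⟨⟨x, hX⟩, Y, r, rfl, ?_, hr⟩
    have h1 := (hr 1).2
    rw [r.target] at h1
    have h2 : e.evalEval Y.1.1 (hval (fun _ : Unit => p) () Y.1) ≠ 0 := h1
    rw [hY] at h2
    exact ⟨hY, h2⟩
  intro x hx y hy
  obtain ⟨X, X', r1, rfl, hX', hr1⟩ := key x hx
  obtain ⟨Y, Y', r2, rfl, hY', hr2⟩ := key y hy
  obtain ⟨γ, hγ⟩ := h.2 X'.1 hX' Y'.1 hY'
  have hγ' : ∀ t, γ t ∈ CX fun _ : Unit => p := by
    intro t i
    show p.evalEval (γ t).1 (γ t).2 ≠ 0
    rw [(hγ t).1]
    exact hc0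
  let g : Path X' Y' :=
    { toFun := fun t => ⟨γ t, hγ' t⟩
      continuous_toFun := by
        apply Continuous.subtype_mk
        exact γ.continuous
      source' := by
        apply Subtype.ext
        exact γ.source
      target' := by
        apply Subtype.ext
        exact γ.target }
  have hg : ∀ t, hval (fun _ : Unit => p) () (g t).1 ∈ Metric.ball b ρ ∧
      EG (fun _ : Unit => p) () e (g t).1 := by
    intro t
    have h1 : hval (fun _ : Unit => p) () (g t).1 = c := (hγ t).1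
    refine ⟨?_, ?_⟩
    · rw [h1]
      exact hc
    · show e.evalEval (g t).1.1 (hval (fun _ : Unit => p) () (g t).1) ≠ 0
      rw [h1]
      exact (hγ t).2
  have hall : ∀ t, hval (fun _ : Unit => p) () (((r1.trans g).trans r2.symm) t).1 ∈
        Metric.ball b ρ ∧ EG (fun _ : Unit => p) () e (((r1.trans g).trans r2.symm) t).1 := by
    intro t
    have hmem : ((r1.trans g).trans r2.symm) t ∈ Set.range ((r1.trans g).trans r2.symm) :=
      Set.mem_range_self t
    rw [Path.trans_range, Path.trans_range] at hmem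
    rcases hmem with (⟨t', ht'⟩ | ⟨t', ht'⟩) | ⟨t', ht'⟩
    · rw [← ht']
      exact hr1 t'
    · rw [← ht']
      exact hg t'
    · rw [← ht']
      exact hr2 (σ t')
  have hxy : hval (fun _ : Unit => p) () X.1 = hval (fun _ : Unit => p) () Y.1 :=
    hx.1.trans hy.1.symm
  obtain ⟨q, hq, -⟩ := hP.push X Y _ hall hxy
  have hXv : hval (fun _ : Unit => p) () X.1 = c' := hx.1
  refine ⟨{ toFun := fun t => (q t).1
            continuous_toFun := continuous_subtype_val.comp q.continuous
            source' := by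
              show (q 0).1 = X.1
              rw [q.source]
            target' := by
              show (q 1).1 = Y.1
              rw [q.target] }, fun t => ?_⟩
  have h1 := (hq t).1
  have h2 : e.evalEval (q t).1.1 (hval (fun _ : Unit => p) () (q t).1) ≠ 0 := (hq t).2
  rw [h1, hXv] at h2
  exact ⟨h1.trans hXv, h2⟩

/-- All fibres off Bif are path connected off the branch points.
Proof: single polynomial family P = fun _ : Unit => p (CX P = {p ≠ 0}).  The set of c ∉ Bif with
path connected good fibre is open and closed in ℂ minus Bif: for c, c' in one disc of `Branch.push`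
move two points of the fibre c' to the fibre c (`Push.move`), join them there, and push the resulting path
(over the disc, off the branch curve) into the fibre c' (`Push.push`).  ℂ minus the finite set Bif is
connected, and small c ≠ 0 off Bif have connected fibre (`conn_near`). -/
theorem conn_fibre (p : ℂ[X][X]) (hp : p.Monic) (hpi : Irreducible p) (e : ℂ[X][X]) (Bif : Set ℂ)
    (hB : Branch (fun _ : Unit => p) () e Bif) (c : ℂ) (hc : c ∉ Bif) :
    IsPathConnected {x : ℂ × ℂ | p.evalEval x.1 x.2 = c ∧ e.evalEval x.1 c ≠ 0} := by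
  have hdeg : p.natDegree ≠ 0 := by
    intro h0
    have h1 := Polynomial.eq_one_of_monic_natDegree_zero hp h0
    exact hpi.not_isUnit (h1 ▸ isUnit_one)
  have hne0 : ∀ b : ℂ, b ∉ Bif → b ≠ 0 := by
    rintro b hb rfl
    exact hb hB.zero
  have hne : ∀ b : ℂ, b ∉ Bif →
      {x : ℂ × ℂ | p.evalEval x.1 x.2 = b ∧ e.evalEval x.1 b ≠ 0}.Nonempty := by
    intro b hb
    obtain ⟨z, hz⟩ := (hB.finz b hb).infinite_compl.nonempty
    have hz' : e.evalEval z b ≠ 0 := hz
    have h1 : (p.map (Polynomial.evalRingHom z) - Polynomial.C b).degree ≠ 0 := by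
      have h2 : (p.map (Polynomial.evalRingHom z)).natDegree = p.natDegree := hp.natDegree_map _
      have h3 : (p.map (Polynomial.evalRingHom z) - Polynomial.C b).natDegree = p.natDegree := by
        rw [Polynomial.natDegree_sub_C, h2]
      intro h4
      have h5 := Polynomial.natDegree_eq_of_degree_eq_some h4
      rw [h3] at h5
      exact hdeg h5
    obtain ⟨w, hw⟩ := Complex.exists_root (f := p.map (Polynomial.evalRingHom z) - Polynomial.C b)
      (by
        have h2 : (p.map (Polynomial.evalRingHom z)).natDegree = p.natDegree := hp.natDegree_map _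
        have h3 : (p.map (Polynomial.evalRingHom z) - Polynomial.C b).natDegree = p.natDegree := by
          rw [Polynomial.natDegree_sub_C, h2]
        rw [← Polynomial.natDegree_pos_iff_degree_pos, h3]
        exact Nat.pos_of_ne_zero hdeg)
    refine ⟨(z, w), ?_, hz'⟩
    have h2 : (p.map (Polynomial.evalRingHom z) - Polynomial.C b).eval w = 0 := hw
    rw [Polynomial.eval_sub, Polynomial.eval_C, sub_eq_zero] at h2
    show p.evalEval z w = b
    rw [← h2, Polynomial.evalEval, Polynomial.eval_map, Polynomial.eval₂_evalRingHom]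
  have hopen : IsOpen (Bifᶜ : Set ℂ) := hB.fin.isClosed.isOpen_compl
  have hconn : IsPreconnected (Bifᶜ : Set ℂ) := by
    have h1 : IsConnected (Bifᶜ : Set ℂ) :=
      hB.fin.countable.isConnected_compl_of_one_lt_rank (by
        rw [Complex.rank_real_complex]
        exact Cardinal.one_lt_two)
    exact h1.isPreconnected
  let PC : ℂ → Prop := fun b =>
    IsPathConnected {x : ℂ × ℂ | p.evalEval x.1 x.2 = b ∧ e.evalEval x.1 b ≠ 0}
  have hA : IsOpen {b : ℂ | b ∉ Bif ∧ PC b} := by
    rw [Metric.isOpen_iff]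
    intro b hb
    obtain ⟨ρ, hρ⟩ := hB.push b hb.1
    obtain ⟨ρ', hρ', hsub⟩ := Metric.isOpen_iff.1 hopen b hb.1
    refine ⟨min ρ ρ', lt_min hρ.pos hρ', fun b' hb' => ?_⟩
    have h1 : b' ∈ Metric.ball b ρ := Metric.ball_subset_ball (min_le_left _ _) hb'
    have h2 : b' ∉ Bif := hsub (Metric.ball_subset_ball (min_le_right _ _) hb')
    exact ⟨h2, c2_step p e b b b' ρ hρ (Metric.mem_ball_self hρ.pos) h1 (hne0 b hb.1)
      (hne0 b' h2) (hne b' h2) hb.2⟩
  have hA' : IsOpen {b : ℂ | b ∉ Bif ∧ ¬ PC b} := by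
    rw [Metric.isOpen_iff]
    intro b hb
    obtain ⟨ρ, hρ⟩ := hB.push b hb.1
    obtain ⟨ρ', hρ', hsub⟩ := Metric.isOpen_iff.1 hopen b hb.1
    refine ⟨min ρ ρ', lt_min hρ.pos hρ', fun b' hb' => ?_⟩
    have h1 : b' ∈ Metric.ball b ρ := Metric.ball_subset_ball (min_le_left _ _) hb'
    have h2 : b' ∉ Bif := hsub (Metric.ball_subset_ball (min_le_right _ _) hb')
    refine ⟨h2, fun h3 => hb.2 ?_⟩
    exact c2_step p e b b' b ρ hρ h1 (Metric.mem_ball_self hρ.pos) (hne0 b' h2)
      (hne0 b hb.1) (hne b hb.1) h3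
  obtain ⟨ε, hε, hnear⟩ := conn_near p hp hpi e hB.ne (fun z c h u hu => (hB.good z c h u hu).1)
  have hex : ∃ b : ℂ, b ∉ Bif ∧ PC b := by
    have h1 : (Metric.ball (0 : ℂ) ε).Infinite := by
      apply infinite_of_mem_nhds (0 : ℂ)
      exact Metric.ball_mem_nhds _ hε
    obtain ⟨b, hb1, hb2⟩ := h1.exists_notMem_finite hB.fin
    refine ⟨b, hb2, hnear b (hne0 b hb2) ?_ (hB.finz b hb2)⟩
    simpa using hb1
  obtain ⟨b₀, hb₀, hb₀'⟩ := hex
  have hsub : (Bifᶜ : Set ℂ) ⊆ {b : ℂ | b ∉ Bif ∧ PC b} := by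
    apply hconn.subset_left_of_subset_union hA hA'
    · rw [Set.disjoint_left]
      intro b h1 h2
      exact h2.2 h1.2
    · intro b hb
      by_cases h : PC b
      · exact Or.inl ⟨hb, h⟩
      · exact Or.inr ⟨hb, h⟩
    · exact ⟨b₀, hb₀, hb₀, hb₀'⟩
  exact (hsub hc).2

end H13J
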