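import Pool.Agent.Lib.H13J.D

set_option autoImplicit false

open scoped unitInterval Polynomial

namespace H13J

open H13K

variable {ι : Type}

private theorem t1a_line (T : ℂ[X][X]) (x y : ℂ × ℂ) {t₀ : ℂ}
    (h : T.evalEval (x.1 + t₀ * (y.1 - x.1)) (x.2 + t₀ * (y.2 - x.2)) ≠ 0) :
    {t : ℂ | T.evalEval (x.1 + t * (y.1 - x.1)) (x.2 + t * (y.2 - x.2)) = 0}.Finite := by
  set g : ℂ[X] := ∑ k ∈ Finset.range (T.natDegree + 1),
    (T.coeff k).comp (Polynomial.C x.1 + Polynomial.X * Polynomial.C (y.1 - x.1)) *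
      (Polynomial.C x.2 + Polynomial.X * Polynomial.C (y.2 - x.2)) ^ k with hg
  have hev : ∀ t : ℂ, g.eval t = T.evalEval (x.1 + t * (y.1 - x.1)) (x.2 + t * (y.2 - x.2)) := by
    intro t
    rw [evalEval_eq_sum, hg, Polynomial.eval_finsetSum]
    refine Finset.sum_congr rfl fun k _ => ?_
    simp only [Polynomial.eval_mul, Polynomial.eval_comp, Polynomial.eval_add, Polynomial.eval_C,
      Polynomial.eval_X, Polynomial.eval_pow]
  have hg0 : g ≠ 0 := by
    intro h0
    apply h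
    rw [← hev, h0, Polynomial.eval_zero]
  refine (Polynomial.finite_setOfPred_isRoot hg0).subset fun t ht => ?_
  change g.eval t = 0
  rw [hev]
  exact ht

private theorem t1a_exists (T : ℂ[X][X]) (hT : T ≠ 0) : ∃ z w : ℂ, T.evalEval z w ≠ 0 := by
  obtain ⟨k, hk⟩ : ∃ k, T.coeff k ≠ 0 := by
    by_contra hcon
    push Not at hcon
    exact hT (Polynomial.ext fun k => by rw [hcon k, Polynomial.coeff_zero])
  obtain ⟨z, hz⟩ : ∃ z : ℂ, (T.coeff k).eval z ≠ 0 := by
    by_contra hcon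
    push Not at hcon
    exact hk (Polynomial.funext fun z => by rw [hcon z, Polynomial.eval_zero])
  set g : ℂ[X] := T.map (Polynomial.evalRingHom z) with hg
  have hg0 : g ≠ 0 := by
    intro h0
    apply hz
    have h1 : g.coeff k = (T.coeff k).eval z := by
      rw [hg, Polynomial.coeff_map]
      rfl
    rw [← h1, h0, Polynomial.coeff_zero]
  obtain ⟨w, hw⟩ : ∃ w : ℂ, g.eval w ≠ 0 := by
    by_contra hcon
    push Not at hcon
    exact hg0 (Polynomial.funext fun z => by rw [hcon z, Polynomial.eval_zero])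
  refine ⟨z, w, ?_⟩
  intro h0
  apply hw
  rw [hg, Polynomial.map_evalRingHom_eval]
  exact h0

/-- Convex open sets minus a thin set are path connected.
Proof: the complex line through x and y: w ↦ T (x + w • (y - x)) is a polynomial in one variable w (write
T as the sum of T_jk z^j w^k), nonzero at w = 0, so it has finitely many zeros; the set of all w with
x + w • (y - x) ∈ V is convex, open and contains 0 and 1; minus a finite set it is path connected
(compare K11.lean, K12.lean: k12_ball, or `NX_convex_pc` in Lib/H13M). -/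
theorem thin_pc (T : ℂ[X][X]) (V : Set (ℂ × ℂ)) (hV : IsOpen V) (hc : Convex ℝ V)
    (x y : ℂ × ℂ) (hx : x ∈ V) (hy : y ∈ V) (hTx : T.evalEval x.1 x.2 ≠ 0)
    (hTy : T.evalEval y.1 y.2 ≠ 0) :
    ∃ q : Path x y, ∀ t, q t ∈ V ∧ T.evalEval (q t).1 (q t).2 ≠ 0 := by
  have hfin := t1a_line T x y (t₀ := 0) (by simpa using hTx)
  set Z := {t : ℂ | T.evalEval (x.1 + t * (y.1 - x.1)) (x.2 + t * (y.2 - x.2)) = 0} with hZ
  have hT0 : (0 : ℂ) ∉ Z := by
    intro h
    apply hTx
    simpa [hZ] using h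
  have hT1 : (1 : ℂ) ∉ Z := by
    intro h
    apply hTy
    simpa [hZ] using h
  set R : Set ℝ := {r | ∃ t ∈ Set.Icc (0 : ℝ) 1, (⟨t, r * (t * (1 - t))⟩ : ℂ) ∈ Z} with hR
  have hRf : R.Finite := by
    refine (hfin.image fun τ : ℂ => τ.im / (τ.re * (1 - τ.re))).subset ?_
    rintro r ⟨t, ht, htT⟩
    refine ⟨_, htT, ?_⟩
    have h0 : t ≠ 0 := by
      rintro rfl
      apply hT0
      have : (⟨0, r * (0 * (1 - 0))⟩ : ℂ) = 0 := by
        apply Complex.ext <;> simp
      rwa [this] at htT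
    have h1 : 1 - t ≠ 0 := by
      intro h
      have h2 : t = 1 := by linarith
      subst h2
      apply hT1
      have : (⟨1, r * (1 * (1 - 1))⟩ : ℂ) = 1 := by
        apply Complex.ext <;> simp
      rwa [this] at htT
    change r * (t * (1 - t)) / (t * (1 - t)) = r
    exact mul_div_cancel_right₀ _ (mul_ne_zero h0 h1)
  have hseg : segment ℝ x y ⊆ V := hc.segment_subset hx hy
  have hcomp : IsCompact (segment ℝ x y) := by
    rw [segment_eq_image_lineMap]
    exact isCompact_Icc.image AffineMap.lineMap_continuous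
  obtain ⟨ε, hε, hεU⟩ := hcomp.exists_thickening_subset_open hV hseg
  have hδ : 0 < ε / (‖y - x‖ + 1) := div_pos hε (by positivity)
  obtain ⟨r, hr, hrR⟩ := ((Set.Ioo_infinite hδ).sdiff hRf).nonempty
  set c : ℝ → ℂ := fun t => (⟨t, r * (t * (1 - t))⟩ : ℂ) with hcdef
  have hcc : Continuous c := by
    have h2 : c = fun t : ℝ => (t : ℂ) + (((r * (t * (1 - t)) : ℝ)) : ℂ) * Complex.I := by
      funext t
      apply Complex.ext <;> simp [c]
    rw [h2]
    fun_prop
  have hc0 : c 0 = 0 := by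
    apply Complex.ext <;> simp [c]
  have hc1 : c 1 = 1 := by
    apply Complex.ext <;> simp [c]
  refine ⟨⟨⟨fun t => (x.1 + c t * (y.1 - x.1), x.2 + c t * (y.2 - x.2)), ?_⟩, ?_, ?_⟩, ?_⟩
  · have hct : Continuous fun t : I => c (t : ℝ) := hcc.comp continuous_subtype_val
    exact (continuous_const.add (hct.mul continuous_const)).prodMk
      (continuous_const.add (hct.mul continuous_const))
  · show (x.1 + c ((0 : I) : ℝ) * (y.1 - x.1), x.2 + c ((0 : I) : ℝ) * (y.2 - x.2)) = x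
    rw [Set.Icc.coe_zero, hc0]
    simp
  · show (x.1 + c ((1 : I) : ℝ) * (y.1 - x.1), x.2 + c ((1 : I) : ℝ) * (y.2 - x.2)) = y
    rw [Set.Icc.coe_one, hc1]
    simp
  · intro t
    have ht : (t : ℝ) ∈ Set.Icc (0 : ℝ) 1 := t.2
    refine ⟨?_, ?_⟩
    · apply hεU
      rw [Metric.mem_thickening_iff]
      refine ⟨x + (t : ℝ) • (y - x), ?_, ?_⟩
      · rw [segment_eq_image']
        exact ⟨t, ht, rfl⟩
      · show dist (x.1 + c t * (y.1 - x.1), x.2 + c t * (y.2 - x.2)) (x + (t : ℝ) • (y - x)) < ε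
        have hd : ((x.1 + c t * (y.1 - x.1), x.2 + c t * (y.2 - x.2)) : ℂ × ℂ) - (x + (t : ℝ) • (y - x)) =
            (c t - (t : ℝ)) • (y - x) := by
          apply Prod.ext
          · simp
            ring
          · simp
            ring
        rw [dist_eq_norm, hd, norm_smul]
        have hn : ‖c t - ((t : ℝ) : ℂ)‖ ≤ r := by
          have h3 : c t - ((t : ℝ) : ℂ) = ((r * (t * (1 - t)) : ℝ) : ℂ) * Complex.I := by
            apply Complex.ext <;> simp [c]
          rw [h3, norm_mul, Complex.norm_I, mul_one, Complex.norm_real, Real.norm_eq_abs,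
            abs_of_nonneg (mul_nonneg hr.1.le (mul_nonneg ht.1 (by linarith [ht.2])))]
          have h4 : (t : ℝ) * (1 - t) ≤ 1 := by nlinarith [ht.1, ht.2]
          exact mul_le_of_le_one_right hr.1.le h4
        have h5 : r * (‖y - x‖ + 1) < ε := (lt_div_iff₀ (by positivity)).1 hr.2
        have h6 : ‖c t - ((t : ℝ) : ℂ)‖ * ‖y - x‖ ≤ r * ‖y - x‖ :=
          mul_le_mul_of_nonneg_right hn (norm_nonneg _)
        have h7 : 0 < r := hr.1
        nlinarith
    · intro h0
      exact hrR ⟨t, ht, h0⟩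

/-- Every nonempty open set contains a point off a thin set. -/
theorem thin_dense (T : ℂ[X][X]) (hT : T ≠ 0) (V : Set (ℂ × ℂ)) (hV : IsOpen V)
    (x : ℂ × ℂ) (hx : x ∈ V) : ∃ y ∈ V, T.evalEval y.1 y.2 ≠ 0 := by
  obtain ⟨z, w, hzw⟩ := t1a_exists T hT
  have hfin := t1a_line T x (z, w) (t₀ := 1) (by
    have h1 : x.1 + 1 * ((z, w).1 - x.1) = z := by
      show x.1 + 1 * (z - x.1) = z
      ring
    have h2 : x.2 + 1 * ((z, w).2 - x.2) = w := by
      show x.2 + 1 * (w - x.2) = w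
      ring
    rw [h1, h2]
    exact hzw)
  have hcont : Continuous (fun r : ℝ => (x.1 + (r : ℂ) * (z - x.1), x.2 + (r : ℂ) * (w - x.2))) := by
    fun_prop
  have hopen : IsOpen {r : ℝ | ((x.1 + (r : ℂ) * (z - x.1), x.2 + (r : ℂ) * (w - x.2)) : ℂ × ℂ) ∈ V} :=
    hV.preimage hcont
  have h0 : (0 : ℝ) ∈ {r : ℝ | ((x.1 + (r : ℂ) * (z - x.1), x.2 + (r : ℂ) * (w - x.2)) : ℂ × ℂ) ∈ V} := by
    simpa using hx
  have hinf := infinite_of_mem_nhds (0 : ℝ) (hopen.mem_nhds h0)
  have hfin' : {r : ℝ | T.evalEval (x.1 + (r : ℂ) * (z - x.1)) (x.2 + (r : ℂ) * (w - x.2)) = 0}.Finite :=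
    hfin.preimage (f := fun r : ℝ => (r : ℂ)) Complex.ofReal_injective.injOn
  obtain ⟨r, hr, hr'⟩ := (hinf.sdiff hfin').nonempty
  exact ⟨_, hr, hr'⟩

end H13J
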