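import Pool.Agent.Lib.H13J.D
import Pool.Agent.Lib.H13J.T1a

set_option autoImplicit false

open scoped unitInterval Polynomial

namespace H13J

open H13K

variable {ι : Type}

/-- Points can be moved off thin sets inside an open set. -/
theorem near_good [Finite ι] (P : ι → ℂ[X][X]) (hm : ∀ i, (P i).Monic) (T : ℂ[X][X]) (hT : T ≠ 0)
    (O : Set (ℂ × ℂ)) (hO : IsOpen O) (x : CX P) (hx : x.1 ∈ O) :
    ∃ (y : CX P) (p : Path x y), T.evalEval y.1.1 y.1.2 ≠ 0 ∧ ∀ t, (p t).1 ∈ O := by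
  have hCX : IsOpen (CX P) := by
    have h1 : CX P = ⋂ i, {q : ℂ × ℂ | (P i).evalEval q.1 q.2 ≠ 0} := by
      ext q
      simp [CX]
    rw [h1]
    exact isOpen_iInter_of_finite fun i => isOpen_ne_fun (continuous_evalEval (P i)) continuous_const
  obtain ⟨δ, hδ, hball⟩ := Metric.isOpen_iff.1 (hO.inter hCX) x.1 ⟨hx, x.2⟩
  obtain ⟨y, hy, hTy⟩ := thin_dense T hT (Metric.ball x.1 δ) Metric.isOpen_ball x.1 (Metric.mem_ball_self hδ)
  have hseg : ∀ t : I, AffineMap.lineMap x.1 y (t : ℝ) ∈ Metric.ball x.1 δ := by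
    intro t
    have h2 : AffineMap.lineMap x.1 y (t : ℝ) ∈ segment ℝ x.1 y := by
      rw [segment_eq_image_lineMap]
      exact ⟨t, t.2, rfl⟩
    exact (convex_ball x.1 δ).segment_subset (Metric.mem_ball_self hδ) hy h2
  refine ⟨⟨y, (hball hy).2⟩, ⟨⟨fun t => ⟨AffineMap.lineMap x.1 y (t : ℝ), (hball (hseg t)).2⟩, ?_⟩, ?_, ?_⟩, hTy,
    fun t => (hball (hseg t)).1⟩
  · apply Continuous.subtype_mk
    exact AffineMap.lineMap_continuous.comp continuous_subtype_val
  · apply Subtype.ext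
    simp
  · apply Subtype.ext
    simp

end H13J
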