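import Pool.Agent.Lib.H13J.D
import Pool.Agent.Lib.H13J.C2
import Pool.Agent.Lib.H13J.T1a
import Pool.Agent.Lib.H13J.T1b
import Pool.Agent.Lib.H13J.T1c

set_option autoImplicit false

open scoped unitInterval Polynomial Topology

namespace H13J

open H13K

variable {ι : Type}

private theorem c3_hasDeriv (p : ℂ[X][X]) (z w : ℂ) :
    HasStrictDerivAt (fun w => p.evalEval z w) ((Polynomial.derivative p).evalEval z w) w := by
  have h : ∀ q : ℂ[X][X], ∀ w, q.evalEval z w = (q.map (Polynomial.evalRingHom z)).eval w := by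
    intro q w
    rw [Polynomial.map_evalRingHom_eval]
  have h1 : (fun w => p.evalEval z w) = fun w => (p.map (Polynomial.evalRingHom z)).eval w := by
    funext w
    exact h p w
  rw [h1, h, ← Polynomial.derivative_map]
  exact Polynomial.hasStrictDerivAt _ _

private theorem c3_local (p e : ℂ[X][X]) (W : Set ℂ) (hW : IsOpen W) (x : ℂ × ℂ)
    (hx : p.evalEval x.1 x.2 ∈ W) (hx' : e.evalEval x.1 (p.evalEval x.1 x.2) ≠ 0)
    (hd : (Polynomial.derivative p).evalEval x.1 x.2 ≠ 0) :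
    ∀ᶠ c in 𝓝 (p.evalEval x.1 x.2), ∃ y : ℂ × ℂ, p.evalEval y.1 y.2 = c ∧
      JoinedIn {x : ℂ × ℂ | p.evalEval x.1 x.2 ∈ W ∧ e.evalEval x.1 (p.evalEval x.1 x.2) ≠ 0}
        x y := by
  have hmap := (c3_hasDeriv p x.1 x.2).map_nhds_eq hd
  have hcp : Continuous fun w => p.evalEval x.1 w :=
    (continuous_evalEval p).comp (continuous_const.prodMk continuous_id)
  have hce : Continuous fun w => e.evalEval x.1 (p.evalEval x.1 w) :=
    (continuous_evalEval e).comp (continuous_const.prodMk hcp)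
  have hUo : IsOpen {w | p.evalEval x.1 w ∈ W ∧ e.evalEval x.1 (p.evalEval x.1 w) ≠ 0} :=
    (hW.preimage hcp).inter (isOpen_ne_fun hce continuous_const)
  obtain ⟨δ, hδ, hball⟩ := Metric.isOpen_iff.1 hUo x.2 ⟨hx, hx'⟩
  have h1 : Metric.ball x.2 δ ∈ 𝓝 x.2 := Metric.ball_mem_nhds _ hδ
  have h2 : (fun w => p.evalEval x.1 w) '' Metric.ball x.2 δ ∈ 𝓝 (p.evalEval x.1 x.2) := by
    rw [← hmap]
    exact Filter.image_mem_map h1
  filter_upwards [h2] with c hc
  obtain ⟨w, hw, rfl⟩ := hc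
  refine ⟨(x.1, w), rfl, ?_⟩
  have hseg : JoinedIn (Metric.ball x.2 δ) x.2 w :=
    ((convex_ball x.2 δ).isPathConnected ⟨_, Metric.mem_ball_self hδ⟩).joinedIn _
      (Metric.mem_ball_self hδ) _ hw
  obtain ⟨γ, hγ⟩ := hseg
  refine ⟨⟨⟨fun t => (x.1, γ t), continuous_const.prodMk γ.continuous⟩, ?_, ?_⟩, fun t => ?_⟩
  · show (x.1, γ 0) = x
    rw [γ.source]
  · show (x.1, γ 1) = (x.1, w)
    rw [γ.target]
  · exact hball (hγ t)

private theorem c3_good (p e : ℂ[X][X]) (Bif : Set ℂ)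
    (hB : Branch (fun _ : Unit => p) () e Bif)
    (hconn : ∀ c, c ∉ Bif → IsPathConnected {x : ℂ × ℂ | p.evalEval x.1 x.2 = c ∧
      e.evalEval x.1 c ≠ 0})
    (W : Set ℂ) (hW : IsOpen W) (hWc : IsPreconnected W) (hWn : W.Nonempty)
    (hWB : ∀ c ∈ W, c ∉ Bif) :
    IsPathConnected {x : ℂ × ℂ | p.evalEval x.1 x.2 ∈ W ∧
      e.evalEval x.1 (p.evalEval x.1 x.2) ≠ 0} := by
  set G : Set (ℂ × ℂ) := {x : ℂ × ℂ | p.evalEval x.1 x.2 ∈ W ∧
      e.evalEval x.1 (p.evalEval x.1 x.2) ≠ 0} with hG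
  have hfib : ∀ x ∈ G, ∀ y ∈ G, p.evalEval x.1 x.2 = p.evalEval y.1 y.2 → JoinedIn G x y := by
    intro x hx y hy hxy
    have h1 := hconn (p.evalEval x.1 x.2) (hWB _ hx.1)
    have h2 := h1.joinedIn x ⟨rfl, hx.2⟩ y ⟨hxy.symm, by rw [hxy]; exact hy.2⟩
    refine h2.mono ?_
    rintro u ⟨hu1, hu2⟩
    refine ⟨?_, ?_⟩
    · rw [hu1]
      exact hx.1
    · rw [hu1]
      exact hu2
  have hloc : ∀ x ∈ G, ∀ᶠ c in 𝓝 (p.evalEval x.1 x.2), ∃ y : ℂ × ℂ, p.evalEval y.1 y.2 = c ∧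
      JoinedIn G x y := by
    intro x hx
    exact c3_local p e W hW x hx.1 hx.2 (hB.good x.1 _ hx.2 x.2 rfl).1
  have hne : ∀ c ∈ W, ∃ x ∈ G, p.evalEval x.1 x.2 = c := by
    intro c hc
    obtain ⟨x, hx1, hx2⟩ := (hconn c (hWB c hc)).nonempty
    refine ⟨x, ⟨?_, ?_⟩, hx1⟩
    · rw [hx1]
      exact hc
    · rw [hx1]
      exact hx2
  obtain ⟨c₀, hc₀⟩ := hWn
  obtain ⟨x₀, hx₀, hx₀c⟩ := hne c₀ hc₀
  let A : Set ℂ := {c | c ∈ W ∧ ∃ y : ℂ × ℂ, p.evalEval y.1 y.2 = c ∧ JoinedIn G x₀ y}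
  let B : Set ℂ := {c | c ∈ W ∧ ¬ ∃ y : ℂ × ℂ, p.evalEval y.1 y.2 = c ∧ JoinedIn G x₀ y}
  have hA : IsOpen A := by
    rw [isOpen_iff_mem_nhds]
    rintro c ⟨hc, y, rfl, hy⟩
    filter_upwards [hW.mem_nhds hc, hloc y hy.target_mem] with c' h1 h2
    obtain ⟨y', hy', hj⟩ := h2
    exact ⟨h1, y', hy', hy.trans hj⟩
  have hB' : IsOpen B := by
    rw [isOpen_iff_mem_nhds]
    rintro c ⟨hc, hno⟩
    obtain ⟨y, hy, rfl⟩ := hne c hc
    filter_upwards [hW.mem_nhds hc, hloc y hy] with c' h1 h2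
    refine ⟨h1, ?_⟩
    rintro ⟨y'', hy'', hj''⟩
    obtain ⟨y', hy', hj⟩ := h2
    apply hno
    refine ⟨y, rfl, hj''.trans ((hfib y'' hj''.target_mem y' hj.target_mem ?_).trans hj.symm)⟩
    rw [hy', hy'']
  have hsub : W ⊆ A := by
    apply hWc.subset_left_of_subset_union hA hB'
    · rw [Set.disjoint_left]
      intro c h1 h2
      exact h2.2 h1.2
    · intro c hc
      by_cases h : ∃ y : ℂ × ℂ, p.evalEval y.1 y.2 = c ∧ JoinedIn G x₀ y
      · exact Or.inl ⟨hc, h⟩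
      · exact Or.inr ⟨hc, h⟩
    · exact ⟨c₀, hc₀, hc₀, x₀, hx₀c, JoinedIn.refl hx₀⟩
  refine ⟨x₀, hx₀, fun {y} hy => ?_⟩
  obtain ⟨-, y', hy', hj⟩ := hsub hy.1
  exact hj.trans (hfib y' hj.target_mem y hy hy')

private theorem c3_dense (T : ℂ[X][X]) (hT : T ≠ 0) (O G : Set (ℂ × ℂ)) (hO : IsOpen O)
    (hGO : G ⊆ O) (hG : IsPathConnected G)
    (h : ∀ y ∈ O, T.evalEval y.1 y.2 ≠ 0 → y ∈ G) : IsPathConnected O := by
  obtain ⟨x₀, hx₀, hG⟩ := hG
  refine ⟨x₀, hGO hx₀, fun {y} hy => ?_⟩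
  obtain ⟨δ, hδ, hball⟩ := Metric.isOpen_iff.1 hO y hy
  obtain ⟨y', hy', hTy⟩ := thin_dense T hT (Metric.ball y δ) Metric.isOpen_ball y
    (Metric.mem_ball_self hδ)
  have h1 : JoinedIn O x₀ y' := (hG (h y' (hball hy') hTy)).mono hGO
  have h2 : JoinedIn O y' y :=
    (((convex_ball y δ).isPathConnected ⟨y, Metric.mem_ball_self hδ⟩).joinedIn y' hy' y
      (Metric.mem_ball_self hδ)).mono hball
  exact h1.trans h2

private theorem c3_punctured (b : ℂ) (ρ : ℝ) : IsPreconnected (Metric.ball b ρ \ {b}) := by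
  have h1 : Metric.ball b ρ \ {b} =
      (fun q : ℝ × ℝ => b + (q.1 : ℂ) * Complex.exp ((q.2 : ℂ) * Complex.I)) ''
        (Set.Ioo 0 ρ ×ˢ Set.univ) := by
    ext c
    constructor
    · rintro ⟨h1, h2⟩
      rw [Metric.mem_ball, dist_eq_norm] at h1
      refine ⟨(‖c - b‖, Complex.arg (c - b)), ⟨⟨?_, h1⟩, trivial⟩, ?_⟩
      · exact norm_pos_iff.2 (sub_ne_zero.2 h2)
      · show b + (‖c - b‖ : ℂ) * Complex.exp ((Complex.arg (c - b) : ℂ) * Complex.I) = c
        rw [Complex.norm_mul_exp_arg_mul_I]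
        ring
    · rintro ⟨⟨r, θ⟩, ⟨⟨h1, h2⟩, -⟩, rfl⟩
      have h1' : 0 < r := h1
      have h2' : r < ρ := h2
      have h3 : ‖(r : ℂ) * Complex.exp ((θ : ℂ) * Complex.I)‖ = r := by
        rw [norm_mul, Complex.norm_exp_ofReal_mul_I, mul_one, Complex.norm_real,
          Real.norm_of_nonneg h1'.le]
      refine ⟨?_, ?_⟩
      · rw [Metric.mem_ball, dist_eq_norm, add_sub_cancel_left, h3]
        exact h2'
      · intro h4
        have h5 : (r : ℂ) * Complex.exp ((θ : ℂ) * Complex.I) = 0 := by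
          have h6 : b + (r : ℂ) * Complex.exp ((θ : ℂ) * Complex.I) = b := h4
          simpa using h6
        rw [h5, norm_zero] at h3
        linarith
  rw [h1]
  refine (isPreconnected_Ioo.prod isPreconnected_univ).image _ ?_
  exact Continuous.continuousOn (by fun_prop)

/-- Preimages of small discs and of small punctured discs are path connected.
Proof: ρ so small that ball b ρ contains no point of Bif except possibly b.  A point over the (punctured)
ball can be moved inside its preimage to a point off the branch curve with value ∉ Bif ∪ {b}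
(`near_good` for the family fun _ : Unit => p, T = (e composed with p) times the factors p - b';
points with p = 0 have to be moved first off p = 0 by hand: near such a point p takes nonzero
values).  Its value c can be moved along a path in ball b ρ' minus ({b} ∪ Bif) to any other
value (`Push.move` on small discs inside, local constancy), and the good fibres are path connected
(`conn_fibre`). -/
theorem conn_ball (p : ℂ[X][X]) (hp : p.Monic) (hpi : Irreducible p) (b : ℂ) :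
    ∃ ρ : ℝ, 0 < ρ ∧ ∀ ρ' : ℝ, 0 < ρ' → ρ' ≤ ρ →
      IsPathConnected {x : ℂ × ℂ | p.evalEval x.1 x.2 ∈ Metric.ball b ρ'} ∧
      IsPathConnected {x : ℂ × ℂ | p.evalEval x.1 x.2 ∈ Metric.ball b ρ' ∧
        p.evalEval x.1 x.2 ≠ b} := by
  obtain ⟨e, Bif, hB⟩ := exists_branch (fun _ : Unit => p) (fun _ => hp) (fun _ => hpi) ()
  have hdeg : 0 < p.natDegree := by
    apply Nat.pos_of_ne_zero
    intro h0
    have h1 := Polynomial.eq_one_of_monic_natDegree_zero hp h0
    exact hpi.not_isUnit (h1 ▸ isUnit_one)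
  obtain ⟨T, hT, hTe⟩ := comp_ne_zero e p hB.ne hp hdeg
  have hpb : p - Polynomial.C (Polynomial.C b) ≠ 0 := by
    intro h0
    rw [sub_eq_zero] at h0
    rw [h0, Polynomial.natDegree_C] at hdeg
    exact lt_irrefl _ hdeg
  have hpb' : ∀ z w, (p - Polynomial.C (Polynomial.C b)).evalEval z w = p.evalEval z w - b := by
    intro z w
    show Polynomial.eval z (Polynomial.eval (Polynomial.C w) (p - Polynomial.C (Polynomial.C b))) =
      Polynomial.eval z (Polynomial.eval (Polynomial.C w) p) - b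
    simp
  have hT2 : T * (p - Polynomial.C (Polynomial.C b)) ≠ 0 := mul_ne_zero hT hpb
  have hT2' : ∀ z w, (T * (p - Polynomial.C (Polynomial.C b))).evalEval z w =
      e.evalEval z (p.evalEval z w) * (p.evalEval z w - b) := by
    intro z w
    rw [← hTe, ← hpb']
    show Polynomial.eval z (Polynomial.eval (Polynomial.C w)
      (T * (p - Polynomial.C (Polynomial.C b)))) = _
    rw [Polynomial.eval_mul, Polynomial.eval_mul]
  have hfin : (Bif \ {b}).Finite := hB.fin.subset Set.sdiff_subset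
  obtain ⟨ρ, hρ, hsub⟩ := Metric.isOpen_iff.1 hfin.isClosed.isOpen_compl b
    (by
      show ¬ (b ∈ Bif \ {b})
      rintro ⟨-, h⟩
      exact h rfl)
  have hc := continuous_evalEval p
  refine ⟨ρ, hρ, fun ρ' hρ' hle => ?_⟩
  have hWo : IsOpen (Metric.ball b ρ' \ {b}) := Metric.isOpen_ball.sdiff isClosed_singleton
  have hWn : (Metric.ball b ρ' \ {b}).Nonempty := by
    refine ⟨b + ((ρ' / 2 : ℝ) : ℂ), ?_, ?_⟩
    · rw [Metric.mem_ball, dist_eq_norm, add_sub_cancel_left, Complex.norm_real,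
        Real.norm_of_nonneg (by positivity)]
      linarith
    · intro h
      have h1 : b + ((ρ' / 2 : ℝ) : ℂ) = b := h
      have h2 : ((ρ' / 2 : ℝ) : ℂ) = 0 := by simpa using h1
      rw [Complex.ofReal_eq_zero] at h2
      linarith
  have hWB : ∀ c ∈ Metric.ball b ρ' \ {b}, c ∉ Bif := by
    rintro c ⟨h1, h2⟩ h3
    exact hsub (Metric.ball_subset_ball hle h1) ⟨h3, h2⟩
  have hG := c3_good p e Bif hB (fun c hc => conn_fibre p hp hpi e Bif hB c hc)
    (Metric.ball b ρ' \ {b}) hWo (c3_punctured b ρ') hWn hWB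
  constructor
  · refine c3_dense _ hT2 _ _ (Metric.isOpen_ball.preimage hc) ?_ hG ?_
    · intro x hx
      exact hx.1.1
    · intro y hy hTy
      rw [hT2'] at hTy
      exact ⟨⟨hy, sub_ne_zero.1 (right_ne_zero_of_mul hTy)⟩, left_ne_zero_of_mul hTy⟩
  · refine c3_dense _ hT2 _ _ ((Metric.isOpen_ball.preimage hc).inter
      (isOpen_ne_fun hc continuous_const)) ?_ hG ?_
    · intro x hx
      exact ⟨hx.1.1, hx.1.2⟩
    · intro y hy hTy
      rw [hT2'] at hTy
      exact ⟨⟨hy.1, sub_ne_zero.1 (right_ne_zero_of_mul hTy)⟩, left_ne_zero_of_mul hTy⟩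

end H13J
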