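import Mathlib
import Pool.Agent.Lib.H13K.KD

set_option autoImplicit false

open scoped unitInterval Polynomial

namespace H13J

open H13K

variable {ι : Type}

theorem evalEval_eq_sum (p : ℂ[X][X]) (z w : ℂ) :
    p.evalEval z w = ∑ k ∈ Finset.range (p.natDegree + 1), (p.coeff k).eval z * w ^ k := by
  show Polynomial.eval z (Polynomial.eval (Polynomial.C w) p) = _
  rw [Polynomial.eval_eq_sum_range (p := p), Polynomial.eval_finsetSum]
  apply Finset.sum_congr rfl
  intro k _
  simp

theorem continuous_evalEval (p : ℂ[X][X]) :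
    Continuous (fun x : ℂ × ℂ => p.evalEval x.1 x.2) := by
  have h : (fun x : ℂ × ℂ => p.evalEval x.1 x.2) = fun x : ℂ × ℂ =>
      ∑ k ∈ Finset.range (p.natDegree + 1), (p.coeff k).eval x.1 * x.2 ^ k := by
    funext x
    exact evalEval_eq_sum p x.1 x.2
  rw [h]
  apply continuous_finsetSum
  intro k _
  exact ((p.coeff k).continuous.comp continuous_fst).mul (continuous_snd.pow k)

/-- The value of the polynomial `P s` at a point. -/
noncomputable def hval (P : ι → ℂ[X][X]) (s : ι) (x : ℂ × ℂ) : ℂ := (P s).evalEval x.1 x.2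

/-- All points of the curve `P s = c` over `z` are simple and lie on no other curve `P j = 0`. -/
def Good (P : ι → ℂ[X][X]) (s : ι) (z c : ℂ) : Prop :=
  ∀ u, (P s).evalEval z u = c → (Polynomial.derivative (P s)).evalEval z u ≠ 0 ∧
    ∀ j, j ≠ s → (P j).evalEval z u ≠ 0

/-- The point is off the branch curve `e (z, P s (z, w)) = 0`. -/
def EG (P : ι → ℂ[X][X]) (s : ι) (e : ℂ[X][X]) (x : ℂ × ℂ) : Prop :=
  e.evalEval x.1 (hval P s x) ≠ 0

/-- Over the disc `ball b ρ` paths off the branch curve can be pushed into the fibre of `P s` and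
points can be moved to every other fibre. -/
structure Push (P : ι → ℂ[X][X]) (s : ι) (e : ℂ[X][X]) (b : ℂ) (ρ : ℝ) : Prop where
  pos : 0 < ρ
  push : ∀ (x y : CX P) (p : Path x y),
    (∀ t, hval P s (p t).1 ∈ Metric.ball b ρ ∧ EG P s e (p t).1) → hval P s x.1 = hval P s y.1 →
      ∃ q : Path x y, (∀ t, hval P s (q t).1 = hval P s x.1 ∧ EG P s e (q t).1) ∧ p.Homotopic q
  move : ∀ x : CX P, hval P s x.1 ∈ Metric.ball b ρ → EG P s e x.1 →
    ∀ c ∈ Metric.ball b ρ, ∃ (y : CX P) (p : Path x y), hval P s y.1 = c ∧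
      ∀ t, hval P s (p t).1 ∈ Metric.ball b ρ ∧ EG P s e (p t).1

/-- Branch data of the family with respect to `P s`. -/
structure Branch (P : ι → ℂ[X][X]) (s : ι) (e : ℂ[X][X]) (Bif : Set ℂ) : Prop where
  ne : e ≠ 0
  fin : Bif.Finite
  zero : (0 : ℂ) ∈ Bif
  good : ∀ z c, e.evalEval z c ≠ 0 → Good P s z c
  finz : ∀ c, c ∉ Bif → {z | e.evalEval z c = 0}.Finite
  push : ∀ b, b ∉ Bif → ∃ ρ : ℝ, Push P s e b ρ

/-- The complement of finitely many fibres of `p`. -/
def XS (p : ℂ[X][X]) (S : Finset ℂ) : Set (ℂ × ℂ) := {x | p.evalEval x.1 x.2 ∉ S}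

/-- The map to the base. -/
noncomputable def hS (p : ℂ[X][X]) (S : Finset ℂ) : C(XS p S, {b : ℂ // b ∉ S}) where
  toFun x := ⟨p.evalEval x.1.1 x.1.2, x.2⟩
  continuous_toFun := by
    apply Continuous.subtype_mk
    exact (continuous_evalEval p).comp continuous_subtype_val

end H13J
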