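import Mathlib
import Pool.Agent.Lib.H13K.Defs

set_option autoImplicit false

open scoped unitInterval

namespace H13J

open H13K

/-- The straight segment in the unit interval. -/
private noncomputable def g1seg (a b : I) : Path a b where
  toFun s := ⟨(1 - (s : ℝ)) * a + s * b, by
    have h0 := s.2.1
    have h1 := s.2.2
    have ha0 := a.2.1
    have ha1 := a.2.2
    have hb0 := b.2.1
    have hb1 := b.2.2
    constructor
    · nlinarith [mul_nonneg (sub_nonneg.2 h1) ha0, mul_nonneg h0 hb0]
    · nlinarith [mul_nonneg (sub_nonneg.2 h1) (sub_nonneg.2 ha1), mul_nonneg h0 (sub_nonneg.2 hb1)]⟩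
  continuous_toFun := by
    apply Continuous.subtype_mk
    fun_prop
  source' := by
    apply Subtype.ext
    simp
  target' := by
    apply Subtype.ext
    simp

private theorem g1seg_dist (a b s : I) : dist (g1seg a b s) a ≤ dist b a := by
  have h0 := s.2.1
  have h1 := s.2.2
  have h : ((g1seg a b s : I) : ℝ) = (1 - (s : ℝ)) * a + s * b := rfl
  rw [Subtype.dist_eq, Subtype.dist_eq, Real.dist_eq, Real.dist_eq, h]
  have h2 : (1 - (s : ℝ)) * a + s * b - a = s * (b - a) := by ring
  rw [h2, abs_mul, abs_of_nonneg h0]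
  exact mul_le_of_le_one_left (abs_nonneg _) h1

private theorem g1scI : SimplyConnectedSpace I := by
  have h : ContractibleSpace I := (convex_Icc (0 : ℝ) 1).contractibleSpace ⟨0, by simp⟩
  infer_instance

private theorem g1_trans {Z : Type} [TopologicalSpace Z] {u : Set Z} {a b c : Z} (p : Path a b)
    (q : Path b c) (hp : ∀ t, p t ∈ u) (hq : ∀ t, q t ∈ u) : ∀ t, (p.trans q) t ∈ u := by
  intro t
  have h : (p.trans q) t ∈ Set.range (p.trans q) := ⟨t, rfl⟩
  rw [Path.trans_range] at h
  rcases h with ⟨s, hs⟩ | ⟨s, hs⟩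
  · rw [← hs]
    exact hp s
  · rw [← hs]
    exact hq s

private theorem g1_symm {Z : Type} [TopologicalSpace Z] {u : Set Z} {a b : Z} (p : Path a b)
    (hp : ∀ t, p t ∈ u) : ∀ t, p.symm t ∈ u := by
  intro t
  rw [Path.symm_apply]
  exact hp _

section

variable {Z : Type} [TopologicalSpace Z] {H : Type} [Group H]

/-- The value of the functional on the part of a path between two parameters. -/
private noncomputable def g1wv (Φ : PF Z H) (P : C(I, Z)) (s t : I) : H :=
  (Φ.comap P).val (g1seg s t)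

private theorem g1wv_eq (Φ : PF Z H) (P : C(I, Z)) {s t : I} (r : Path s t) :
    g1wv Φ P s t = (Φ.comap P).val r := by
  have := g1scI
  exact PF.val_eq_of_simplyConnected _ _ _

private theorem g1wv_mul (Φ : PF Z H) (P : C(I, Z)) (s t r : I) :
    g1wv Φ P s r = g1wv Φ P t r * g1wv Φ P s t := by
  rw [g1wv_eq Φ P ((g1seg s t).trans (g1seg t r)), PF.trans]
  rfl

/-- The values of the paths from `x` through one of the sets. -/
private theorem g1_label (Φ : PF Z H) (x : Z) (O : Set Z)
    (hpc : ∀ y ∈ O, ∀ y' ∈ O, ∃ p : Path y y', ∀ t, p t ∈ O)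
    (hkill : ∀ y ∈ O, ∀ p : Path y y, (∀ t, p t ∈ O) → Φ.val p = 1) :
    ∃ L : Z → H, (∀ z ∈ O, Nonempty (Path x z) → ∃ q : Path x z, Φ.val q = L z) ∧
      ∀ (z z' : Z) (q : Path z z'), (∀ t, q t ∈ O) → Nonempty (Path x z) →
        Φ.val q * L z = L z' := by
  classical
  by_cases h : ∃ y ∈ O, Nonempty (Path x y)
  · obtain ⟨y, hy, ⟨r⟩⟩ := h
    have hP' : ∀ z (hz : z ∈ O), ∃ p : Path y z, (∀ t, p t ∈ O) := fun z hz => hpc y hy z hz
    refine ⟨fun z => if hz : z ∈ O then Φ.val (hP' z hz).choose * Φ.val r else 1, ?_, ?_⟩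
    · intro z hz _
      refine ⟨r.trans (hP' z hz).choose, ?_⟩
      rw [Φ.trans]
      simp only [dif_pos hz]
    · intro z z' q hq _
      have hz : z ∈ O := by
        have := hq 0
        rwa [q.source] at this
      have hz' : z' ∈ O := by
        have := hq 1
        rwa [q.target] at this
      simp only [dif_pos hz, dif_pos hz']
      have h1 := hkill y hy (((hP' z hz).choose.trans q).trans (hP' z' hz').choose.symm)
        (g1_trans _ _ (g1_trans _ _ (hP' z hz).choose_spec hq)
          (g1_symm _ (hP' z' hz').choose_spec))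
      rw [Φ.trans, Φ.trans, Φ.val_symm] at h1
      have h2 := inv_mul_eq_one.1 h1
      rw [h2, mul_assoc]
  · refine ⟨fun _ => 1, ?_, ?_⟩
    · intro z hz hxz
      exact absurd ⟨z, hz, hxz⟩ h
    · intro z z' q hq hxz
      have hz : z ∈ O := by
        have := hq 0
        rwa [q.source] at this
      exact absurd ⟨z, hz, hxz⟩ h

end

/-- Finite generation of the image of the fundamental group.
Proof: let J' be the indices j such that O j is nonempty and joined to x; for j ∈ J' choose y j ∈ O j and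
a path r j from x to y j (r = refl for the index of x).  For i, j ∈ J' with O i ∩ O j nonempty let
g i j = Φ of (r i, path in O i to a point of O i ∩ O j, path in O j to y j, (r j)⁻¹), independent of the
choices (hkill, hint).  Let S be the set of all g i j.  Every value Φ (p), p a loop at x, is a product
of members of S: for z joined to x choose an index j z and the path r (j z) followed by a path in
O (j z) to z; with respect to these paths the value of a piece of p inside some O k is g (j z) k times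
g k (j z'), and I is compact / connected (cut p with (Φ.comap p) on I).  Conversely every g i j is the
value of a loop at x. -/
theorem fg_image {Z : Type} [TopologicalSpace Z] {H : Type} [Group H] (Φ : PF Z H) (x : Z)
    (J : Type) [Finite J] (O : J → Set Z) (hO : ∀ j, IsOpen (O j)) (hcov : ∀ z, ∃ j, z ∈ O j)
    (hpc : ∀ j, ∀ y ∈ O j, ∀ y' ∈ O j, ∃ p : Path y y', ∀ t, p t ∈ O j)
    (hint : ∀ i j, ∀ y ∈ O i ∩ O j, ∀ y' ∈ O i ∩ O j, ∃ p : Path y y', ∀ t, p t ∈ O i ∩ O j)
    (hkill : ∀ j, ∀ y ∈ O j, ∀ p : Path y y, (∀ t, p t ∈ O j) → Φ.val p = 1) :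
    ∃ S : Finset H, (Subgroup.closure (S : Set H) : Set H) = {g | ∃ p : Path x x, Φ.val p = g} := by
  classical
  choose L hL1 hL2 using fun j => g1_label Φ x (O j) (hpc j) (hkill j)
  set T : Set H := (⋃ ij : J × J, {g | ∃ z ∈ O ij.1 ∩ O ij.2, Nonempty (Path x z) ∧
      g = (L ij.2 z)⁻¹ * L ij.1 z}) ∪ ⋃ j : J, {g | x ∈ O j ∧ g = L j x} with hT
  have hTf : T.Finite := by
    refine Set.Finite.union (Set.finite_iUnion fun ij => Set.Subsingleton.finite ?_)
      (Set.finite_iUnion fun j => Set.Subsingleton.finite ?_)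
    · rintro g ⟨z, hz, hxz, rfl⟩ g' ⟨z', hz', hxz', rfl⟩
      obtain ⟨q, hq⟩ := hint ij.1 ij.2 z hz z' hz'
      have h1 := hL2 ij.1 z z' q (fun t => (hq t).1) hxz
      have h2 := hL2 ij.2 z z' q (fun t => (hq t).2) hxz
      rw [← h1, ← h2]
      group
    · rintro g ⟨_, rfl⟩ g' ⟨_, rfl⟩
      rfl
  refine ⟨hTf.toFinset, ?_⟩
  rw [hTf.coe_toFinset]
  set Γ := Subgroup.closure T with hΓ
  have hgen : ∀ i j z, z ∈ O i → z ∈ O j → Nonempty (Path x z) → (L j z)⁻¹ * L i z ∈ Γ := by
    intro i j z hi hj hxz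
    apply Subgroup.subset_closure
    left
    rw [Set.mem_iUnion]
    exact ⟨(i, j), z, ⟨hi, hj⟩, hxz, rfl⟩
  have hgen' : ∀ j, x ∈ O j → L j x ∈ Γ := by
    intro j hj
    apply Subgroup.subset_closure
    right
    rw [Set.mem_iUnion]
    exact ⟨j, hj, rfl⟩
  apply Set.Subset.antisymm
  · let P : Subgroup H :=
      { carrier := {g | ∃ p : Path x x, Φ.val p = g}
        mul_mem' := by
          rintro a b ⟨p, rfl⟩ ⟨q, rfl⟩
          exact ⟨q.trans p, Φ.trans q p⟩
        one_mem' := ⟨Path.refl x, Φ.val_refl x⟩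
        inv_mem' := by
          rintro a ⟨p, rfl⟩
          exact ⟨p.symm, Φ.val_symm p⟩ }
    have hP : Γ ≤ P := by
      rw [hΓ, Subgroup.closure_le]
      rintro g (hg | hg)
      · rw [Set.mem_iUnion] at hg
        obtain ⟨⟨i, j⟩, z, hz, hxz, rfl⟩ := hg
        obtain ⟨p, hp⟩ := hL1 i z hz.1 hxz
        obtain ⟨q, hq⟩ := hL1 j z hz.2 hxz
        refine ⟨p.trans q.symm, ?_⟩
        rw [Φ.trans, Φ.val_symm, hp, hq]
      · rw [Set.mem_iUnion] at hg
        obtain ⟨j, hj, rfl⟩ := hg
        exact hL1 j x hj ⟨Path.refl x⟩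
    exact hP
  · rintro _ ⟨p, rfl⟩
    set Pc : C(I, Z) := ⟨p, p.continuous⟩ with hPc
    have hPa : ∀ t, Pc t = p t := fun _ => rfl
    have hreach : ∀ t : I, Nonempty (Path x (p t)) := fun t =>
      ⟨((g1seg 0 t).map Pc.continuous).cast p.source.symm rfl⟩
    set w : I → H := fun t => g1wv Φ Pc 0 t with hw
    have hloc : ∀ (t0 : I) (k : J), p t0 ∈ O k → ∀ᶠ t in nhds t0,
        p t ∈ O k ∧ (L k (p t))⁻¹ * w t = (L k (p t0))⁻¹ * w t0 := by
      intro t0 k hk
      have h1 : p ⁻¹' (O k) ∈ nhds t0 := ((hO k).preimage p.continuous).mem_nhds hk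
      obtain ⟨ε, hε, hball⟩ := Metric.mem_nhds_iff.1 h1
      filter_upwards [Metric.ball_mem_nhds t0 hε] with t ht
      refine ⟨hball ht, ?_⟩
      have h2 : ∀ s, ((g1seg t0 t).map Pc.continuous) s ∈ O k := fun s =>
        hball (lt_of_le_of_lt (g1seg_dist t0 t s) ht)
      have h3 := hL2 k (Pc t0) (Pc t) _ h2 (hreach t0)
      have h4 : w t = g1wv Φ Pc t0 t * w t0 := g1wv_mul Φ Pc 0 t0 t
      have h5 : L k (p t) = g1wv Φ Pc t0 t * L k (p t0) := h3.symm
      rw [h4, h5]
      group
    have hchg : ∀ (t : I) (j k : J), p t ∈ O j → p t ∈ O k → (L k (p t))⁻¹ * w t ∈ Γ →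
        (L j (p t))⁻¹ * w t ∈ Γ := by
      intro t j k hj hk h
      have h1 := Γ.mul_mem (hgen k j (p t) hk hj (hreach t)) h
      have h2 : (L j (p t))⁻¹ * L k (p t) * ((L k (p t))⁻¹ * w t) = (L j (p t))⁻¹ * w t := by
        group
      rwa [h2] at h1
    have hclopen : IsClopen {t : I | ∀ j, p t ∈ O j → (L j (p t))⁻¹ * w t ∈ Γ} := by
      constructor
      · rw [← isOpen_compl_iff, isOpen_iff_mem_nhds]
        intro t0 ht0
        simp only [Set.mem_compl_iff, Set.mem_ofPred_eq, not_forall] at ht0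
        obtain ⟨j, hj, hn⟩ := ht0
        filter_upwards [hloc t0 j hj] with t ht
        intro h
        apply hn
        have h1 := h j ht.1
        rwa [ht.2] at h1
      · rw [isOpen_iff_mem_nhds]
        intro t0 ht0
        obtain ⟨k, hk⟩ := hcov (p t0)
        have h0 := ht0 k hk
        filter_upwards [hloc t0 k hk] with t ht
        intro j hj
        apply hchg t j k hj ht.1
        rw [ht.2]
        exact h0
    have huniv : {t : I | ∀ j, p t ∈ O j → (L j (p t))⁻¹ * w t ∈ Γ} = Set.univ := by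
      apply hclopen.eq_univ
      refine ⟨0, ?_⟩
      intro j hj
      have h1 : w 0 = 1 := by
        show g1wv Φ Pc 0 0 = 1
        rw [g1wv_eq Φ Pc (Path.refl 0)]
        exact (Φ.comap Pc).val_refl 0
      rw [h1, mul_one]
      rw [p.source] at hj ⊢
      exact Γ.inv_mem (hgen' j hj)
    have h1 : (1 : I) ∈ {t : I | ∀ j, p t ∈ O j → (L j (p t))⁻¹ * w t ∈ Γ} := by
      rw [huniv]
      trivial
    obtain ⟨j, hj⟩ := hcov (p 1)
    have h2 := h1 j hj
    rw [p.target] at hj h2
    have h3 := Γ.mul_mem (hgen' j hj) h2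
    have h4 : L j x * ((L j x)⁻¹ * w 1) = w 1 := by group
    rw [h4] at h3
    have h5 : w 1 = Φ.val p := by
      show g1wv Φ Pc 0 1 = Φ.val p
      have h6 : ∃ q : Path (0 : I) 1, ∀ t, q t = t :=
        ⟨{ toFun := fun t => t
           continuous_toFun := continuous_id
           source' := rfl
           target' := rfl }, fun _ => rfl⟩
      obtain ⟨q, hq⟩ := h6
      rw [g1wv_eq Φ Pc q]
      have h7 : (q.map Pc.continuous) = p.cast p.source p.target := by
        ext t
        show Pc (q t) = p t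
        rw [hq]
        rfl
      show Φ.val (q.map Pc.continuous) = Φ.val p
      rw [h7, Φ.val_cast]
    rw [← h5]
    exact h3

end H13J
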