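import Pool.Agent.Lib.H13J.D

set_option autoImplicit false

open scoped unitInterval Polynomial

namespace H13J

open H13K

variable {ι : Type}

private theorem g2a_one (e : ℂ) : ∃ H : Fin 4 → Set ℂ, (∀ k, IsOpen (H k) ∧ Convex ℝ (H k) ∧ e ∉ H k) ∧
    ∀ z, z ≠ e → ∃ k, z ∈ H k := by
  refine ⟨![{z | z.re < e.re}, {z | e.re < z.re}, {z | z.im < e.im}, {z | e.im < z.im}], ?_, ?_⟩
  · intro k
    fin_cases k
    · exact ⟨isOpen_lt Complex.continuous_re continuous_const, convex_halfSpace_re_lt _,
        fun h => lt_irrefl e.re (show e.re < e.re from h)⟩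
    · exact ⟨isOpen_lt continuous_const Complex.continuous_re, convex_halfSpace_re_gt _,
        fun h => lt_irrefl e.re (show e.re < e.re from h)⟩
    · exact ⟨isOpen_lt Complex.continuous_im continuous_const, convex_halfSpace_im_lt _,
        fun h => lt_irrefl e.im (show e.im < e.im from h)⟩
    · exact ⟨isOpen_lt continuous_const Complex.continuous_im, convex_halfSpace_im_gt _,
        fun h => lt_irrefl e.im (show e.im < e.im from h)⟩
  · intro z hz
    rcases lt_trichotomy z.re e.re with h | h | h
    · exact ⟨0, h⟩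
    · rcases lt_trichotomy z.im e.im with h' | h' | h'
      · exact ⟨2, h'⟩
      · exact absurd (Complex.ext h h') hz
      · exact ⟨3, h'⟩
    · exact ⟨1, h⟩

/-- The complement of a finite set in the plane has a finite cover by convex open sets.
Proof: take the 4 |E| open half planes {re z < re e}, {re z > re e}, {im z < im e}, {im z > im e},
e ∈ E, and for every set T of such half planes let C T be their intersection if it contains no point of
E and ∅ otherwise.  For z ∉ E let T be the set of all half planes that contain z: a point e ∈ E in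
their intersection would have re z = re e and im z = im e. -/
theorem convex_cover (E : Set ℂ) (hE : E.Finite) :
    ∃ (N : ℕ) (C : Fin N → Set ℂ), (∀ j, IsOpen (C j) ∧ Convex ℝ (C j) ∧ ∀ z ∈ C j, z ∉ E) ∧
      ∀ z, z ∉ E → ∃ j, z ∈ C j := by
  induction E, hE using Set.Finite.induction_on with
  | empty =>
    exact ⟨1, fun _ => Set.univ, fun _ => ⟨isOpen_univ, convex_univ, fun z _ => Set.notMem_empty z⟩,
      fun z _ => ⟨0, Set.mem_univ z⟩⟩
  | @insert e E _ _ ih =>
    obtain ⟨N, C, hC, hcov⟩ := ih
    obtain ⟨H, hH, hHc⟩ := g2a_one e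
    refine ⟨N * 4, fun j => C (finProdFinEquiv.symm j).1 ∩ H (finProdFinEquiv.symm j).2, ?_, ?_⟩
    · intro j
      obtain ⟨h1, h2, h3⟩ := hC (finProdFinEquiv.symm j).1
      obtain ⟨g1, g2, g3⟩ := hH (finProdFinEquiv.symm j).2
      refine ⟨h1.inter g1, h2.inter g2, ?_⟩
      rintro z ⟨hz1, hz2⟩ hz
      rcases Set.mem_insert_iff.1 hz with h | h
      · rw [h] at hz2
        exact g3 hz2
      · exact h3 z hz1 h
    · intro z hz
      obtain ⟨j, hj⟩ := hcov z fun h => hz (Set.mem_insert_of_mem e h)
      obtain ⟨k, hk⟩ := hHc z fun h => hz (h ▸ Set.mem_insert z E)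
      refine ⟨finProdFinEquiv (j, k), ?_⟩
      simp only [Equiv.symm_apply_apply]
      exact ⟨hj, hk⟩

end H13J
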