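import Pool.Agent.Lib.H13J.D
import Pool.Agent.Lib.H13K.K3
import Pool.Agent.Lib.H13K.K4

set_option autoImplicit false

open scoped unitInterval Polynomial

namespace H13J

open H13K

variable {ι : Type}

private theorem g2b_evenly {X : Type} [TopologicalSpace X] (p : ℂ[X][X]) (hp : p.Monic)
    (z : C(X, ℂ)) (t₀ : X)
    (hs : ∀ w, p.evalEval (z t₀) w = 0 → (Polynomial.derivative p).evalEval (z t₀) w ≠ 0) :
    IsEvenlyCovered (fun q : {q : X × ℂ // p.evalEval (z q.1) q.2 = 0} => q.1.1) t₀
      (Fin p.natDegree) := by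
  obtain ⟨ρ, hρ, h, hd, hi, hf⟩ := local_roots p hp (z t₀) hs
  set E := {q : X × ℂ // p.evalEval (z q.1) q.2 = 0} with hE
  set U : Set X := z ⁻¹' Metric.ball (z t₀) ρ with hU
  have hUo : IsOpen U := Metric.isOpen_ball.preimage z.continuous
  have hfc : Continuous (fun q : E => q.1.1) := continuous_fst.comp continuous_subtype_val
  have hroot : ∀ t ∈ U, ∀ w, p.evalEval (z t) w = 0 ↔ ∃ a, h a (z t) = w := by
    intro t ht w
    rw [← Polynomial.map_evalRingHom_eval, hf (z t) ht, Polynomial.eval_prod, Finset.prod_eq_zero_iff]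
    constructor
    · rintro ⟨a, -, ha⟩
      refine ⟨a, ?_⟩
      rw [Polynomial.eval_sub, Polynomial.eval_X, Polynomial.eval_C, sub_eq_zero] at ha
      exact ha.symm
    · rintro ⟨a, ha⟩
      refine ⟨a, Finset.mem_univ _, ?_⟩
      rw [Polynomial.eval_sub, Polynomial.eval_X, Polynomial.eval_C, ha, sub_self]
  have hcont : ∀ a, Continuous (fun t : U => h a (z t.1)) := by
    intro a
    have h1 : ContinuousOn (h a) (Metric.ball (z t₀) ρ) := (hd a).continuousOn
    exact h1.comp_continuous (z.continuous.comp continuous_subtype_val) (fun t => t.2)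
  have hex : ∀ q : (fun q : E => q.1.1) ⁻¹' U, ∃ a, h a (z q.1.1.1) = q.1.1.2 := by
    intro q
    exact (hroot q.1.1.1 q.2 q.1.1.2).1 q.1.2
  choose idx hidx using hex
  have hidx_iff : ∀ q a, idx q = a ↔ h a (z q.1.1.1) = q.1.1.2 := by
    intro q a
    constructor
    · rintro rfl
      exact hidx q
    · intro ha
      exact hi (z q.1.1.1) q.2 (by show h (idx q) _ = h a _; rw [hidx q, ha])
  have hclosed : ∀ a, IsClosed {q : (fun q : E => q.1.1) ⁻¹' U | idx q = a} := by
    intro a
    have h2 : {q : (fun q : E => q.1.1) ⁻¹' U | idx q = a} =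
        {q | h a (z q.1.1.1) = q.1.1.2} := by
      ext q
      exact hidx_iff q a
    rw [h2]
    apply isClosed_eq
    · exact (hcont a).comp (Continuous.subtype_mk (hfc.comp continuous_subtype_val) (fun q => q.2))
    · exact continuous_snd.comp (continuous_subtype_val.comp continuous_subtype_val)
  refine ⟨inferInstance, U, by simp [hU, hρ], hUo, hUo.preimage hfc,
    { toFun := fun q => (⟨q.1.1.1, q.2⟩, idx q)
      invFun := fun y => ⟨⟨(y.1.1, h y.2 (z y.1.1)),
        (hroot y.1.1 y.1.2 _).2 ⟨y.2, rfl⟩⟩, y.1.2⟩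
      left_inv := ?_
      right_inv := ?_
      continuous_toFun := ?_
      continuous_invFun := ?_ }, fun _ => rfl⟩
  · intro q
    apply Subtype.ext
    apply Subtype.ext
    exact Prod.ext rfl (hidx q)
  · intro y
    refine Prod.ext rfl ?_
    exact (hidx_iff _ _).2 rfl
  · refine Continuous.prodMk
      (Continuous.subtype_mk (hfc.comp continuous_subtype_val) (fun q => q.2)) ?_
    rw [continuous_discrete_rng]
    intro a
    have h3 : idx ⁻¹' {a} = (⋃ b ∈ (Finset.univ.erase a : Finset (Fin p.natDegree)),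
        {q : (fun q : E => q.1.1) ⁻¹' U | idx q = b})ᶜ := by
      ext q
      simp only [Set.mem_preimage, Set.mem_singleton_iff, Set.mem_compl_iff, Set.mem_iUnion,
        Finset.mem_erase, Finset.mem_univ, and_true, Set.mem_ofPred_eq, exists_prop, not_exists,
        not_and]
      constructor
      · intro h4 b hb h5
        exact hb (h5.symm.trans h4)
      · intro h4
        by_contra h5
        exact h4 (idx q) h5 rfl
    rw [h3, isOpen_compl_iff]
    exact isClosed_biUnion_finset (fun b _ => hclosed b)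
  · refine Continuous.subtype_mk (Continuous.subtype_mk ?_ _) _
    refine Continuous.prodMk (continuous_subtype_val.comp continuous_fst) ?_
    rw [continuous_prod_of_discrete_right]
    intro a
    exact hcont a

private theorem g2b_roots {X : Type} [TopologicalSpace X] [SimplyConnectedSpace X]
    [LocallyPathConnectedSpace X] (x₀ : X) (p : ℂ[X][X]) (hp : p.Monic) (z : C(X, ℂ))
    (hs : ∀ t w, p.evalEval (z t) w = 0 → (Polynomial.derivative p).evalEval (z t) w ≠ 0) :
    ∃ u : Fin p.natDegree → C(X, ℂ), (∀ t, Function.Injective (fun a => u a t)) ∧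
      ∀ t w, p.evalEval (z t) w = 0 ↔ ∃ a, w = u a t := by
  have hcov : IsCoveringMap (fun q : {q : X × ℂ // p.evalEval (z q.1) q.2 = 0} => q.1.1) :=
    fun t => (g2b_evenly p hp z t (hs t)).to_isEvenlyCovered_preimage
  obtain ⟨ρ, hρ, h, -, hi, hf⟩ := local_roots p hp (z x₀) (hs x₀)
  have hmem : z x₀ ∈ Metric.ball (z x₀) ρ := Metric.mem_ball_self hρ
  have hroot : ∀ a, p.evalEval (z x₀) (h a (z x₀)) = 0 := by
    intro a
    rw [← Polynomial.map_evalRingHom_eval, hf (z x₀) hmem, Polynomial.eval_prod]
    apply Finset.prod_eq_zero (Finset.mem_univ a)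
    rw [Polynomial.eval_sub, Polynomial.eval_X, Polynomial.eval_C, sub_self]
  have hlift : ∀ a : Fin p.natDegree, ∃ F : C(X, {q : X × ℂ // p.evalEval (z q.1) q.2 = 0}),
      F x₀ = ⟨(x₀, h a (z x₀)), hroot a⟩ ∧
      (fun q : {q : X × ℂ // p.evalEval (z q.1) q.2 = 0} => q.1.1) ∘ F = ContinuousMap.id X := by
    intro a
    exact (hcov.existsUnique_continuousMap_lifts (ContinuousMap.id X) x₀
      ⟨(x₀, h a (z x₀)), hroot a⟩ rfl).exists
  choose F hF0 hF using hlift
  have hF1 : ∀ a t, (F a t).1.1 = t := fun a t => congrFun (hF a) t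
  have hinj : ∀ t, Function.Injective (fun a => (F a t).1.2) := by
    intro t a b hab
    have h1 : F a t = F b t := by
      apply Subtype.ext
      exact Prod.ext ((hF1 a t).trans (hF1 b t).symm) hab
    have h2 : (F a : X → _) = F b :=
      hcov.eq_of_comp_eq (F a).continuous (F b).continuous ((hF a).trans (hF b).symm) t h1
    have h3 : F a x₀ = F b x₀ := congrFun h2 x₀
    rw [hF0, hF0] at h3
    have h4 : h a (z x₀) = h b (z x₀) := congrArg (fun q => q.1.2) h3
    exact hi (z x₀) hmem h4
  refine ⟨fun a => ⟨fun t => (F a t).1.2, by fun_prop⟩, hinj, ?_⟩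
  intro t w
  have hmon : (p.map (Polynomial.evalRingHom (z t))).Monic := hp.map _
  have hprod : (∏ a, (Polynomial.X - Polynomial.C ((F a t).1.2))).Monic :=
    Polynomial.monic_prod_of_monic _ _ (fun a _ => Polynomial.monic_X_sub_C _)
  have hdvd : (∏ a, (Polynomial.X - Polynomial.C ((F a t).1.2))) ∣
      p.map (Polynomial.evalRingHom (z t)) := by
    apply Finset.prod_dvd_of_coprime
    · intro a _ b _ hab
      exact Polynomial.pairwise_coprime_X_sub_C (hinj t) hab
    · intro a _
      rw [Polynomial.dvd_iff_isRoot, Polynomial.IsRoot, Polynomial.map_evalRingHom_eval]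
      have h5 := (F a t).2
      rw [hF1 a t] at h5
      exact h5
  have hdeg : (p.map (Polynomial.evalRingHom (z t))).natDegree ≤
      (∏ a, (Polynomial.X - Polynomial.C ((F a t).1.2))).natDegree := by
    rw [Polynomial.natDegree_prod_of_monic _ _ (fun a _ => Polynomial.monic_X_sub_C _),
      hp.natDegree_map]
    simp
  have hall : p.map (Polynomial.evalRingHom (z t)) =
      ∏ a, (Polynomial.X - Polynomial.C ((F a t).1.2)) :=
    (Polynomial.eq_of_monic_of_dvd_of_natDegree_le hprod hmon hdvd hdeg).symm ▸ rfl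
  rw [← Polynomial.map_evalRingHom_eval, hall, Polynomial.eval_prod, Finset.prod_eq_zero_iff]
  constructor
  · rintro ⟨a, -, ha⟩
    refine ⟨a, ?_⟩
    rw [Polynomial.eval_sub, Polynomial.eval_X, Polynomial.eval_C, sub_eq_zero] at ha
    exact ha
  · rintro ⟨a, ha⟩
    refine ⟨a, Finset.mem_univ _, ?_⟩
    rw [Polynomial.eval_sub, Polynomial.eval_X, Polynomial.eval_C, ha]
    exact sub_self _

private theorem g2b_main (q : ℂ[X][X]) (hq : q.Monic) (d : ℕ) (hd : q.natDegree = d) (C : Set ℂ)
    (hC : IsOpen C) (hcv : Convex ℝ C)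
    (hs : ∀ z ∈ C, ∀ u, q.evalEval z u = 0 → (Polynomial.derivative q).evalEval z u ≠ 0) :
    ∃ g : Fin d → ℂ → ℂ, (∀ a, ContinuousOn (g a) C) ∧
      (∀ z ∈ C, Function.Injective (fun a => g a z)) ∧
      ∀ z ∈ C, ∀ u, (q.evalEval z u = 0 ↔ ∃ a, u = g a z) := by
  classical
  subst hd
  rcases Set.eq_empty_or_nonempty C with h0 | ⟨z₀, hz₀⟩
  · subst h0
    exact ⟨fun _ _ => 0, fun _ => continuousOn_empty _, fun z hz => absurd hz (Set.notMem_empty z),
      fun z hz => absurd hz (Set.notMem_empty z)⟩
  · have : ContractibleSpace C := hcv.contractibleSpace ⟨z₀, hz₀⟩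
    have : LocallyPathConnectedSpace C := hC.locallyPathConnectedSpace
    obtain ⟨u, hu, hu'⟩ := g2b_roots (X := C) ⟨z₀, hz₀⟩ q hq
      ⟨Subtype.val, continuous_subtype_val⟩ (fun t w h => hs t.1 t.2 w h)
    have key : ∀ a z (hz : z ∈ C), (fun z => if h : z ∈ C then u a ⟨z, h⟩ else 0) z = u a ⟨z, hz⟩ := by
      intro a z hz
      exact dif_pos hz
    refine ⟨fun a z => if h : z ∈ C then u a ⟨z, h⟩ else 0, ?_, ?_, ?_⟩
    · intro a
      rw [continuousOn_iff_continuous_domRestrict]
      exact (u a).continuous.congr fun t => (key a t.1 t.2).symm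
    · intro z hz a b hab
      apply hu ⟨z, hz⟩
      have h1 := key a z hz
      have h2 := key b z hz
      exact h1.symm.trans (hab.trans h2)
    · intro z hz w
      have h3 : q.evalEval z w = 0 ↔ ∃ a, w = u a ⟨z, hz⟩ := hu' ⟨z, hz⟩ w
      rw [h3]
      constructor
      · rintro ⟨a, ha⟩
        exact ⟨a, ha.trans (key a z hz).symm⟩
      · rintro ⟨a, ha⟩
        exact ⟨a, ha.trans (key a z hz)⟩

/-- Over a convex open set without branch points the curve p (z, u) = c is a union of graphs.
Proof: {(z, u) : z ∈ C, p (z, u) = c} → C is a covering map (`local_roots` for p - c), C is simply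
connected and locally path connected (if nonempty): lift C itself through the d points over one z₀
(`IsCoveringMap.existsUnique_continuousMap_lifts`, compare K4.lean); lifts that agree at one point are
equal, all d roots are obtained. -/
theorem sections (p : ℂ[X][X]) (hp : p.Monic) (c : ℂ) (C : Set ℂ) (hC : IsOpen C)
    (hcv : Convex ℝ C)
    (hs : ∀ z ∈ C, ∀ u, p.evalEval z u = c → (Polynomial.derivative p).evalEval z u ≠ 0) :
    ∃ g : Fin p.natDegree → ℂ → ℂ, (∀ a, ContinuousOn (g a) C) ∧
      (∀ z ∈ C, Function.Injective (fun a => g a z)) ∧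
      ∀ z ∈ C, ∀ u, (p.evalEval z u = c ↔ ∃ a, u = g a z) := by
  rcases Nat.eq_zero_or_pos p.natDegree with h0 | h0
  · have h1 : p = 1 := hp.natDegree_eq_zero.1 h0
    refine ⟨fun _ _ => 0, fun _ => continuousOn_const, ?_, ?_⟩
    · intro z _ a
      have h2 := a.2
      omega
    · intro z hz u
      constructor
      · intro h3
        exfalso
        apply hs z hz u h3
        rw [h1]
        simp
      · rintro ⟨a, _⟩
        have h2 := a.2
        omega
  · have hdeg : (Polynomial.C (Polynomial.C c) : ℂ[X][X]).degree < p.degree := by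
      refine lt_of_le_of_lt Polynomial.degree_C_le ?_
      exact Polynomial.natDegree_pos_iff_degree_pos.1 h0
    have he : ∀ z u, (p - Polynomial.C (Polynomial.C c)).evalEval z u = p.evalEval z u - c := by
      intro z u
      simp [Polynomial.evalEval]
    obtain ⟨g, hg1, hg2, hg3⟩ := g2b_main (p - Polynomial.C (Polynomial.C c))
      (hp.sub_of_left hdeg) p.natDegree Polynomial.natDegree_sub_C C hC hcv (by
        intro z hz u h
        rw [he, sub_eq_zero] at h
        rw [Polynomial.derivative_sub, Polynomial.derivative_C, sub_zero]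
        exact hs z hz u h)
    refine ⟨g, hg1, hg2, ?_⟩
    intro z hz u
    rw [← hg3 z hz u, he, sub_eq_zero]

end H13J
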