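import Pool.Agent.Lib.H13J.D
import Pool.Agent.Lib.H13J.G1
import Pool.Agent.Lib.H13J.G2a
import Pool.Agent.Lib.H13J.G2b

set_option autoImplicit false

open scoped unitInterval Polynomial

namespace H13J

open H13K

variable {ι : Type}

/-- The graph over a path. -/
private theorem g2c_lift {p : ℂ[X][X]} {c : ℂ} {E C : Set ℂ} {g : ℂ → ℂ} (hg : ContinuousOn g C)
    (hroot : ∀ z ∈ C, p.evalEval z (g z) = c) (hCE : ∀ z ∈ C, z ∉ E)
    (y y' : {x : ℂ × ℂ // p.evalEval x.1 x.2 = c ∧ x.1 ∉ E})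
    (hy : y.1.2 = g y.1.1) (hy' : y'.1.2 = g y'.1.1) (γ : Path y.1.1 y'.1.1) (hγ : ∀ t, γ t ∈ C) :
    ∃ q : Path y y', ∀ t, (q t).1.1 = γ t ∧ (q t).1.2 = g (γ t) := by
  refine ⟨{ toFun := fun t => ⟨(γ t, g (γ t)), hroot _ (hγ t), hCE _ (hγ t)⟩
            continuous_toFun := ?_
            source' := ?_
            target' := ?_ }, fun t => ⟨rfl, rfl⟩⟩
  · apply Continuous.subtype_mk
    exact γ.continuous.prodMk (hg.comp_continuous γ.continuous hγ)
  · apply Subtype.ext
    apply Prod.ext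
    · simp
    · simp [hy]
  · apply Subtype.ext
    apply Prod.ext
    · simp
    · simp [hy']

/-- A loop in the graph over a convex set has value one. -/
private theorem g2c_kill {p : ℂ[X][X]} {c : ℂ} {E C : Set ℂ} {g : ℂ → ℂ} (hg : ContinuousOn g C)
    (hroot : ∀ z ∈ C, p.evalEval z (g z) = c) (hCE : ∀ z ∈ C, z ∉ E) (hcv : Convex ℝ C)
    {H : Type} [Group H] (Φ : PF {x : ℂ × ℂ // p.evalEval x.1 x.2 = c ∧ x.1 ∉ E} H)
    (y : {x : ℂ × ℂ // p.evalEval x.1 x.2 = c ∧ x.1 ∉ E}) (q : Path y y)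
    (hq : ∀ t, (q t).1.1 ∈ C ∧ (q t).1.2 = g (q t).1.1) : Φ.val q = 1 := by
  have hy : y.1.1 ∈ C ∧ y.1.2 = g y.1.1 := by
    have h := hq 0
    rwa [q.source] at h
  have hK : ContractibleSpace C := hcv.contractibleSpace ⟨_, hy.1⟩
  let G : C(C, {x : ℂ × ℂ // p.evalEval x.1 x.2 = c ∧ x.1 ∉ E}) :=
    { toFun := fun z => ⟨(z.1, g z.1), hroot _ z.2, hCE _ z.2⟩
      continuous_toFun := by
        apply Continuous.subtype_mk
        exact continuous_subtype_val.prodMk (hg.comp_continuous continuous_subtype_val fun z => z.2) }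
  have hGy : y = G ⟨y.1.1, hy.1⟩ := by
    apply Subtype.ext
    apply Prod.ext
    · rfl
    · exact hy.2
  let q' : Path (⟨y.1.1, hy.1⟩ : C) ⟨y.1.1, hy.1⟩ :=
    { toFun := fun t => ⟨(q t).1.1, (hq t).1⟩
      continuous_toFun := by
        apply Continuous.subtype_mk
        exact continuous_fst.comp (continuous_subtype_val.comp q.continuous)
      source' := by
        apply Subtype.ext
        simp
      target' := by
        apply Subtype.ext
        simp }
  have h1 : q = (q'.map G.continuous).cast hGy hGy := by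
    apply Path.ext
    funext t
    apply Subtype.ext
    apply Prod.ext
    · rfl
    · exact (hq t).2
  have h2 : (Φ.comap G).val q' = 1 := by
    rw [PF.val_eq_of_simplyConnected (Φ.comap G) q' (Path.refl _), PF.val_refl]
  rw [h1, PF.val_cast]
  exact h2

/-- The fundamental group of a fibre off finitely many branch points has finitely generated image.
Proof: `fg_image` for the graphs O (j, a) = {x : x.1 ∈ C j, x.2 = g_(j,a) x.1} (`convex_cover`,
`sections`).  Open: locally they are the complement of the other graphs.  Paths: graph over a segment.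
The intersection of two graphs is the graph over C j ∩ C j' or empty (the set where two of the functions
agree is open and closed in the convex set C j ∩ C j'; it is enough to know this along segments).  A loop
in a graph over a convex set is null homotopic (straight line homotopy in the base). -/
theorem fibre_cover (p : ℂ[X][X]) (hp : p.Monic) (c : ℂ) (E : Set ℂ) (hE : E.Finite)
    (hs : ∀ z, z ∉ E → ∀ u, p.evalEval z u = c → (Polynomial.derivative p).evalEval z u ≠ 0)
    {H : Type} [Group H] (Φ : PF {x : ℂ × ℂ // p.evalEval x.1 x.2 = c ∧ x.1 ∉ E} H)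
    (x : {x : ℂ × ℂ // p.evalEval x.1 x.2 = c ∧ x.1 ∉ E}) :
    ∃ S : Finset H, (Subgroup.closure (S : Set H) : Set H) = {g | ∃ q : Path x x, Φ.val q = g} := by
  obtain ⟨N, C, hC, hcov⟩ := convex_cover E hE
  have hsec := fun j => sections p hp c (C j) (hC j).1 (hC j).2.1
    (fun z hz u hu => hs z ((hC j).2.2 z hz) u hu)
  choose g hg1 hg2 hg3 using hsec
  have hroot : ∀ j a, ∀ z ∈ C j, p.evalEval z (g j a z) = c := fun j a z hz =>
    (hg3 j z hz _).2 ⟨a, rfl⟩
  let O : Fin N × Fin p.natDegree → Set {x : ℂ × ℂ // p.evalEval x.1 x.2 = c ∧ x.1 ∉ E} :=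
    fun i => {x | x.1.1 ∈ C i.1 ∧ x.1.2 = g i.1 i.2 x.1.1}
  have hO : ∀ i, IsOpen (O i) := by
    rintro ⟨j, a⟩
    rw [isOpen_iff_mem_nhds]
    rintro y ⟨hy1, hy2⟩
    simp only at hy1 hy2
    have hfst : Continuous fun x : {x : ℂ × ℂ // p.evalEval x.1 x.2 = c ∧ x.1 ∉ E} => x.1.1 :=
      continuous_fst.comp continuous_subtype_val
    have hsnd : Continuous fun x : {x : ℂ × ℂ // p.evalEval x.1 x.2 = c ∧ x.1 ∉ E} => x.1.2 :=
      continuous_snd.comp continuous_subtype_val
    have h1 : ∀ᶠ x in nhds y, x.1.1 ∈ C j :=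
      hfst.continuousAt.eventually ((hC j).1.mem_nhds hy1)
    have h2 : ∀ᶠ x in nhds y, ∀ b, b ≠ a → x.1.2 ≠ g j b x.1.1 := by
      rw [Filter.eventually_all]
      intro b
      by_cases hb : b = a
      · exact Filter.Eventually.of_forall fun x h => absurd hb h
      · have hne : y.1.2 - g j b y.1.1 ≠ 0 := by
          rw [hy2, sub_ne_zero]
          intro h
          exact hb ((hg2 j y.1.1 hy1) h).symm
        have hga : ContinuousAt (g j b) y.1.1 := (hg1 j b).continuousAt ((hC j).1.mem_nhds hy1)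
        have hc : ContinuousAt (fun x : {x : ℂ × ℂ // p.evalEval x.1 x.2 = c ∧ x.1 ∉ E} =>
            x.1.2 - g j b x.1.1) y :=
          hsnd.continuousAt.sub (ContinuousAt.comp (g := g j b) hga hfst.continuousAt)
        filter_upwards [hc.eventually_ne hne] with x hx _
        exact sub_ne_zero.1 hx
    filter_upwards [h1, h2] with x hx1 hx2
    refine ⟨hx1, ?_⟩
    obtain ⟨b, hb⟩ := (hg3 j x.1.1 hx1 x.1.2).1 x.2.1
    by_cases hba : b = a
    · rw [hba] at hb
      exact hb
    · exact absurd hb (hx2 b hba)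
  refine fg_image Φ x (Fin N × Fin p.natDegree) O hO ?_ ?_ ?_ ?_
  · intro z
    obtain ⟨j, hj⟩ := hcov z.1.1 z.2.2
    obtain ⟨a, ha⟩ := (hg3 j z.1.1 hj z.1.2).1 z.2.1
    exact ⟨(j, a), hj, ha⟩
  · rintro ⟨j, a⟩ y hy y' hy'
    have hpc := (hC j).2.1.isPathConnected ⟨_, hy.1⟩
    obtain ⟨γ, hγ⟩ := hpc.joinedIn _ hy.1 _ hy'.1
    obtain ⟨q, hq⟩ := g2c_lift (hg1 j a) (hroot j a) (hC j).2.2 y y' hy.2 hy'.2 γ hγ
    refine ⟨q, fun t => ?_⟩
    show (q t).1.1 ∈ C j ∧ (q t).1.2 = g j a (q t).1.1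
    rw [(hq t).1, (hq t).2]
    exact ⟨hγ t, rfl⟩
  · rintro ⟨j, a⟩ ⟨k, b⟩ y hy y' hy'
    have hpc := ((hC j).2.1.inter (hC k).2.1).isPathConnected ⟨_, hy.1.1, hy.2.1⟩
    obtain ⟨γ, hγ⟩ := hpc.joinedIn _ ⟨hy.1.1, hy.2.1⟩ _ ⟨hy'.1.1, hy'.2.1⟩
    obtain ⟨q, hq⟩ := g2c_lift (hg1 k b) (hroot k b) (hC k).2.2 y y' hy.2.2 hy'.2.2 γ
      (fun t => (hγ t).2)
    refine ⟨q, fun t => ⟨?_, ?_⟩⟩
    · have hcl : IsClopen {t | q t ∈ O (j, a)} := by
        refine ⟨⟨?_⟩, (hO (j, a)).preimage q.continuous⟩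
        have hcompl : {t | q t ∈ O (j, a)}ᶜ = ⋃ b' ∈ {b' : Fin p.natDegree | b' ≠ a},
            {t | q t ∈ O (j, b')} := by
          ext t
          simp only [Set.mem_compl_iff, Set.mem_ofPred_eq, Set.mem_iUnion, exists_prop]
          have hmem : (q t).1.1 ∈ C j := by
            rw [(hq t).1]
            exact (hγ t).1
          constructor
          · intro h
            obtain ⟨b', hb'⟩ := (hg3 j _ hmem (q t).1.2).1 (q t).2.1
            refine ⟨b', ?_, hmem, hb'⟩
            rintro rfl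
            exact h ⟨hmem, hb'⟩
          · rintro ⟨b', hb', h1⟩ h2
            apply hb'
            apply hg2 j _ hmem
            show g j b' (q t).1.1 = g j a (q t).1.1
            exact h1.2.symm.trans h2.2
        rw [hcompl]
        exact isOpen_biUnion fun b' _ => (hO (j, b')).preimage q.continuous
      have huniv := hcl.eq_univ ⟨0, by
        show q 0 ∈ O (j, a)
        rw [q.source]
        exact hy.1⟩
      have : t ∈ {t | q t ∈ O (j, a)} := by
        rw [huniv]
        trivial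
      exact this
    · show (q t).1.1 ∈ C k ∧ (q t).1.2 = g k b (q t).1.1
      rw [(hq t).1, (hq t).2]
      exact ⟨(hγ t).2, rfl⟩
  · rintro ⟨j, a⟩ y _ q hq
    exact g2c_kill (hg1 j a) (hroot j a) (hC j).2.2 (hC j).2.1 Φ y q hq

end H13J
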