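import Pool.Agent.Lib.H13J.D
import Pool.Agent.Lib.H13J.T1a
import Pool.Agent.Lib.H13J.T1b
import Pool.Agent.Lib.H13J.T1c
import Pool.Agent.Lib.H13J.F0a
import Pool.Agent.Lib.H13J.F0b

set_option autoImplicit false

open scoped unitInterval Polynomial

namespace H13J

open H13K

variable {ι : Type}

/-- Loops over a small disc are, up to homotopy, loops in the fibre.
Proof: `perturb` with T from `comp_ne_zero` (e and P s) and O = the preimage of the ball under hval;
then `Push.push`. -/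
theorem loop_to_fibre [Finite ι] (P : ι → ℂ[X][X]) (hm : ∀ i, (P i).Monic)
    (hirr : ∀ i, Irreducible (P i)) (s : ι) (e : ℂ[X][X]) (he : e ≠ 0) (b : ℂ) (ρ : ℝ)
    (hp : Push P s e b ρ) (x : CX P) (hx : EG P s e x.1) (p : Path x x)
    (hV : ∀ t, hval P s (p t).1 ∈ Metric.ball b ρ) :
    ∃ q : Path x x, (∀ t, hval P s (q t).1 = hval P s x.1 ∧ EG P s e (q t).1) ∧
      p.Homotopic q := by
  have hd : 0 < (P s).natDegree := by
    rcases Nat.eq_zero_or_pos (P s).natDegree with h0 | h0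
    · exfalso
      have h1 : P s = 1 := (hm s).natDegree_eq_zero.1 h0
      exact (hirr s).not_isUnit (h1 ▸ isUnit_one)
    · exact h0
  obtain ⟨T, hT, hTe⟩ := comp_ne_zero e (P s) he (hm s) hd
  have hO : IsOpen {y : ℂ × ℂ | hval P s y ∈ Metric.ball b ρ} :=
    Metric.isOpen_ball.preimage (continuous_evalEval (P s))
  have hx' : T.evalEval x.1.1 x.1.2 ≠ 0 := by
    rw [hTe]
    exact hx
  obtain ⟨q, hq, hpq⟩ := perturb P hm T hT {y : ℂ × ℂ | hval P s y ∈ Metric.ball b ρ} hO x x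
    hx' hx' p hV
  obtain ⟨r, hr, hqr⟩ := hp.push x x q (fun t => ⟨(hq t).1, by
    have h := (hq t).2
    rw [hTe] at h
    exact h⟩) rfl
  exact ⟨r, hr, hpq.trans hqr⟩

end H13J
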