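import Pool.Agent.Lib.H13J.D
import Pool.Agent.Lib.H13J.G2a
import Pool.Agent.Lib.H13J.G2b
import Pool.Agent.Lib.H13J.G2c
import Pool.Agent.Lib.H13J.N1

set_option autoImplicit false

open scoped unitInterval Polynomial

namespace H13J

open H13K

variable {ι : Type}

/-- The fibre subgroup is finitely generated.
Proof: by `loop_to_fibre` (b = hval x) every fibre loop at x has the same value as a fibre loop off the
branch curve; these are the loops of Z = {(z, u) : P s (z, u) = hval x, z ∉ E}, E = {e (z, hval x) = 0},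
which is contained in CX P (Good, hval x ≠ 0): `fibre_cover` for U.comap (inclusion). -/
theorem fibre_fg [Finite ι] (P : ι → ℂ[X][X]) (hm : ∀ i, (P i).Monic)
    (hirr : ∀ i, Irreducible (P i)) (s : ι) (e : ℂ[X][X]) (Bif : Set ℂ) (hB : Branch P s e Bif)
    {G : Type} [Group G] (U : PF (CX P) G) (x : CX P)
    (hx : EG P s e x.1 ∧ hval P s x.1 ∉ Bif) :
    ∃ S : Finset G, (Subgroup.closure (S : Set G) : Set G) =
      {g | ∃ p : Path x x, (∀ t, hval P s (p t).1 = hval P s x.1) ∧ U.val p = g} := by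
  classical
  obtain ⟨hxE, hxB⟩ := hx
  obtain ⟨c, hc⟩ : ∃ c, c = hval P s x.1 := ⟨_, rfl⟩
  rw [← hc] at hxB
  have hc0 : c ≠ 0 := by
    rintro rfl
    exact hxB hB.zero
  obtain ⟨ρ, hρ⟩ := hB.push c hxB
  obtain ⟨E, hE⟩ : ∃ E : Set ℂ, E = {z | e.evalEval z c = 0} := ⟨_, rfl⟩
  have hEf : E.Finite := by
    rw [hE]
    exact hB.finz c hxB
  have hEn : ∀ z, z ∉ E ↔ e.evalEval z c ≠ 0 := by
    intro z
    rw [hE]
    exact Iff.rfl
  have hmem : ∀ y : ℂ × ℂ, (P s).evalEval y.1 y.2 = c ∧ y.1 ∉ E → y ∈ CX P := by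
    rintro y ⟨h1, h2⟩ i
    by_cases hi : i = s
    · rw [hi, h1]
      exact hc0
    · exact (hB.good y.1 c ((hEn _).1 h2) y.2 h1).2 i hi
  have hs : ∀ z, z ∉ E → ∀ u, (P s).evalEval z u = c →
      (Polynomial.derivative (P s)).evalEval z u ≠ 0 := fun z hz u hu =>
    (hB.good z c ((hEn z).1 hz) u hu).1
  let inc : C({y : ℂ × ℂ // (P s).evalEval y.1 y.2 = c ∧ y.1 ∉ E}, CX P) :=
    ⟨fun y => ⟨y.1, hmem y.1 y.2⟩, continuous_subtype_val.subtype_mk _⟩
  have hx1 : (P s).evalEval x.1.1 x.1.2 = c ∧ x.1.1 ∉ E := by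
    refine ⟨hc.symm, (hEn _).2 ?_⟩
    rw [hc]
    exact hxE
  obtain ⟨S, hS⟩ := fibre_cover (P s) (hm s) c E hEf hs (U.comap inc) ⟨x.1, hx1⟩
  refine ⟨S, hS.trans (Set.ext fun g => ?_)⟩
  constructor
  · rintro ⟨q, hq⟩
    refine ⟨q.map inc.continuous, fun t => ?_, hq⟩
    rw [← hc]
    exact (q t).2.1
  · rintro ⟨p, hp, hpg⟩
    obtain ⟨q, hq, hpq⟩ := loop_to_fibre P hm hirr s e hB.ne c ρ hρ x hxE p (fun t => by
      rw [hp t, ← hc]
      exact Metric.mem_ball_self hρ.pos)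
    have hqm : ∀ t, (P s).evalEval (q t).1.1 (q t).1.2 = c ∧ (q t).1.1 ∉ E := by
      intro t
      obtain ⟨h1, h2⟩ := hq t
      rw [← hc] at h1
      refine ⟨h1, (hEn _).2 ?_⟩
      have h3 : e.evalEval (q t).1.1 (hval P s (q t).1) ≠ 0 := h2
      rwa [h1] at h3
    refine ⟨⟨⟨fun t => ⟨(q t).1, hqm t⟩, (continuous_subtype_val.comp q.continuous).subtype_mk _⟩, ?_, ?_⟩, ?_⟩
    · apply Subtype.ext
      change (q 0).1 = x.1
      rw [q.source]
    · apply Subtype.ext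
      change (q 1).1 = x.1
      rw [q.target]
    · rw [← hpg, U.homot hpq]
      change U.val (Path.map _ inc.continuous) = U.val q
      congr 1

end H13J
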