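import Pool.Agent.Lib.H13J.D

set_option autoImplicit false

open scoped unitInterval Polynomial

namespace H13J

open H13K

variable {ι : Type}

/-- A monic polynomial all of whose multiplicities are divisible by `k` is a `k`-th power. -/
private theorem m1a_pow (k : ℕ) : ∀ (d : ℕ) (P : ℂ[X][X]), P.natDegree = d → P.Monic →
    (∀ g : ℂ[X][X], g.Monic → Irreducible g → ∀ m : ℕ, g ^ m ∣ P → ¬ g ^ (m + 1) ∣ P → k ∣ m) →
    ∃ G : ℂ[X][X], G.Monic ∧ P = G ^ k := by
  intro d
  induction d using Nat.strong_induction_on with
  | _ d ih =>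
    intro P hd hP hk
    by_cases hu : IsUnit P
    · refine ⟨1, Polynomial.monic_one, ?_⟩
      rw [one_pow]
      exact hP.eq_one_of_isUnit hu
    · obtain ⟨h, hirr, hdvd⟩ := WfDvdMonoid.exists_irreducible_factor hu hP.ne_zero
      obtain ⟨q, hq⟩ := hdvd
      have hlc : h.leadingCoeff * q.leadingCoeff = 1 := by
        rw [← Polynomial.leadingCoeff_mul, ← hq]
        exact hP
      have hul : IsUnit h.leadingCoeff := IsUnit.of_mul_eq_one _ hlc
      set g : ℂ[X][X] := Polynomial.C q.leadingCoeff * h with hg
      have huq : IsUnit (Polynomial.C q.leadingCoeff : ℂ[X][X]) := by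
        apply Polynomial.isUnit_C.2
        exact IsUnit.of_mul_eq_one _ (by rw [mul_comm]; exact hlc)
      have hgm : g.Monic := by
        unfold Polynomial.Monic
        rw [hg, Polynomial.leadingCoeff_mul, Polynomial.leadingCoeff_C, mul_comm]
        exact hlc
      have hass : Associated h g := by
        obtain ⟨u, hu'⟩ := huq
        exact ⟨u, by rw [hg, ← hu', mul_comm]⟩
      have hgi : Irreducible g := hass.irreducible hirr
      have hgP : g ∣ P := hass.symm.dvd.trans ⟨q, hq⟩
      have hfin : FiniteMultiplicity g P := FiniteMultiplicity.of_not_isUnit hgi.not_isUnit hP.ne_zero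
      obtain ⟨P', hP', hnd⟩ := hfin.exists_eq_pow_mul_and_not_dvd
      set m := multiplicity g P with hm
      have hmpos : m ≠ 0 := by
        intro h0
        rw [h0, pow_zero, one_mul] at hP'
        rw [← hP'] at hnd
        exact hnd hgP
      have hkm : k ∣ m := by
        refine hk g hgm hgi m ⟨P', hP'⟩ ?_
        rintro ⟨c, hc⟩
        apply hnd
        have hne : g ^ m ≠ 0 := (hgm.pow m).ne_zero
        refine ⟨c, ?_⟩
        apply mul_left_cancel₀ hne
        rw [← hP', hc]
        ring
      have hP'm : P'.Monic := Polynomial.Monic.of_mul_monic_left (hgm.pow m) (by rw [← hP']; exact hP)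
      have hgd : 0 < g.natDegree := by
        rcases Nat.eq_zero_or_pos g.natDegree with h0 | h0
        · exfalso
          have := hgm.natDegree_eq_zero.1 h0
          exact hgi.not_isUnit (by rw [this]; exact isUnit_one)
        · exact h0
      have hdeg : P.natDegree = m * g.natDegree + P'.natDegree := by
        conv_lhs => rw [hP']
        rw [(hgm.pow m).natDegree_mul hP'm, hgm.natDegree_pow]
      have hlt : P'.natDegree < d := by
        rw [← hd, hdeg]
        have : 0 < m * g.natDegree := Nat.mul_pos (Nat.pos_of_ne_zero hmpos) hgd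
        omega
      obtain ⟨G', hG', hPG⟩ := ih P'.natDegree hlt P' rfl hP'm (by
        intro g' hg'm hg'i j hj1 hj2
        by_cases hgg : g' ∣ g
        · have ha : Associated g' g := hg'i.associated_of_dvd hgi hgg
          have he : g' = g := Polynomial.eq_of_monic_of_associated hg'm hgm ha
          have hj : j = 0 := by
            by_contra hj0
            apply hnd
            rw [← he]
            exact (dvd_pow_self g' hj0).trans hj1
          rw [hj]
          exact dvd_zero k
        · have hpr : Prime g' := hg'i.prime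
          have hnp : ¬ g' ∣ g ^ m := fun h => hgg (hpr.dvd_of_dvd_pow h)
          refine hk g' hg'm hg'i j ?_ ?_
          · rw [hP']
            exact hj1.mul_left _
          · intro h
            rw [hP'] at h
            exact hj2 (hpr.pow_dvd_of_dvd_mul_left (j + 1) hnp h))
      obtain ⟨m', hm'⟩ := hkm
      refine ⟨g ^ m' * G', (hgm.pow m').mul hG', ?_⟩
      rw [mul_pow, ← pow_mul, mul_comm m' k, ← hm', ← hPG]
      exact hP'

/-- Multiplicities of the fibres have no common divisor.
Proof: p irreducible, b ≠ 0.  If k ≥ 2 divides the multiplicity of every monic irreducible factor of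
p - b, then p - b = g ^ k with g monic (unique factorisation, monic), so p = g ^ k + b is the product of
the k polynomials g - ζ, ζ ^ k = -b, none of them a unit: contradiction.  State: if a group element has
order dividing all multiplicities it is trivial. -/
theorem gcd_mult (p : ℂ[X][X]) (hp : p.Monic) (hpi : Irreducible p) (b : ℂ) (hb : b ≠ 0) (k : ℕ)
    (hk : ∀ g : ℂ[X][X], g.Monic → Irreducible g → ∀ m : ℕ,
      g ^ m ∣ p - Polynomial.C (Polynomial.C b) →
      ¬ g ^ (m + 1) ∣ p - Polynomial.C (Polynomial.C b) → k ∣ m) : k = 1 := by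
  have hpd : 0 < p.natDegree := by
    rcases Nat.eq_zero_or_pos p.natDegree with h0 | h0
    · exfalso
      have := hp.natDegree_eq_zero.1 h0
      exact hpi.not_isUnit (by rw [this]; exact isUnit_one)
    · exact h0
  have hsub : ∀ (P : ℂ[X][X]) (c : ℂ), P.Monic → 0 < P.natDegree →
      (P - Polynomial.C (Polynomial.C c)).Monic ∧
        (P - Polynomial.C (Polynomial.C c)).natDegree = P.natDegree := by
    intro P c hP hd
    refine ⟨?_, Polynomial.natDegree_sub_C⟩
    apply hP.sub_of_left
    refine lt_of_le_of_lt Polynomial.degree_C_le ?_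
    rw [Polynomial.degree_eq_natDegree hP.ne_zero]
    exact_mod_cast hd
  obtain ⟨hPm, hPd⟩ := hsub p b hp hpd
  obtain ⟨G, hG, hPG⟩ := m1a_pow k _ _ rfl hPm hk
  have hdeg : p.natDegree = k * G.natDegree := by
    rw [← hPd, hPG, hG.natDegree_pow]
  have hk0 : k ≠ 0 := by
    rintro rfl
    rw [zero_mul] at hdeg
    omega
  have hGd : 0 < G.natDegree := by
    rcases Nat.eq_zero_or_pos G.natDegree with h0 | h0
    · rw [h0, mul_zero] at hdeg
      omega
    · exact h0
  obtain ⟨ζ, hζ⟩ := IsAlgClosed.exists_pow_nat_eq (-b) (Nat.pos_of_ne_zero hk0)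
  have hdvd : (G - Polynomial.C (Polynomial.C ζ)) ∣ p := by
    have h1 : p = G ^ k - (Polynomial.C (Polynomial.C ζ)) ^ k := by
      rw [← hPG, ← Polynomial.C_pow, ← Polynomial.C_pow, hζ]
      simp
    rw [h1]
    exact sub_dvd_pow_sub_pow _ _ k
  obtain ⟨q, hq⟩ := hdvd
  obtain ⟨hGm, hGd'⟩ := hsub G ζ hG hGd
  rcases hpi.isUnit_or_isUnit hq with h | h
  · exfalso
    have := Polynomial.natDegree_eq_zero_of_isUnit h
    omega
  · have hqd := Polynomial.natDegree_eq_zero_of_isUnit h
    have hqm : q.Monic := Polynomial.Monic.of_mul_monic_left hGm (by rw [← hq]; exact hp)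
    have h2 : p.natDegree = (G - Polynomial.C (Polynomial.C ζ)).natDegree + q.natDegree := by
      conv_lhs => rw [hq]
      rw [hGm.natDegree_mul hqm]
    rw [hGd', hqd, add_zero, hdeg] at h2
    have h3 : k * G.natDegree = 1 * G.natDegree := by rw [h2, one_mul]
    exact Nat.eq_of_mul_eq_mul_right hGd h3

end H13J
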