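import Pool.Agent.Lib.H13J.D
import Pool.Agent.Lib.H13K.K1
import Pool.Agent.Lib.H13K.K2

set_option autoImplicit false

open scoped unitInterval Polynomial

namespace H13J

open H13K

variable {ι : Type}

private theorem M1b_coprime {K : Type} [Field K] {a b : K[X]} (ha : Irreducible a) (h : ¬ a ∣ b) :
    IsCoprime a b := ha.coprime_iff_not_dvd.2 h

private theorem M1b_bezout {p q : ℂ[X][X]} (hp : p.Monic) (hirr : Irreducible p)
    (hc : IsCoprime (p.map (algebraMap ℂ[X] (FractionRing ℂ[X])))
      (q.map (algebraMap ℂ[X] (FractionRing ℂ[X])))) :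
    ∃ r : ℂ[X], r ≠ 0 ∧ ∀ z w, r.eval z ≠ 0 → p.evalEval z w = 0 → q.evalEval z w ≠ 0 := by
  have hinj : Function.Injective (algebraMap ℂ[X] (FractionRing ℂ[X])) :=
    IsFractionRing.injective _ _
  have hdeg : p.natDegree ≠ 0 := by
    intro h0
    have h1 := Polynomial.eq_one_of_monic_natDegree_zero hp h0
    exact hirr.not_isUnit (h1 ▸ isUnit_one)
  obtain ⟨a, b, _, _, e⟩ := Polynomial.exists_mul_add_mul_eq_C_resultant p q le_rfl le_rfl
    (Or.inl hdeg)
  refine ⟨p.resultant q, ?_, fun z w hr hpz hqz => hr ?_⟩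
  · intro h0
    have h1 := (Polynomial.isUnit_resultant_iff_isCoprime (hp.map _)).2 hc
    rw [Polynomial.natDegree_map_eq_of_injective hinj, Polynomial.natDegree_map_eq_of_injective hinj,
      Polynomial.resultant_map_map, h0, map_zero] at h1
    exact not_isUnit_zero h1
  · have h1 := congrArg (fun f : ℂ[X][X] => f.evalEval z w) e
    simp only [Polynomial.evalEval_add, Polynomial.evalEval_mul, Polynomial.evalEval_C, hpz, hqz,
      zero_mul, add_zero] at h1
    exact h1.symm

private theorem M1b_ev (q : ℂ[X][X]) (z w : ℂ) : (q.map (Polynomial.evalRingHom z)).eval w = q.evalEval z w := by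
  rw [Polynomial.evalEval, Polynomial.eval_map, Polynomial.eval₂_evalRingHom]

/-- A generic point of a factor: p - b = g ^ m * q, g not dividing q: there is (z, u) with g (z, u) = 0,
simple root of g (z, .), and q (z, u) ≠ 0 (discriminant and resultant are nonzero polynomials in z; q and
g are coprime over the rational functions, natDegree g ≥ 1), and then w ↦ p (z, w) - b has a zero
of order exactly m at u. -/
theorem generic_point (p g q : ℂ[X][X]) (b : ℂ) (m : ℕ) (hg : g.Monic) (hgi : Irreducible g)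
    (h : p - Polynomial.C (Polynomial.C b) = g ^ m * q) (hq : ¬ g ∣ q) :
    ∃ (z u : ℂ) (Q : ℂ[X]), Q.eval u ≠ 0 ∧
      ∀ w, p.evalEval z w - b = (w - u) ^ m * Q.eval w := by
  have hinj : Function.Injective (algebraMap ℂ[X] (FractionRing ℂ[X])) := IsFractionRing.injective _ _
  have hgi' : Irreducible (g.map (algebraMap ℂ[X] (FractionRing ℂ[X]))) :=
    (hg.irreducible_iff_irreducible_map_fraction_map).1 hgi
  -- simple roots
  have hs' : IsCoprime (g.map (algebraMap ℂ[X] (FractionRing ℂ[X])))
      ((Polynomial.derivative g).map (algebraMap ℂ[X] (FractionRing ℂ[X]))) := by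
    rw [← Polynomial.derivative_map]
    exact hgi'.separable
  obtain ⟨r1, hr1, h1⟩ := M1b_bezout hg hgi hs'
  -- no common roots with `q`
  have hq' : IsCoprime (g.map (algebraMap ℂ[X] (FractionRing ℂ[X])))
      (q.map (algebraMap ℂ[X] (FractionRing ℂ[X]))) :=
    M1b_coprime hgi' fun hd => hq ((Polynomial.map_dvd_map _ hinj hg).1 hd)
  obtain ⟨r2, hr2, h2⟩ := M1b_bezout hg hgi hq'
  obtain ⟨z, hz⟩ : ∃ z : ℂ, (r1 * r2).eval z ≠ 0 := by
    by_contra hcon
    push Not at hcon
    exact mul_ne_zero hr1 hr2 (Polynomial.funext fun z => by rw [hcon z, Polynomial.eval_zero])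
  rw [Polynomial.eval_mul] at hz
  have hz1 : r1.eval z ≠ 0 := left_ne_zero_of_mul hz
  have hz2 : r2.eval z ≠ 0 := right_ne_zero_of_mul hz
  have hdeg : g.natDegree ≠ 0 := by
    intro h0
    have h3 := Polynomial.eq_one_of_monic_natDegree_zero hg h0
    exact hgi.not_isUnit (h3 ▸ isUnit_one)
  have hmon : (g.map (Polynomial.evalRingHom z)).Monic := hg.map _
  have hdeg' : (g.map (Polynomial.evalRingHom z)).degree ≠ 0 := by
    intro h0
    have h3 : (g.map (Polynomial.evalRingHom z)).natDegree = 0 := Polynomial.natDegree_eq_of_degree_eq_some h0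
    rw [hg.natDegree_map] at h3
    exact hdeg h3
  obtain ⟨u, hu⟩ := IsAlgClosed.exists_root (g.map (Polynomial.evalRingHom z)) hdeg'
  have hgu : g.evalEval z u = 0 := by
    rw [← M1b_ev]
    exact hu
  obtain ⟨H, hH⟩ := Polynomial.dvd_iff_isRoot.2 hu
  have hHu : H.eval u ≠ 0 := by
    intro h0
    apply h1 z u hz1 hgu
    rw [← M1b_ev, ← Polynomial.derivative_map, hH]
    simp [h0]
  refine ⟨z, u, H ^ m * q.map (Polynomial.evalRingHom z), ?_, fun w => ?_⟩
  · rw [Polynomial.eval_mul, Polynomial.eval_pow, M1b_ev]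
    exact mul_ne_zero (pow_ne_zero _ hHu) (h2 z u hz2 hgu)
  · have h3 := congrArg (fun f : ℂ[X][X] => f.evalEval z w) h
    simp only [Polynomial.evalEval_sub, Polynomial.evalEval_mul, Polynomial.evalEval_pow, Polynomial.evalEval_C,
      Polynomial.eval_C] at h3
    rw [h3, ← M1b_ev g, hH, Polynomial.eval_mul, Polynomial.eval_mul, Polynomial.eval_pow, M1b_ev q,
      Polynomial.eval_sub, Polynomial.eval_X, Polynomial.eval_C, mul_pow, mul_assoc]

end H13J
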