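import Pool.Agent.Lib.H13J.D
import Pool.Agent.Lib.H13K.T6a
import Pool.Agent.Lib.H13K.T2

set_option autoImplicit false

open scoped unitInterval Polynomial

namespace H13J

open H13K

variable {ι : Type}

private theorem m2a_lt {ρ s u v : ℝ} (hs : s ∈ I) (hu : Real.exp u < ρ) (hv : Real.exp v < ρ) :
    Real.exp ((1 - s) * u + s * v) < ρ := by
  have hρ : 0 < ρ := lt_trans (Real.exp_pos _) hu
  rw [← Real.lt_log_iff_exp_lt hρ] at hu hv ⊢
  have h0 : 0 ≤ s := hs.1
  have h1 : 0 ≤ 1 - s := by linarith [hs.2]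
  rcases eq_or_lt_of_le h0 with h | h
  · rw [← h]
    simpa using hu
  · nlinarith [mul_lt_mul_of_pos_left hv h, mul_le_mul_of_nonneg_left hu.le h1]

/-- Paths in a punctured disc are classified by the logarithm.
Proof: ℓp, ℓq continuous logarithms of p - b, q - b with equal end values; the straight homotopy of the
logarithms stays in {Re < log ρ}; apply b + exp. -/
theorem pdisc (b : ℂ) (ρ : ℝ) {x y : {c : ℂ // c ∈ Metric.ball b ρ ∧ c ≠ b}} (p q : Path x y)
    (ℓp ℓq : C(I, ℂ)) (hp : ∀ t, Complex.exp (ℓp t) = (p t).1 - b)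
    (hq : ∀ t, Complex.exp (ℓq t) = (q t).1 - b) (h0 : ℓp 0 = ℓq 0) (h1 : ℓp 1 = ℓq 1) :
    p.Homotopic q := by
  have hpn : ∀ t, Real.exp (ℓp t).re < ρ := by
    intro t
    have h := (p t).2.1
    rw [Metric.mem_ball, dist_eq_norm, ← hp t, Complex.norm_exp] at h
    exact h
  have hqn : ∀ t, Real.exp (ℓq t).re < ρ := by
    intro t
    have h := (q t).2.1
    rw [Metric.mem_ball, dist_eq_norm, ← hq t, Complex.norm_exp] at h
    exact h
  have hmem : ∀ z : I × I,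
      b + Complex.exp (((1 - (z.1 : ℝ) : ℝ) : ℂ) * ℓp z.2 + ((z.1 : ℝ) : ℂ) * ℓq z.2) ∈
        Metric.ball b ρ ∧
      b + Complex.exp (((1 - (z.1 : ℝ) : ℝ) : ℂ) * ℓp z.2 + ((z.1 : ℝ) : ℂ) * ℓq z.2) ≠ b := by
    intro z
    constructor
    · rw [Metric.mem_ball, dist_eq_norm, add_sub_cancel_left, Complex.norm_exp]
      have h : (((1 - (z.1 : ℝ) : ℝ) : ℂ) * ℓp z.2 + ((z.1 : ℝ) : ℂ) * ℓq z.2).re =
          (1 - (z.1 : ℝ)) * (ℓp z.2).re + (z.1 : ℝ) * (ℓq z.2).re := by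
        rw [Complex.add_re, Complex.re_ofReal_mul, Complex.re_ofReal_mul]
      rw [h]
      exact m2a_lt z.1.2 (hpn z.2) (hqn z.2)
    · intro h
      exact Complex.exp_ne_zero _ (add_eq_left.1 h)
  refine ⟨{ toFun := fun z => ⟨_, hmem z⟩, continuous_toFun := ?_, map_zero_left := ?_,
            map_one_left := ?_, prop' := ?_ }⟩
  · apply Continuous.subtype_mk
    fun_prop
  · intro t
    apply Subtype.ext
    show b + Complex.exp (((1 - ((0 : I) : ℝ) : ℝ) : ℂ) * ℓp t + (((0 : I) : ℝ) : ℂ) * ℓq t) = (p t).1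
    have h := hp t
    simp [h]
  · intro t
    apply Subtype.ext
    show b + Complex.exp (((1 - ((1 : I) : ℝ) : ℝ) : ℂ) * ℓp t + (((1 : I) : ℝ) : ℂ) * ℓq t) = (q t).1
    have h := hq t
    simp [h]
  · intro s t ht
    apply Subtype.ext
    show b + Complex.exp (((1 - (s : ℝ) : ℝ) : ℂ) * ℓp t + ((s : ℝ) : ℂ) * ℓq t) = (p t).1
    have h2 : ℓq t = ℓp t := by
      rcases ht with ht | ht
      · rw [ht]; exact h0.symm
      · rw [Set.mem_singleton_iff] at ht
        rw [ht]; exact h1.symm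
    have h3 : ((1 - (s : ℝ) : ℝ) : ℂ) * ℓp t + ((s : ℝ) : ℂ) * ℓp t = ℓp t := by
      push_cast
      ring
    rw [h2, h3, hp t]
    ring

end H13J
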