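import Pool.Agent.Lib.H13J.D
import Pool.Agent.Lib.H13J.M1b

set_option autoImplicit false

open scoped unitInterval Polynomial

namespace H13J

open H13K

variable {ι : Type}

/-- A small circle in a fibre line around a generic point of the factor g: null homotopic over the
whole disc, and the winding number of p - b along it is the multiplicity m.
Proof: `generic_point`; the circle w = u + a exp(2 pi i t), a small: all values p (z, w) in ball b ρ,
Q (w) ≠ 0; log of (w - u) ^ m Q (w): m (log a + 2 pi i t) + log Q (u) + log (Q (w) / Q (u)). -/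
theorem fibre_circle (p g q : ℂ[X][X]) (b : ℂ) (m : ℕ) (hg : g.Monic) (hgi : Irreducible g)
    (h : p - Polynomial.C (Polynomial.C b) = g ^ m * q) (hq : ¬ g ∣ q) (hm : 0 < m) (ρ : ℝ)
    (hρ : 0 < ρ) :
    ∃ (z u a : ℂ), a ≠ 0 ∧ (∀ w : ℂ, ‖w - u‖ ≤ ‖a‖ → p.evalEval z w ∈ Metric.ball b ρ) ∧
      (∀ w : ℂ, ‖w - u‖ ≤ ‖a‖ → w ≠ u → p.evalEval z w ≠ b) ∧
      ∃ ℓ : C(I, ℂ), (∀ t : I, Complex.exp (ℓ t) = p.evalEval z
        (u + a * Complex.exp (2 * Real.pi * (t : ℝ) * Complex.I)) - b) ∧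
        ℓ 1 - ℓ 0 = 2 * Real.pi * Complex.I * (m : ℂ) := by
  obtain ⟨z, u, Q, hQ, hp⟩ := generic_point p g q b m hg hgi h hq
  have hpc : Continuous fun w : ℂ => p.evalEval z w :=
    (continuous_evalEval p).comp (continuous_const.prodMk continuous_id)
  have hQc : Continuous fun w : ℂ => Q.eval w / Q.eval u := Q.continuous.div_const _
  have hpu : p.evalEval z u = b := by
    have h1 := hp u
    rw [sub_self, zero_pow hm.ne', zero_mul] at h1
    exact sub_eq_zero.1 h1
  have h1 : ∀ᶠ w in nhds u, p.evalEval z w ∈ Metric.ball b ρ := by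
    refine hpc.continuousAt.eventually (Metric.isOpen_ball.mem_nhds ?_)
    show p.evalEval z u ∈ Metric.ball b ρ
    rw [hpu]
    exact Metric.mem_ball_self hρ
  have h2 : ∀ᶠ w in nhds u, Q.eval w / Q.eval u ∈ Metric.ball (1 : ℂ) 1 := by
    refine hQc.continuousAt.eventually (Metric.isOpen_ball.mem_nhds ?_)
    show Q.eval u / Q.eval u ∈ Metric.ball (1 : ℂ) 1
    rw [div_self hQ]
    exact Metric.mem_ball_self one_pos
  obtain ⟨δ, hδ, hδ2⟩ := Metric.eventually_nhds_iff.1 (h1.and h2)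
  have hna : ‖((δ / 2 : ℝ) : ℂ)‖ = δ / 2 := by
    rw [Complex.norm_real, Real.norm_of_nonneg (by positivity)]
  have ha : ((δ / 2 : ℝ) : ℂ) ≠ 0 := by
    intro h0
    rw [h0, norm_zero] at hna
    linarith
  have hw : ∀ w : ℂ, ‖w - u‖ ≤ ‖((δ / 2 : ℝ) : ℂ)‖ →
      p.evalEval z w ∈ Metric.ball b ρ ∧ Q.eval w / Q.eval u ∈ Metric.ball (1 : ℂ) 1 := by
    intro w hw
    apply hδ2
    rw [dist_eq_norm]
    rw [hna] at hw
    linarith
  have hQw : ∀ w : ℂ, ‖w - u‖ ≤ ‖((δ / 2 : ℝ) : ℂ)‖ → Q.eval w ≠ 0 := by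
    intro w hw1 h0
    have h3 := (hw w hw1).2
    rw [h0, zero_div, Metric.mem_ball, dist_eq_norm, zero_sub, norm_neg, norm_one] at h3
    exact lt_irrefl _ h3
  have hcirc : ∀ t : I, ‖(u + ((δ / 2 : ℝ) : ℂ) * Complex.exp (2 * Real.pi * (t : ℝ) * Complex.I)) - u‖ ≤
      ‖((δ / 2 : ℝ) : ℂ)‖ := by
    intro t
    rw [add_sub_cancel_left, norm_mul, norm_circ, mul_one]
  refine ⟨z, u, ((δ / 2 : ℝ) : ℂ), ha, fun w hw1 => (hw w hw1).1, fun w hw1 hwu h0 => ?_, ?_⟩
  · have h3 := hp w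
    rw [h0, sub_self] at h3
    rcases mul_eq_zero.1 h3.symm with h4 | h4
    · exact hwu (sub_eq_zero.1 (pow_eq_zero_iff hm.ne' |>.1 h4))
    · exact hQw w hw1 h4
  · have hslit : ∀ t : I, Q.eval (u + ((δ / 2 : ℝ) : ℂ) * Complex.exp (2 * Real.pi * (t : ℝ) * Complex.I)) /
        Q.eval u ∈ Complex.slitPlane := by
      intro t
      have h3 := (hw _ (hcirc t)).2
      rw [Metric.mem_ball, dist_eq_norm] at h3
      have h4 := Complex.mem_slitPlane_of_norm_lt_one h3
      rwa [add_sub_cancel] at h4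
    have hcont : Continuous fun t : I => (m : ℂ) * (Complex.log ((δ / 2 : ℝ) : ℂ) +
        2 * Real.pi * (t : ℝ) * Complex.I) + Complex.log (Q.eval u) +
        Complex.log (Q.eval (u + ((δ / 2 : ℝ) : ℂ) * Complex.exp (2 * Real.pi * (t : ℝ) * Complex.I)) /
          Q.eval u) := by
      refine Continuous.add (by fun_prop) (Continuous.clog ?_ hslit)
      exact hQc.comp (by fun_prop)
    refine ⟨⟨_, hcont⟩, fun t => ?_, ?_⟩
    · simp only [ContinuousMap.coe_mk]
      rw [Complex.exp_add, Complex.exp_add, Complex.exp_nat_mul, Complex.exp_add, Complex.exp_log ha,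
        Complex.exp_log hQ, Complex.exp_log (Complex.slitPlane_ne_zero (hslit t)), hp, add_sub_cancel_left]
      rw [mul_assoc, mul_div_cancel₀ _ hQ]
    · simp only [ContinuousMap.coe_mk]
      have e1 : Complex.exp (2 * Real.pi * ((1 : I) : ℝ) * Complex.I) = 1 := by
        simp [Complex.exp_two_pi_mul_I]
      have e0 : Complex.exp (2 * Real.pi * ((0 : I) : ℝ) * Complex.I) = 1 := by
        simp
      rw [e1, e0]
      rw [Set.Icc.coe_one, Set.Icc.coe_zero]
      push_cast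
      ring

end H13J
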