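import Pool.Agent.Lib.H13J.D
import Pool.Agent.Lib.H13J.M2a
import Pool.Agent.Lib.H13J.C3
import Pool.Agent.Lib.H13K.T1b

set_option autoImplicit false

open scoped unitInterval Polynomial

namespace H13J

open H13K

variable {ι : Type}

/-- Over the punctured disc the value of a loop only depends on its winding number.
Proof: V* = {c // c ∈ ball b ρ ∧ c ≠ b}, X* = {x : ℂ × ℂ // p x ∈ V*}, j : X* → V*.  `extend` (T1b.lean)
for j and the pull back of U to X* (X* is contained in XS p S by hS), family of open sets: all small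
balls inside V* of radius at most the radii of hk' and of `conn_ball` at the centre (a basis; nonempty
preimages: p (0, .) is onto; path connected preimages: `conn_ball`; killed: hk').  The images of q and
q' in V* are homotopic by `pdisc` (add a constant 2 pi i k to ℓ' so that the values at 0 agree). -/
theorem value_log (p : ℂ[X][X]) (hp : p.Monic) (hpi : Irreducible p) (S : Finset ℂ)
    {G : Type} [Group G] (U : PF (XS p S) G) (b : ℂ) (ρ : ℝ) (hρ : 0 < ρ)
    (hS : ∀ c ∈ S, c ∉ Metric.ball b ρ)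
    (hk : ∀ c ∈ Metric.ball b ρ, c ≠ b → ∃ ρ' : ℝ, 0 < ρ' ∧ ∀ (y : XS p S) (q : Path y y),
      (∀ t, p.evalEval (q t).1.1 (q t).1.2 ∈ Metric.ball c ρ') → U.val q = 1)
    (y : XS p S) (q q' : Path y y)
    (hq : ∀ t, p.evalEval (q t).1.1 (q t).1.2 ∈ Metric.ball b ρ ∧
      p.evalEval (q t).1.1 (q t).1.2 ≠ b)
    (hq' : ∀ t, p.evalEval (q' t).1.1 (q' t).1.2 ∈ Metric.ball b ρ ∧
      p.evalEval (q' t).1.1 (q' t).1.2 ≠ b)
    (ℓ ℓ' : C(I, ℂ)) (hl : ∀ t, Complex.exp (ℓ t) = p.evalEval (q t).1.1 (q t).1.2 - b)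
    (hl' : ∀ t, Complex.exp (ℓ' t) = p.evalEval (q' t).1.1 (q' t).1.2 - b)
    (h : ℓ 1 - ℓ 0 = ℓ' 1 - ℓ' 0) : U.val q = U.val q' := by
  -- the spaces
  let Xs : Type := {x : ℂ × ℂ // p.evalEval x.1 x.2 ∈ Metric.ball b ρ ∧ p.evalEval x.1 x.2 ≠ b}
  let Vs : Type := {c : ℂ // c ∈ Metric.ball b ρ ∧ c ≠ b}
  let j : C(Xs, Vs) :=
    { toFun := fun x => ⟨p.evalEval x.1.1 x.1.2, x.2⟩
      continuous_toFun := by
        apply Continuous.subtype_mk
        exact (continuous_evalEval p).comp continuous_subtype_val }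
  let inc : C(Xs, XS p S) :=
    { toFun := fun x => ⟨x.1, fun hx => hS _ hx x.2.1⟩
      continuous_toFun := by
        apply Continuous.subtype_mk
        exact continuous_subtype_val }
  -- the family of small balls
  let Ub : Set (Set Vs) := {u | ∃ (c : ℂ) (r : ℝ), 0 < r ∧
    (∀ z ∈ Metric.ball c r, z ∈ Metric.ball b ρ ∧ z ≠ b) ∧
    IsPathConnected {x : ℂ × ℂ | p.evalEval x.1 x.2 ∈ Metric.ball c r} ∧
    (∀ (y : XS p S) (q : Path y y),
      (∀ t, p.evalEval (q t).1.1 (q t).1.2 ∈ Metric.ball c r) → U.val q = 1) ∧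
    u = {v : Vs | v.1 ∈ Metric.ball c r}}
  have hopen : ∀ u ∈ Ub, IsOpen u := by
    rintro u ⟨c, r, -, -, -, -, rfl⟩
    exact Metric.isOpen_ball.preimage continuous_subtype_val
  have hbasis : ∀ (v : Vs) (o : Set Vs), IsOpen o → v ∈ o → ∃ u ∈ Ub, v ∈ u ∧ u ⊆ o := by
    intro v o ho hv
    obtain ⟨o', ho', rfl⟩ := isOpen_induced_iff.1 ho
    obtain ⟨r1, hr1, hk1⟩ := hk v.1 v.2.1 v.2.2
    obtain ⟨r2, hr2, hk2⟩ := conn_ball p hp hpi v.1
    obtain ⟨r3, hr3, hk3⟩ := Metric.isOpen_iff.1 ho' v.1 hv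
    have hop : IsOpen (Metric.ball b ρ ∩ {z | z ≠ b}) :=
      Metric.isOpen_ball.inter isOpen_ne
    obtain ⟨r4, hr4, hk4⟩ := Metric.isOpen_iff.1 hop v.1 v.2
    obtain ⟨r, hr, h1, h2, h3, h4⟩ : ∃ r : ℝ, 0 < r ∧ r ≤ r1 ∧ r ≤ r2 ∧ r ≤ r3 ∧ r ≤ r4 :=
      ⟨min (min r1 r2) (min r3 r4), by positivity, (min_le_left _ _).trans (min_le_left _ _),
        (min_le_left _ _).trans (min_le_right _ _), (min_le_right _ _).trans (min_le_left _ _),
        (min_le_right _ _).trans (min_le_right _ _)⟩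
    refine ⟨{w : Vs | w.1 ∈ Metric.ball v.1 r}, ⟨v.1, r, hr,
      fun z hz => hk4 (Metric.ball_subset_ball h4 hz), (hk2 r hr h2).1, fun y q hy =>
        hk1 y q fun t => Metric.ball_subset_ball h1 (hy t), rfl⟩, Metric.mem_ball_self hr, ?_⟩
    intro w hw
    exact hk3 (Metric.ball_subset_ball h3 hw)
  have hne : ∀ u ∈ Ub, ∃ x : Xs, j x ∈ u := by
    rintro u ⟨c, r, hr, h1, h2, -, rfl⟩
    obtain ⟨x, hx⟩ := h2.nonempty
    exact ⟨⟨x, h1 _ hx⟩, hx⟩
  have hpc : ∀ u ∈ Ub, ∀ x x' : Xs, j x ∈ u → j x' ∈ u →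
      ∃ p : Path x x', ∀ t, j (p t) ∈ u := by
    rintro u ⟨c, r, hr, h1, h2, -, rfl⟩ x x' hx hx'
    obtain ⟨γ, hγ⟩ := h2.joinedIn x.1 hx x'.1 hx'
    refine ⟨{ toFun := fun t => ⟨γ t, h1 _ (hγ t)⟩
              continuous_toFun := by
                apply Continuous.subtype_mk
                exact γ.continuous
              source' := Subtype.ext γ.source
              target' := Subtype.ext γ.target }, fun t => hγ t⟩
  have hkill : ∀ u ∈ Ub, ∀ (x : Xs) (p : Path x x), (∀ t, j (p t) ∈ u) →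
      (U.comap inc).val p = 1 := by
    rintro u ⟨c, r, hr, h1, h2, h3, rfl⟩ x γ hγ
    exact h3 (inc x) (γ.map inc.continuous) fun t => hγ t
  -- the loops
  let ys : Xs := ⟨y.1, by
    have h1 := hq 0
    rw [q.source] at h1
    exact h1⟩
  let lift : ∀ (γ : Path y y), (∀ t, p.evalEval (γ t).1.1 (γ t).1.2 ∈ Metric.ball b ρ ∧
      p.evalEval (γ t).1.1 (γ t).1.2 ≠ b) → Path ys ys := fun γ hγ =>
    { toFun := fun t => ⟨(γ t).1, hγ t⟩
      continuous_toFun := by
        apply Continuous.subtype_mk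
        exact continuous_subtype_val.comp γ.continuous
      source' := Subtype.ext (show (γ 0).1 = y.1 by rw [γ.source])
      target' := Subtype.ext (show (γ 1).1 = y.1 by rw [γ.target]) }
  have hval : ∀ (γ : Path y y) hγ, (U.comap inc).val (lift γ hγ) = U.val γ := by
    intro γ hγ
    rfl
  rw [← hval q hq, ← hval q' hq']
  refine extend j (U.comap inc) Ub hopen hbasis hne hpc hkill (lift q hq) (lift q' hq') ?_
  -- the images are homotopic
  have e0 : Complex.exp (ℓ 0 - ℓ' 0) = 1 := by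
    rw [Complex.exp_sub, hl 0, hl' 0, q.source, q'.source]
    apply div_self
    have h1 := (hq 0).2
    rw [q.source] at h1
    exact sub_ne_zero.2 h1
  refine pdisc b ρ _ _ ℓ ⟨fun t => ℓ' t + (ℓ 0 - ℓ' 0), by fun_prop⟩ (fun t => ?_) (fun t => ?_)
    ?_ ?_
  · exact hl t
  · change Complex.exp (ℓ' t + (ℓ 0 - ℓ' 0)) = _
    rw [Complex.exp_add, e0, mul_one]
    exact hl' t
  · change ℓ 0 = ℓ' 0 + (ℓ 0 - ℓ' 0)
    ring
  · change ℓ 1 = ℓ' 1 + (ℓ 0 - ℓ' 0)
    linear_combination h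

end H13J
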