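import Pool.Agent.Lib.H13J.D
import Pool.Agent.Lib.H13J.M3a
import Pool.Agent.Lib.H13J.M1a
import Pool.Agent.Lib.H13J.M2b
import Pool.Agent.Lib.H13J.C3
import Pool.Agent.Lib.H13J.T1b
import Pool.Agent.Lib.H13J.T1c

set_option autoImplicit false

open scoped unitInterval Polynomial

namespace H13J

open H13K

variable {ι : Type}

private theorem m3b_log (f : C(I, ℂ)) (hf : ∀ t, f t ≠ 0) :
    ∃ ℓ : C(I, ℂ), ∀ t, Complex.exp (ℓ t) = f t := by
  have cov : IsCoveringMap (fun z : ℂ => (⟨_, z.exp_ne_zero⟩ : {z : ℂ // z ≠ 0})) :=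
    Complex.isCoveringMap_exp
  let g : C(I, {z : ℂ // z ≠ 0}) := ⟨fun t => ⟨f t, hf t⟩, Continuous.subtype_mk f.continuous _⟩
  have h0 : g 0 = (fun z : ℂ => (⟨_, z.exp_ne_zero⟩ : {z : ℂ // z ≠ 0})) (Complex.log (f 0)) :=
    Subtype.ext (by simp [g, Complex.exp_log (hf 0)])
  refine ⟨cov.liftPath g (Complex.log (f 0)) h0, fun t => ?_⟩
  have h := cov.liftPath_lifts g (Complex.log (f 0)) h0
  exact congrArg Subtype.val (congrFun h t)

private theorem m3b_pow {X : Type} [TopologicalSpace X] {x : X} (c : Path x x) (n : ℕ) :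
    ∃ c' : Path x x, ∀ (H : Type) [Group H] (Φ : PF X H), Φ.val c' = Φ.val c ^ n := by
  induction n with
  | zero => exact ⟨Path.refl x, fun H _ Φ => by rw [Φ.val_refl, pow_zero]⟩
  | succ n ih =>
    obtain ⟨c', hc'⟩ := ih
    exact ⟨c'.trans c, fun H _ Φ => by rw [Φ.trans, hc', pow_succ']⟩

private theorem m3b_zpow {X : Type} [TopologicalSpace X] {x : X} (c : Path x x) (k : ℤ) :
    ∃ c' : Path x x, ∀ (H : Type) [Group H] (Φ : PF X H), Φ.val c' = Φ.val c ^ k := by
  cases k with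
  | ofNat n =>
    obtain ⟨c', hc'⟩ := m3b_pow c n
    exact ⟨c', fun H _ Φ => by rw [hc', Int.ofNat_eq_natCast, zpow_natCast]⟩
  | negSucc n =>
    obtain ⟨c', hc'⟩ := m3b_pow c.symm (n + 1)
    exact ⟨c', fun H _ Φ => by rw [hc', Φ.val_symm, zpow_negSucc, inv_pow]⟩

/-- The core: loops over the punctured disc. -/
private theorem m3b_core (p : ℂ[X][X]) (hp : p.Monic) (hpi : Irreducible p) (S : Finset ℂ)
    {G : Type} [Group G] (U : PF (XS p S) G) (b : ℂ) (hb0 : b ≠ 0) (ρ : ℝ) (hρ : 0 < ρ)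
    (hS : ∀ c ∈ S, c ∉ Metric.ball b ρ)
    (hk : ∀ c ∈ Metric.ball b ρ, c ≠ b → ∃ ρ' : ℝ, 0 < ρ' ∧ ∀ (y : XS p S) (q : Path y y),
      (∀ t, p.evalEval (q t).1.1 (q t).1.2 ∈ Metric.ball c ρ') → U.val q = 1)
    (hconn : IsPathConnected {x : ℂ × ℂ | p.evalEval x.1 x.2 ∈ Metric.ball b ρ ∧
        p.evalEval x.1 x.2 ≠ b})
    (y : {x : ℂ × ℂ | p.evalEval x.1 x.2 ∈ Metric.ball b ρ ∧ p.evalEval x.1 x.2 ≠ b})
    (jX : C({x : ℂ × ℂ | p.evalEval x.1 x.2 ∈ Metric.ball b ρ ∧ p.evalEval x.1 x.2 ≠ b}, XS p S))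
    (hj : ∀ x, (jX x).1 = x.1) (q : Path y y) : (U.comap jX).val q = 1 := by
  have hps : PathConnectedSpace {x : ℂ × ℂ | p.evalEval x.1 x.2 ∈ Metric.ball b ρ ∧
      p.evalEval x.1 x.2 ≠ b} := isPathConnected_iff_pathConnectedSpace.1 hconn
  obtain ⟨f, hf⟩ : ∃ f : C({x : ℂ × ℂ | p.evalEval x.1 x.2 ∈ Metric.ball b ρ ∧
      p.evalEval x.1 x.2 ≠ b}, ℂ), ∀ x, f x = p.evalEval x.1.1 x.1.2 - b :=
    ⟨⟨fun x => p.evalEval x.1.1 x.1.2 - b,
      ((continuous_evalEval p).comp continuous_subtype_val).sub continuous_const⟩, fun x => rfl⟩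
  have hf0 : ∀ x, f x ≠ 0 := fun x => by
    rw [hf]
    exact sub_ne_zero.2 x.2.2
  obtain ⟨L, hL⟩ := exists_log f hf0
  -- the logarithm along a loop
  have hlog : ∀ {x x' : {x : ℂ × ℂ | p.evalEval x.1 x.2 ∈ Metric.ball b ρ ∧
      p.evalEval x.1 x.2 ≠ b}} (r : Path x x'), ∃ ℓ : C(I, ℂ), (∀ t, Complex.exp (ℓ t) = f (r t)) ∧
      (L.val r).toAdd = ℓ 1 - ℓ 0 := by
    intro x x' r
    obtain ⟨ℓ, hℓ⟩ := m3b_log (f.comp r.toContinuousMap) fun t => hf0 _
    exact ⟨ℓ, hℓ, hL r ℓ hℓ⟩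
  -- the value depends on the winding number only
  have hval : ∀ r r' : Path y y, L.val r = L.val r' → (U.comap jX).val r = (U.comap jX).val r' := by
    intro r r' hr
    obtain ⟨ℓ, h1, h2⟩ := hlog r
    obtain ⟨ℓ', h1', h2'⟩ := hlog r'
    have hpt : ∀ (r : Path y y) (t : I), ((r.map jX.continuous) t).1 = (r t).1 := fun r t => hj _
    refine value_log p hp hpi S U b ρ hρ hS hk (jX y) (r.map jX.continuous) (r'.map jX.continuous)
      (fun t => ?_) (fun t => ?_) ℓ ℓ' (fun t => ?_) (fun t => ?_) ?_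
    · rw [hpt]
      exact (r t).2
    · rw [hpt]
      exact (r' t).2
    · rw [hpt, h1, hf]
    · rw [hpt, h1', hf]
    · rw [← h2, ← h2', hr]
  -- the winding number of q
  obtain ⟨k, hkq⟩ : ∃ k : ℤ, L.val q = Multiplicative.ofAdd (2 * Real.pi * Complex.I) ^ k := by
    obtain ⟨ℓ, h1, h2⟩ := hlog q
    have h3 : Complex.exp (ℓ 1) = Complex.exp (ℓ 0) := by
      rw [h1, h1, q.source, q.target]
    obtain ⟨n, hn⟩ := Complex.exp_eq_exp_iff_exists_int.1 h3
    refine ⟨n, ?_⟩
    apply Multiplicative.toAdd.injective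
    rw [h2, hn, toAdd_zpow, toAdd_ofAdd, zsmul_eq_mul]
    ring
  -- multiplicities
  have hmult : ∀ g : ℂ[X][X], g.Monic → Irreducible g → ∀ m : ℕ,
      g ^ m ∣ p - Polynomial.C (Polynomial.C b) →
      ¬ g ^ (m + 1) ∣ p - Polynomial.C (Polynomial.C b) →
      orderOf ((U.comap jX).val q) ∣ m := by
    intro g hg hgi m hm hm'
    rcases Nat.eq_zero_or_pos m with rfl | hm0
    · exact dvd_zero _
    obtain ⟨q', hq'⟩ := hm
    have hgq : ¬ g ∣ q' := by
      rintro ⟨q'', hq''⟩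
      apply hm'
      rw [hq', hq'']
      exact ⟨q'', by ring⟩
    obtain ⟨z, u, a, ha, hball, hne, ℓ, hℓ, hℓd⟩ := fibre_circle p g q' b m hg hgi hq' hgq hm0 ρ hρ
    have hnorm : ∀ t : I, ‖u + a * Complex.exp (2 * Real.pi * (t : ℝ) * Complex.I) - u‖ ≤ ‖a‖ := by
      intro t
      rw [add_sub_cancel_left, norm_mul, norm_circ, mul_one]
    have hne' : ∀ t : I, u + a * Complex.exp (2 * Real.pi * (t : ℝ) * Complex.I) ≠ u := by
      intro t h
      have h1 : a * Complex.exp (2 * Real.pi * (t : ℝ) * Complex.I) = 0 := by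
        linear_combination h
      rcases mul_eq_zero.1 h1 with h1 | h1
      · exact ha h1
      · exact Complex.exp_ne_zero _ h1
    have hmem : ∀ t : I, ((z, u + a * Complex.exp (2 * Real.pi * (t : ℝ) * Complex.I)) : ℂ × ℂ) ∈
        {x : ℂ × ℂ | p.evalEval x.1 x.2 ∈ Metric.ball b ρ ∧ p.evalEval x.1 x.2 ≠ b} :=
      fun t => ⟨hball _ (hnorm t), hne _ (hnorm t) (hne' t)⟩
    have hend : Complex.exp (2 * Real.pi * ((1 : I) : ℝ) * Complex.I) =
        Complex.exp (2 * Real.pi * ((0 : I) : ℝ) * Complex.I) := by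
      simp [Complex.exp_two_pi_mul_I]
    let c0 : Path (⟨_, hmem 0⟩ : {x : ℂ × ℂ | p.evalEval x.1 x.2 ∈ Metric.ball b ρ ∧
        p.evalEval x.1 x.2 ≠ b}) ⟨_, hmem 0⟩ :=
      { toFun := fun t => ⟨_, hmem t⟩
        continuous_toFun := by
          apply Continuous.subtype_mk
          fun_prop
        source' := rfl
        target' := by
          apply Subtype.ext
          show ((z, u + a * Complex.exp (2 * Real.pi * ((1 : I) : ℝ) * Complex.I)) : ℂ × ℂ) = _
          rw [hend] }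
    have hc0L : L.val c0 = Multiplicative.ofAdd (2 * Real.pi * Complex.I * (m : ℂ)) := by
      apply Multiplicative.toAdd.injective
      rw [hL c0 ℓ (fun t => by rw [hℓ, hf]; rfl), hℓd]
      rfl
    -- the circle is null homotopic over the disc
    have hc0U : (U.comap jX).val c0 = 1 := by
      have hconv : Convex ℝ {w : ℂ | ‖w - u‖ ≤ ‖a‖} := by
        have h1 : {w : ℂ | ‖w - u‖ ≤ ‖a‖} = Metric.closedBall u ‖a‖ := by
          ext w
          rw [Metric.mem_closedBall, dist_eq_norm]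
          rfl
        rw [h1]
        exact convex_closedBall u ‖a‖
      have hcs : ContractibleSpace {w : ℂ | ‖w - u‖ ≤ ‖a‖} :=
        hconv.contractibleSpace ⟨u, by
          show ‖u - u‖ ≤ ‖a‖
          rw [sub_self, norm_zero]
          exact norm_nonneg a⟩
      let jD : C({w : ℂ | ‖w - u‖ ≤ ‖a‖}, XS p S) :=
        ⟨fun w => ⟨(z, w.1), fun h => hS _ h (hball w.1 w.2)⟩, by
          apply Continuous.subtype_mk
          fun_prop⟩
      let c1 : Path (⟨_, hnorm 0⟩ : {w : ℂ | ‖w - u‖ ≤ ‖a‖}) ⟨_, hnorm 0⟩ :=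
        { toFun := fun t => ⟨_, hnorm t⟩
          continuous_toFun := by
            apply Continuous.subtype_mk
            fun_prop
          source' := rfl
          target' := by
            apply Subtype.ext
            show u + a * Complex.exp (2 * Real.pi * ((1 : I) : ℝ) * Complex.I) = _
            rw [hend] }
      have h1 : (U.comap jD).val c1 = 1 := by
        rw [(U.comap jD).val_eq_of_simplyConnected c1 (Path.refl _), PF.val_refl]
      have hx : jX ⟨_, hmem 0⟩ = jD ⟨_, hnorm 0⟩ := Subtype.ext (hj _)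
      have h2 : c0.map jX.continuous = (c1.map jD.continuous).cast hx hx := by
        apply Path.ext
        funext t
        apply Subtype.ext
        exact hj _
      show U.val (c0.map jX.continuous) = 1
      rw [h2, PF.val_cast]
      exact h1
    let sP : Path y ⟨_, hmem 0⟩ := PathConnectedSpace.somePath y _
    have hcU : (U.comap jX).val ((sP.trans c0).trans sP.symm) = 1 := by
      rw [PF.trans, PF.trans, PF.val_symm, hc0U, one_mul, inv_mul_cancel]
    have hcL : L.val ((sP.trans c0).trans sP.symm) =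
        Multiplicative.ofAdd (2 * Real.pi * Complex.I * (m : ℂ)) := by
      rw [PF.trans, PF.trans, PF.val_symm, hc0L, mul_comm, mul_assoc, mul_inv_cancel, mul_one]
    obtain ⟨qm, hqm⟩ := m3b_pow q m
    obtain ⟨ck, hck⟩ := m3b_zpow ((sP.trans c0).trans sP.symm) k
    have h3 := hval qm ck (by
      rw [hqm, hck, hkq, hcL]
      apply Multiplicative.toAdd.injective
      rw [toAdd_pow, toAdd_zpow, toAdd_zpow, toAdd_ofAdd, toAdd_ofAdd, nsmul_eq_mul, zsmul_eq_mul,
        zsmul_eq_mul]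
      ring)
    rw [hqm, hck, hcU, one_zpow] at h3
    exact orderOf_dvd_of_pow_eq_one h3
  exact orderOf_eq_one_iff.1 (gcd_mult p hp hpi b hb0 _ hmult)

private theorem m3b_deg (p : ℂ[X][X]) (hp : p.Monic) (hpi : Irreducible p) : 0 < p.natDegree := by
  rw [Nat.pos_iff_ne_zero]
  intro h
  have h1 := hp.natDegree_eq_zero.1 h
  exact hpi.not_isUnit (h1 ▸ isUnit_one)

private theorem m3b_monic (p : ℂ[X][X]) (hp : p.Monic) (hpi : Irreducible p) (c : ℂ) :
    (p - Polynomial.C (Polynomial.C c)).Monic := by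
  apply hp.sub_of_left
  refine lt_of_le_of_lt Polynomial.degree_C_le ?_
  exact Polynomial.natDegree_pos_iff_degree_pos.1 (m3b_deg p hp hpi)

private theorem m3b_ev (p : ℂ[X][X]) (c z w : ℂ) :
    (p - Polynomial.C (Polynomial.C c)).evalEval z w = p.evalEval z w - c := by
  simp [Polynomial.evalEval]

/-- A functional that kills the loops over small discs off a finite set kills the loops over small
discs around every b outside of S.
Proof: b ∉ Bif: hypothesis.  b ∈ Bif \ S (so b ≠ 0): ρ small: ball b ρ contains no other point of Bif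
and no point of S, and `conn_ball`.  V* = punctured ball, X* = {x : p x ∈ V*}; `extend` for the map
X* → V* (family: small balls inside V*; nonempty as p (z, .) is onto; path connected by `conn_ball`,
killed by hypothesis) shows that the value of a loop of X* only depends on the homotopy class of its image
in V*.  A loop over the ball is homotopic over the ball (conjugate) to a loop q of X* at y (points with
p = b are avoided: `perturb` for the family of all p - c, c ∈ S, T = p - b).  Let k be the winding number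
of p - b along q.  For every monic irreducible factor g of p - b with multiplicity m: `fibre_circle`
gives a loop of value 1 with winding number m; join y to it in X*; the m-th power of q and the k-th
power of this loop have the same winding number, so by `pdisc` the value of q has m-th power 1.  By
`gcd_mult` (k = orderOf the value, orderOf divides all multiplicities) the value of q is 1. -/
theorem kill_disc (p : ℂ[X][X]) (hp : p.Monic) (hpi : Irreducible p) (S : Finset ℂ)
    (hS : (0 : ℂ) ∈ S) {G : Type} [Group G] (U : PF (XS p S) G) (Bif : Set ℂ) (hB : Bif.Finite)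
    (hk : ∀ b, b ∉ Bif → ∃ ρ : ℝ, 0 < ρ ∧ ∀ (y : XS p S) (q : Path y y),
      (∀ t, p.evalEval (q t).1.1 (q t).1.2 ∈ Metric.ball b ρ) → U.val q = 1)
    (b : ℂ) (hb : b ∉ S) : ∃ ρ : ℝ, 0 < ρ ∧ ∀ (y : XS p S) (q : Path y y),
      (∀ t, p.evalEval (q t).1.1 (q t).1.2 ∈ Metric.ball b ρ) → U.val q = 1 := by
  classical
  by_cases hbB : b ∈ Bif
  swap
  · exact hk b hbB
  have hb0 : b ≠ 0 := fun h => hb (h ▸ hS)
  obtain ⟨ρ₁, hρ₁, hconn⟩ := conn_ball p hp hpi b
  obtain ⟨ε, hε, hεb⟩ : ∃ ε : ℝ, 0 < ε ∧ Metric.ball b ε ⊆ (((S : Set ℂ) ∪ Bif) \ {b})ᶜ := by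
    have hfin : (((S : Set ℂ) ∪ Bif) \ {b}).Finite := (S.finite_toSet.union hB).subset Set.diff_subset
    exact Metric.isOpen_iff.1 hfin.isClosed.isOpen_compl b fun h => h.2 rfl
  obtain ⟨ρ, hρ, hρ1, hρε⟩ : ∃ ρ : ℝ, 0 < ρ ∧ ρ ≤ ρ₁ ∧ ρ ≤ ε :=
    ⟨min ρ₁ ε, lt_min hρ₁ hε, min_le_left _ _, min_le_right _ _⟩
  have hSρ : ∀ c ∈ S, c ∉ Metric.ball b ρ := by
    intro c hc hcb
    have h1 := hεb (Metric.ball_subset_ball hρε hcb)
    exact h1 ⟨Or.inl hc, fun h => hb (h ▸ hc)⟩
  have hkρ : ∀ c ∈ Metric.ball b ρ, c ≠ b → ∃ ρ' : ℝ, 0 < ρ' ∧ ∀ (y : XS p S) (q : Path y y),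
      (∀ t, p.evalEval (q t).1.1 (q t).1.2 ∈ Metric.ball c ρ') → U.val q = 1 := by
    intro c hc hcb
    refine hk c fun h => ?_
    exact hεb (Metric.ball_subset_ball hρε hc) ⟨Or.inr h, hcb⟩
  have hconn' := (hconn ρ hρ hρ1).2
  let jX : C({x : ℂ × ℂ | p.evalEval x.1 x.2 ∈ Metric.ball b ρ ∧ p.evalEval x.1 x.2 ≠ b},
      XS p S) := ⟨fun x => ⟨x.1, fun h => hSρ _ h x.2.1⟩, by
    apply Continuous.subtype_mk
    exact continuous_subtype_val⟩
  have hcore := m3b_core p hp hpi S U b hb0 ρ hρ hSρ hkρ hconn'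
  refine ⟨ρ, hρ, fun y q hq => ?_⟩
  -- the family
  let P : {c // c ∈ S} → ℂ[X][X] := fun c => p - Polynomial.C (Polynomial.C c.1)
  have hPm : ∀ c, (P c).Monic := fun c => m3b_monic p hp hpi c.1
  have hT : p - Polynomial.C (Polynomial.C b) ≠ 0 := (m3b_monic p hp hpi b).ne_zero
  let h12 : C(XS p S, CX P) := ⟨fun x => ⟨x.1, fun c h => by
      have h1 : p.evalEval x.1.1 x.1.2 - c.1 = 0 := by
        rw [← m3b_ev]
        exact h
      exact x.2 ((sub_eq_zero.1 h1) ▸ c.2)⟩, by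
    apply Continuous.subtype_mk
    exact continuous_subtype_val⟩
  let h21 : C(CX P, XS p S) := ⟨fun x => ⟨x.1, fun h => by
      refine x.2 ⟨_, h⟩ ?_
      show (p - Polynomial.C (Polynomial.C _)).evalEval _ _ = 0
      rw [m3b_ev, sub_self]⟩, by
    apply Continuous.subtype_mk
    exact continuous_subtype_val⟩
  have hO : IsOpen {x : ℂ × ℂ | p.evalEval x.1 x.2 ∈ Metric.ball b ρ} :=
    Metric.isOpen_ball.preimage (continuous_evalEval p)
  obtain ⟨y', r, hy', hr⟩ := near_good P hPm (p - Polynomial.C (Polynomial.C b)) hT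
    {x : ℂ × ℂ | p.evalEval x.1 x.2 ∈ Metric.ball b ρ} hO (h12 y) (by
      have h1 := hq 0
      rw [q.source] at h1
      exact h1)
  let r' : Path y (h21 y') := r.map h21.continuous
  let q1 : Path (h21 y') (h21 y') := (r'.symm.trans q).trans r'
  have hq1 : ∀ t, p.evalEval (q1 t).1.1 (q1 t).1.2 ∈ Metric.ball b ρ := by
    have hr' : ∀ t, p.evalEval (r' t).1.1 (r' t).1.2 ∈ Metric.ball b ρ := fun t => hr t
    have key : ∀ t, q1 t ∈ {x : XS p S | p.evalEval x.1.1 x.1.2 ∈ Metric.ball b ρ} := by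
      have h1 : Set.range q1 ⊆ {x : XS p S | p.evalEval x.1.1 x.1.2 ∈ Metric.ball b ρ} := by
        show Set.range ((r'.symm.trans q).trans r') ⊆ _
        rw [Path.trans_range, Path.trans_range, Path.symm_range]
        rintro x ((⟨t, rfl⟩ | ⟨t, rfl⟩) | ⟨t, rfl⟩)
        · exact hr' t
        · exact hq t
        · exact hr' t
      exact fun t => h1 ⟨t, rfl⟩
    exact key
  let q1' : Path y' y' := q1.map h12.continuous
  obtain ⟨q2, hq2, hhom⟩ := perturb P hPm (p - Polynomial.C (Polynomial.C b)) hT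
    {x : ℂ × ℂ | p.evalEval x.1 x.2 ∈ Metric.ball b ρ} hO y' y' hy' hy' q1' (fun t => hq1 t)
  have hE : ∀ t, (q2 t).1 ∈ {x : ℂ × ℂ | p.evalEval x.1 x.2 ∈ Metric.ball b ρ ∧
      p.evalEval x.1 x.2 ≠ b} := by
    intro t
    refine ⟨(hq2 t).1, fun h => (hq2 t).2 ?_⟩
    rw [m3b_ev, h, sub_self]
  have hEy : y'.1 ∈ {x : ℂ × ℂ | p.evalEval x.1 x.2 ∈ Metric.ball b ρ ∧
      p.evalEval x.1 x.2 ≠ b} := by
    have h1 := hE 0
    rwa [q2.source] at h1
  let q3 : Path (⟨y'.1, hEy⟩ : {x : ℂ × ℂ | p.evalEval x.1 x.2 ∈ Metric.ball b ρ ∧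
      p.evalEval x.1 x.2 ≠ b}) ⟨y'.1, hEy⟩ :=
    { toFun := fun t => ⟨(q2 t).1, hE t⟩
      continuous_toFun := by
        apply Continuous.subtype_mk
        exact continuous_subtype_val.comp q2.continuous
      source' := by
        apply Subtype.ext
        show (q2 0).1 = y'.1
        rw [q2.source]
      target' := by
        apply Subtype.ext
        show (q2 1).1 = y'.1
        rw [q2.target] }
  have h3 : U.val q1 = 1 := by
    have h4 := hcore ⟨y'.1, hEy⟩ jX (fun x => rfl) q3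
    have h5 : (q3.map jX.continuous : Path (h21 y') (h21 y')) = q2.map h21.continuous := by
      apply Path.ext
      rfl
    have h6 : (q1'.map h21.continuous : Path (h21 y') (h21 y')) = q1 := by
      apply Path.ext
      rfl
    have h7 := U.homot (hhom.map h21)
    have h8 : U.val (q1'.map h21.continuous) = U.val q1 := congrArg U.val h6
    have h9 : U.val (q3.map jX.continuous : Path (h21 y') (h21 y')) = 1 := h4
    rw [← h8, h7, ← h5]
    exact h9
  have h4 : U.val q1 = U.val r' * (U.val q * (U.val r')⁻¹) := by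
    show U.val ((r'.symm.trans q).trans r') = _
    rw [U.trans, U.trans, U.val_symm]
  rw [h4] at h3
  have h5 : U.val q * (U.val r')⁻¹ = (U.val r')⁻¹ := (inv_eq_of_mul_eq_one_right h3).symm
  exact mul_eq_right.1 h5

end H13J
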