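import Pool.Agent.Lib.H13J.D
import Pool.Agent.Lib.H13J.M3a
import Pool.Agent.Lib.H13J.M3b
import Pool.Agent.Lib.H13J.C3
import Pool.Agent.Lib.H13K.T1b

set_option autoImplicit false

open scoped unitInterval Polynomial

namespace H13J

open H13K

variable {ι : Type}

/-- The functional factors through the base.
Proof: `extend` for the map hS p S : XS p S → {b // b ∉ S}; family: preimages of the small balls around
the points b ∉ S (balls inside the radius of `kill_disc` at b and of `conn_ball` at b, without points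
of S); nonempty: p (0, .) is onto. -/
theorem kill_null (p : ℂ[X][X]) (hp : p.Monic) (hpi : Irreducible p) (S : Finset ℂ)
    (hS0 : (0 : ℂ) ∈ S) {G : Type} [Group G] (U : PF (XS p S) G) (Bif : Set ℂ) (hB : Bif.Finite)
    (hk : ∀ b, b ∉ Bif → ∃ ρ : ℝ, 0 < ρ ∧ ∀ (y : XS p S) (q : Path y y),
      (∀ t, p.evalEval (q t).1.1 (q t).1.2 ∈ Metric.ball b ρ) → U.val q = 1)
    (x : XS p S) (q : Path x x)
    (hq : (q.map (hS p S).continuous).Homotopic (Path.refl _)) : U.val q = 1 := by
  classical
  choose ρc hρc0 hρc using fun b : ℂ => conn_ball p hp hpi b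
  choose ρk hρk0 hρk using fun (b : ℂ) (hb : b ∉ S) => kill_disc p hp hpi S hS0 U Bif hB hk b hb
  -- the values
  have honto : ∀ b : ℂ, ∃ w : ℂ, p.evalEval 0 w = b := by
    intro b
    have hd : (p.map (Polynomial.evalRingHom 0) - Polynomial.C b).degree ≠ 0 := by
      have h1 : (p.map (Polynomial.evalRingHom 0)).degree = p.degree := hp.degree_map _
      have h2 : 0 < p.degree := by
        rw [← Polynomial.natDegree_pos_iff_degree_pos]
        rcases Nat.eq_zero_or_pos p.natDegree with h0 | h0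
        · exfalso
          have := hp.natDegree_eq_zero.1 h0
          exact hpi.not_isUnit (by rw [this]; exact isUnit_one)
        · exact h0
      have h3 : (Polynomial.C b).degree < (p.map (Polynomial.evalRingHom 0)).degree := by
        rw [h1]
        exact lt_of_le_of_lt Polynomial.degree_C_le h2
      rw [Polynomial.degree_sub_eq_left_of_degree_lt h3, h1]
      exact h2.ne'
    obtain ⟨w, hw⟩ := IsAlgClosed.exists_root _ hd
    refine ⟨w, ?_⟩
    rw [← Polynomial.map_evalRingHom_eval]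
    have h4 : (p.map (Polynomial.evalRingHom 0) - Polynomial.C b).eval w = 0 := hw
    rw [Polynomial.eval_sub, Polynomial.eval_C, sub_eq_zero] at h4
    exact h4
  have key := extend (hS p S) U
    {u : Set {b : ℂ // b ∉ S} | ∃ (b : ℂ) (hb : b ∉ S) (ρ : ℝ), 0 < ρ ∧ ρ ≤ ρc b ∧ ρ ≤ ρk b hb ∧
      (∀ c ∈ Metric.ball b ρ, c ∉ S) ∧ u = Subtype.val ⁻¹' Metric.ball b ρ}
    (by
      rintro u ⟨b, hb, ρ, -, -, -, -, rfl⟩
      exact Metric.isOpen_ball.preimage continuous_subtype_val)
    (by
      rintro y o ho hy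
      obtain ⟨o', ho', rfl⟩ := isOpen_induced_iff.1 ho
      obtain ⟨ε, hε, hεo⟩ := Metric.isOpen_iff.1 ho' y.1 hy
      have hSc : IsOpen ((S : Set ℂ)ᶜ) := S.finite_toSet.isClosed.isOpen_compl
      obtain ⟨δ, hδ, hδS⟩ := Metric.isOpen_iff.1 hSc y.1 (by simpa using y.2)
      refine ⟨_, ⟨y.1, y.2, min (min ε δ) (min (ρc y.1) (ρk y.1 y.2)), ?_, ?_, ?_, ?_, rfl⟩, ?_, ?_⟩
      · exact lt_min (lt_min hε hδ) (lt_min (hρc0 _) (hρk0 _ _))
      · exact (min_le_right _ _).trans (min_le_left _ _)
      · exact (min_le_right _ _).trans (min_le_right _ _)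
      · intro c hc
        have h1 := hδS (Metric.ball_subset_ball ((min_le_left _ _).trans (min_le_right _ _)) hc)
        simpa using h1
      · exact Metric.mem_ball_self (lt_min (lt_min hε hδ) (lt_min (hρc0 _) (hρk0 _ _)))
      · intro c hc
        exact hεo (Metric.ball_subset_ball ((min_le_left _ _).trans (min_le_left _ _)) hc))
    (by
      rintro u ⟨b, hb, ρ, hρ, -, -, -, rfl⟩
      obtain ⟨w, hw⟩ := honto b
      refine ⟨⟨(0, w), ?_⟩, ?_⟩
      · show p.evalEval 0 w ∉ S
        rw [hw]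
        exact hb
      · show p.evalEval 0 w ∈ Metric.ball b ρ
        rw [hw]
        exact Metric.mem_ball_self hρ)
    (by
      rintro u ⟨b, hb, ρ, hρ, h1, -, h3, rfl⟩ x x' hx hx'
      obtain ⟨r, hr⟩ := ((hρc b ρ hρ h1).1.joinedIn x.1 hx x'.1 hx')
      refine ⟨⟨⟨fun t => ⟨r t, h3 _ (hr t)⟩, ?_⟩, ?_, ?_⟩, fun t => hr t⟩
      · exact r.continuous.subtype_mk _
      · exact Subtype.ext r.source
      · exact Subtype.ext r.target)
    (by
      rintro u ⟨b, hb, ρ, hρ, -, h2, -, rfl⟩ y q hq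
      exact hρk b hb y q fun t => Metric.ball_subset_ball h2 (hq t))
    q (Path.refl x) hq
  rw [key, PF.val_refl]

end H13J
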