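import Pool.Agent.Lib.H13J.D
import Pool.Agent.Lib.H13J.N1

set_option autoImplicit false

open scoped unitInterval Polynomial

namespace H13J

open H13K

variable {ι : Type}

/-- The straight path between two parameters. -/
private noncomputable def n2seg (s t : I) : Path s t where
  toFun r := ⟨(1 - (r : ℝ)) * (s : ℝ) + (r : ℝ) * (t : ℝ), by
    constructor
    · exact add_nonneg (mul_nonneg (sub_nonneg.2 r.2.2) s.2.1) (mul_nonneg r.2.1 t.2.1)
    · have h1 : (1 - (r : ℝ)) * (s : ℝ) ≤ (1 - (r : ℝ)) * 1 :=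
        mul_le_mul_of_nonneg_left s.2.2 (sub_nonneg.2 r.2.2)
      have h2 : (r : ℝ) * (t : ℝ) ≤ (r : ℝ) * 1 := mul_le_mul_of_nonneg_left t.2.2 r.2.1
      linarith⟩
  continuous_toFun := by
    apply Continuous.subtype_mk
    fun_prop
  source' := by
    apply Subtype.ext
    simp
  target' := by
    apply Subtype.ext
    simp

private theorem n2seg_dist (s t r : I) : dist (n2seg s t r) s ≤ dist t s := by
  rw [Subtype.dist_eq, Subtype.dist_eq, Real.dist_eq, Real.dist_eq]
  have h : ((n2seg s t r : I) : ℝ) - (s : ℝ) = (r : ℝ) * ((t : ℝ) - (s : ℝ)) := by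
    show (1 - (r : ℝ)) * (s : ℝ) + (r : ℝ) * (t : ℝ) - (s : ℝ) = _
    ring
  rw [h, abs_mul, abs_of_nonneg r.2.1]
  exact mul_le_of_le_one_left (abs_nonneg _) r.2.2

private theorem n2scI : SimplyConnectedSpace I := by
  have h : ContractibleSpace I := (convex_Icc (0 : ℝ) 1).contractibleSpace ⟨0, by simp⟩
  infer_instance

/-- The value of the functional on the part of a path between two parameters. -/
private noncomputable def n2v {X G : Type} [TopologicalSpace X] [Group G] (U : PF X G) (γ : C(I, X))
    (s t : I) : G := (U.comap γ).val (n2seg s t)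

private theorem n2v_mul {X G : Type} [TopologicalSpace X] [Group G] (U : PF X G) (γ : C(I, X))
    (s t r : I) : n2v U γ s r = n2v U γ t r * n2v U γ s t := by
  have := n2scI
  unfold n2v
  rw [← PF.trans]
  exact PF.val_eq_of_simplyConnected _ _ _

/-- One small step. -/
private theorem n2_step [Finite ι] (P : ι → ℂ[X][X]) (hm : ∀ i, (P i).Monic)
    (hirr : ∀ i, Irreducible (P i)) (s : ι) (e : ℂ[X][X]) (he : e ≠ 0) (b : ℂ) (ρ : ℝ)
    (hp : Push P s e b ρ) {G : Type} [Group G] (U : PF (CX P) G) (x y : CX P) (δ : Path x y)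
    (hδ : ∀ t, hval P s (δ t).1 ∈ Metric.ball b ρ) (hy : EG P s e y.1) (p : Path x x)
    (hpf : ∀ t, hval P s (p t).1 = hval P s x.1) :
    ∃ q : Path y y, (∀ t, hval P s (q t).1 = hval P s y.1) ∧
      U.val q = U.val δ * U.val p * (U.val δ)⁻¹ := by
  have hx : hval P s x.1 ∈ Metric.ball b ρ := by
    have h := hδ 0
    rwa [δ.source] at h
  have hall : ∀ t, hval P s ((δ.symm.trans (p.trans δ)) t).1 ∈ Metric.ball b ρ := by
    have hr : ∀ z ∈ Set.range (δ.symm.trans (p.trans δ)), hval P s z.1 ∈ Metric.ball b ρ := by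
      intro z hz
      rw [Path.trans_range, Path.trans_range, Path.symm_range] at hz
      rcases hz with ⟨t, rfl⟩ | ⟨t, rfl⟩ | ⟨t, rfl⟩
      · exact hδ t
      · rw [hpf t]
        exact hx
      · exact hδ t
    intro t
    exact hr _ ⟨t, rfl⟩
  obtain ⟨q, hq1, hq2⟩ := loop_to_fibre P hm hirr s e he b ρ hp y hy (δ.symm.trans (p.trans δ)) hall
  refine ⟨q, fun t => (hq1 t).1, ?_⟩
  rw [← U.homot hq2, U.trans, U.trans, U.val_symm]

/-- Transport of the fibre subgroup along paths off the branch curve and off Bif.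
Proof: let γ have all its points off the branch curve with hval ∉ Bif.  For t ∈ I let A(t) be the
statement for γ restricted to [0, t]; A is locally constant: near t₀ let ρ be the radius of
`Branch.push` at b = hval (γ t₀); a piece δ of γ inside the preimage of the ball conjugates fibre loops
at one end to loops over the ball at the other end, which are homotopic to fibre loops
(`loop_to_fibre`).  (For instance: the set of t such that A(t) is closed and open; or Lebesgue number
and induction; use (Φ.comap γ) on I to cut γ, I is simply connected.) -/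
theorem transport_good [Finite ι] (P : ι → ℂ[X][X]) (hm : ∀ i, (P i).Monic)
    (hirr : ∀ i, Irreducible (P i)) (s : ι) (e : ℂ[X][X]) (Bif : Set ℂ) (hB : Branch P s e Bif)
    {G : Type} [Group G] (U : PF (CX P) G) (x y : CX P) (γ : Path x y)
    (hγ : ∀ t, EG P s e (γ t).1 ∧ hval P s (γ t).1 ∉ Bif) (p : Path x x)
    (hp : ∀ t, hval P s (p t).1 = hval P s x.1) :
    ∃ q : Path y y, (∀ t, hval P s (q t).1 = hval P s y.1) ∧
      U.val q = U.val γ * U.val p * (U.val γ)⁻¹ := by
  have hcont : Continuous fun t : I => hval P s (γ t).1 :=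
    (continuous_evalEval (P s)).comp (continuous_subtype_val.comp γ.continuous)
  have key := PreconnectedSpace.induction₂' (α := I)
    (fun a b : I => ∀ p : Path (γ a) (γ a), (∀ t, hval P s (p t).1 = hval P s (γ a).1) →
      ∃ q : Path (γ b) (γ b), (∀ t, hval P s (q t).1 = hval P s (γ b).1) ∧
        U.val q = n2v U (γ : C(I, CX P)) a b * U.val p * (n2v U (γ : C(I, CX P)) a b)⁻¹)
    (by
      intro t0
      obtain ⟨ρ, hρ⟩ := hB.push _ (hγ t0).2
      have h1 : (fun t : I => hval P s (γ t).1) ⁻¹' Metric.ball (hval P s (γ t0).1) ρ ∈ nhds t0 :=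
        (Metric.isOpen_ball.preimage hcont).mem_nhds (Metric.mem_ball_self hρ.pos)
      obtain ⟨ε, hε, hball⟩ := Metric.mem_nhds_iff.1 h1
      filter_upwards [Metric.ball_mem_nhds t0 hε] with t ht
      have hseg : ∀ r, hval P s (((n2seg t0 t).map γ.continuous) r).1 ∈
          Metric.ball (hval P s (γ t0).1) ρ := by
        intro r
        exact hball (lt_of_le_of_lt (n2seg_dist t0 t r) ht)
      constructor
      · intro p hpf
        exact n2_step P hm hirr s e hB.ne _ ρ hρ U (γ t0) (γ t) ((n2seg t0 t).map γ.continuous) hseg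
          (hγ t).1 p hpf
      · intro p hpf
        obtain ⟨q, hq1, hq2⟩ := n2_step P hm hirr s e hB.ne _ ρ hρ U (γ t) (γ t0)
          ((n2seg t0 t).map γ.continuous).symm (fun r => hseg _) (hγ t0).1 p hpf
        refine ⟨q, hq1, ?_⟩
        have e1 : U.val ((n2seg t0 t).map γ.continuous).symm = n2v U (γ : C(I, CX P)) t t0 := by
          have := n2scI
          have e2 : (U.comap (γ : C(I, CX P))).val (n2seg t0 t).symm = (U.comap (γ : C(I, CX P))).val (n2seg t t0) :=
            PF.val_eq_of_simplyConnected _ _ _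
          exact e2
        rw [hq2, e1])
    ⟨by
      intro a b c hab hbc p hpf
      obtain ⟨q, hq1, hq2⟩ := hab p hpf
      obtain ⟨r, hr1, hr2⟩ := hbc q hq1
      refine ⟨r, hr1, ?_⟩
      rw [hr2, hq2, n2v_mul U _ a b c]
      group⟩ 0 1
  obtain ⟨q, hq1, hq2⟩ := key (p.cast γ.source γ.source) (by
    intro t
    rw [Path.cast_coe, hp t, γ.source])
  refine ⟨q.cast γ.target.symm γ.target.symm, ?_, ?_⟩
  · intro t
    rw [Path.cast_coe, hq1 t, γ.target]
  · rw [PF.val_cast, hq2, PF.val_cast]
    have e1 : n2v U (γ : C(I, CX P)) 0 1 = U.val γ := by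
      have e2 : n2v U (γ : C(I, CX P)) 0 1 = U.val (γ.cast γ.source γ.target) := by
        show U.val ((n2seg 0 1).map γ.continuous) = _
        congr 1
        ext t
        · show (γ (n2seg 0 1 t)).1.1 = (γ t).1.1
          have e3 : n2seg 0 1 t = t := by
            apply Subtype.ext
            show (1 - (t : ℝ)) * ((0 : I) : ℝ) + (t : ℝ) * ((1 : I) : ℝ) = (t : ℝ)
            simp
          rw [e3]
        · show (γ (n2seg 0 1 t)).1.2 = (γ t).1.2
          have e3 : n2seg 0 1 t = t := by
            apply Subtype.ext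
            show (1 - (t : ℝ)) * ((0 : I) : ℝ) + (t : ℝ) * ((1 : I) : ℝ) = (t : ℝ)
            simp
          rw [e3]
      rw [e2, PF.val_cast]
    rw [e1]

end H13J
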