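import Pool.Agent.Lib.H13J.D
import Pool.Agent.Lib.H13J.N2a
import Pool.Agent.Lib.H13J.T1b
import Pool.Agent.Lib.H13J.F0b

set_option autoImplicit false

open scoped unitInterval Polynomial

namespace H13J

open H13K

variable {ι : Type}

private theorem n2b_thin (P : ι → ℂ[X][X]) (s : ι) (hm : (P s).Monic) (hd : 0 < (P s).natDegree)
    (e : ℂ[X][X]) (he : e ≠ 0) (B : Finset ℂ) :
    ∃ T : ℂ[X][X], T ≠ 0 ∧ ∀ x : ℂ × ℂ, T.evalEval x.1 x.2 ≠ 0 ↔
      (EG P s e x ∧ ∀ b ∈ B, hval P s x ≠ b) := by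
  classical
  obtain ⟨T₁, hT₁, hT₁'⟩ := comp_ne_zero e (P s) he hm hd
  refine ⟨T₁ * ∏ b ∈ B, (P s - Polynomial.C (Polynomial.C b)), ?_, ?_⟩
  · refine mul_ne_zero hT₁ (Finset.prod_ne_zero_iff.2 fun b _ h => ?_)
    have h1 := congrArg Polynomial.natDegree h
    rw [Polynomial.natDegree_sub_C, Polynomial.natDegree_zero] at h1
    omega
  · intro x
    have h1 : (T₁ * ∏ b ∈ B, (P s - Polynomial.C (Polynomial.C b))).evalEval x.1 x.2 =
        e.evalEval x.1 (hval P s x) * ∏ b ∈ B, (hval P s x - b) := by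
      rw [← Polynomial.coe_evalEvalRingHom, map_mul, map_prod, Polynomial.coe_evalEvalRingHom,
        hT₁']
      congr 1
      refine Finset.prod_congr rfl fun b _ => ?_
      rw [Polynomial.evalEval_sub]
      congr 1
      exact Polynomial.evalEval_CC x.1 x.2 b
    rw [h1, mul_ne_zero_iff, Finset.prod_ne_zero_iff]
    constructor
    · rintro ⟨h2, h3⟩
      exact ⟨h2, fun b hb h => h3 b hb (by rw [h, sub_self])⟩
    · rintro ⟨h2, h3⟩
      exact ⟨h2, fun b hb h => h3 b hb (sub_eq_zero.1 h)⟩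

/-- Transport along arbitrary paths between good points: `perturb` with T = (e composed with P s) times
the product over b ∈ Bif of (P s - b), O = univ. -/
theorem transport [Finite ι] (P : ι → ℂ[X][X]) (hm : ∀ i, (P i).Monic)
    (hirr : ∀ i, Irreducible (P i)) (s : ι) (e : ℂ[X][X]) (Bif : Set ℂ) (hB : Branch P s e Bif)
    {G : Type} [Group G] (U : PF (CX P) G) (x y : CX P) (hx : EG P s e x.1 ∧ hval P s x.1 ∉ Bif)
    (hy : EG P s e y.1 ∧ hval P s y.1 ∉ Bif) (γ : Path x y) (p : Path x x)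
    (hp : ∀ t, hval P s (p t).1 = hval P s x.1) :
    ∃ q : Path y y, (∀ t, hval P s (q t).1 = hval P s y.1) ∧
      U.val q = U.val γ * U.val p * (U.val γ)⁻¹ := by
  classical
  have hd : 0 < (P s).natDegree := by
    rw [Nat.pos_iff_ne_zero]
    intro h0
    exact (hirr s).not_isUnit (((hm s).isUnit_iff).2 ((hm s).natDegree_eq_zero.1 h0))
  obtain ⟨T, hT, hT'⟩ := n2b_thin P s (hm s) hd e hB.ne hB.fin.toFinset
  have key : ∀ x : ℂ × ℂ, T.evalEval x.1 x.2 ≠ 0 ↔ (EG P s e x ∧ hval P s x ∉ Bif) := by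
    intro x
    rw [hT' x]
    constructor
    · rintro ⟨h1, h2⟩
      exact ⟨h1, fun h => h2 _ (hB.fin.mem_toFinset.2 h) rfl⟩
    · rintro ⟨h1, h2⟩
      refine ⟨h1, fun b hb h => h2 ?_⟩
      rw [h]
      exact hB.fin.mem_toFinset.1 hb
  obtain ⟨γ', hγ', hh⟩ := perturb P hm T hT Set.univ isOpen_univ x y ((key x.1).2 hx)
    ((key y.1).2 hy) γ (fun _ => Set.mem_univ _)
  obtain ⟨q, hq, hq'⟩ := transport_good P hm hirr s e Bif hB U x y γ'
    (fun t => (key (γ' t).1).1 (hγ' t).2) p hp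
  refine ⟨q, hq, ?_⟩
  rw [hq', U.homot hh]

end H13J
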