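import Pool.Agent.Lib.H13J.D
import Pool.Agent.Lib.H13J.N2b
import Pool.Agent.Lib.H13J.T1c
import Pool.Agent.Lib.H13J.F0b

set_option autoImplicit false

open scoped unitInterval Polynomial

namespace H13J

open H13K

variable {ι : Type}

private theorem N2c_thin (P : ι → ℂ[X][X]) (s : ι) (hm : (P s).Monic) (hd : 0 < (P s).natDegree)
    (e : ℂ[X][X]) (he : e ≠ 0) (B : Finset ℂ) :
    ∃ T : ℂ[X][X], T ≠ 0 ∧ ∀ x : ℂ × ℂ, T.evalEval x.1 x.2 ≠ 0 ↔
      (EG P s e x ∧ ∀ b ∈ B, hval P s x ≠ b) := by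
  classical
  obtain ⟨T₁, hT₁, hT₁'⟩ := comp_ne_zero e (P s) he hm hd
  refine ⟨T₁ * ∏ b ∈ B, (P s - Polynomial.C (Polynomial.C b)), ?_, ?_⟩
  · refine mul_ne_zero hT₁ (Finset.prod_ne_zero_iff.2 fun b _ h => ?_)
    have h1 := congrArg Polynomial.natDegree h
    rw [Polynomial.natDegree_sub_C, Polynomial.natDegree_zero] at h1
    omega
  · intro x
    have h1 : (T₁ * ∏ b ∈ B, (P s - Polynomial.C (Polynomial.C b))).evalEval x.1 x.2 =
        e.evalEval x.1 (hval P s x) * ∏ b ∈ B, (hval P s x - b) := by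
      rw [← Polynomial.coe_evalEvalRingHom, map_mul, map_prod, Polynomial.coe_evalEvalRingHom,
        hT₁']
      congr 1
      refine Finset.prod_congr rfl fun b _ => ?_
      rw [Polynomial.evalEval_sub]
      congr 1
      exact Polynomial.evalEval_CC x.1 x.2 b
    rw [h1, mul_ne_zero_iff, Finset.prod_ne_zero_iff]
    constructor
    · rintro ⟨h2, h3⟩
      exact ⟨h2, fun b hb h => h3 b hb (by rw [h, sub_self])⟩
    · rintro ⟨h2, h3⟩
      exact ⟨h2, fun b hb h => h3 b hb (sub_eq_zero.1 h)⟩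

private theorem N2c_trans {X : Type} [TopologicalSpace X] {a b c : X} (p : Path a b) (q : Path b c) {S : X → Prop}
    (hp : ∀ t, S (p t)) (hq : ∀ t, S (q t)) : ∀ t, S (p.trans q t) := by
  intro t
  rw [Path.trans_apply]
  split_ifs
  · exact hp _
  · exact hq _

/-- Loops over a small disc (at any base point) lie in the fibre subgroup of every good point.
Proof: move y inside the preimage of the ball to a point y' off the branch curve and off Bif
(`near_good`), conjugate p to y', `loop_to_fibre`, `transport` from y' to x. -/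
theorem local_in [Finite ι] (P : ι → ℂ[X][X]) (hm : ∀ i, (P i).Monic)
    (hirr : ∀ i, Irreducible (P i)) (s : ι) (e : ℂ[X][X]) (Bif : Set ℂ) (hB : Branch P s e Bif)
    {G : Type} [Group G] (U : PF (CX P) G) (x : CX P) (hx : EG P s e x.1 ∧ hval P s x.1 ∉ Bif)
    (b : ℂ) (ρ : ℝ) (hb : b ∉ Bif) (hρ : Push P s e b ρ) (y : CX P) (γ : Path x y) (p : Path y y)
    (hp : ∀ t, hval P s (p t).1 ∈ Metric.ball b ρ) :
    ∃ q : Path x x, (∀ t, hval P s (q t).1 = hval P s x.1) ∧
      U.val q = (U.val γ)⁻¹ * U.val p * U.val γ := by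
  classical
  have hd : 0 < (P s).natDegree := by
    rw [Nat.pos_iff_ne_zero]
    intro h0
    exact (hirr s).not_isUnit (((hm s).isUnit_iff).2 ((hm s).natDegree_eq_zero.1 h0))
  obtain ⟨T, hT, hT'⟩ := N2c_thin P s (hm s) hd e hB.ne hB.fin.toFinset
  have hO : IsOpen {x : ℂ × ℂ | hval P s x ∈ Metric.ball b ρ} :=
    Metric.isOpen_ball.preimage (continuous_evalEval (P s))
  have hy : hval P s y.1 ∈ Metric.ball b ρ := by
    have h := hp 0
    rwa [p.source] at h
  obtain ⟨y', δ, hy1, hδ⟩ := near_good P hm T hT _ hO y hy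
  have hy2 := (hT' y'.1).1 hy1
  have hy3 : hval P s y'.1 ∉ Bif := fun h => hy2.2 _ (hB.fin.mem_toFinset.2 h) rfl
  have hloop : ∀ t, hval P s ((δ.symm.trans (p.trans δ)) t).1 ∈ Metric.ball b ρ :=
    N2c_trans δ.symm (p.trans δ) (S := fun z : CX P => hval P s z.1 ∈ Metric.ball b ρ)
      (fun t => by
        rw [Path.symm_apply]
        exact hδ _)
      (N2c_trans p δ (S := fun z : CX P => hval P s z.1 ∈ Metric.ball b ρ) hp hδ)
  obtain ⟨q', hq1, hq2⟩ := loop_to_fibre P hm hirr s e hB.ne b ρ hρ y' hy2.1 _ hloop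
  obtain ⟨q, hq3, hq4⟩ := transport P hm hirr s e Bif hB U y' x ⟨hy2.1, hy3⟩ hx (γ.trans δ).symm q'
    (fun t => (hq1 t).1)
  refine ⟨q, hq3, ?_⟩
  rw [hq4, ← U.homot hq2, U.trans, U.trans, U.val_symm, U.val_symm, U.trans]
  group

end H13J
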