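import Pool.Agent.Lib.H13J.D
import Pool.Agent.Lib.H13J.N2a
import Pool.Agent.Lib.H13J.N2b
import Pool.Agent.Lib.H13J.N2c
import Pool.Agent.Lib.H13J.G3
import Pool.Agent.Lib.H13J.L2
import Pool.Agent.Lib.H13K.G
import Pool.Agent.Lib.H13K.K11

set_option autoImplicit false

open scoped unitInterval Polynomial

namespace H13J

open H13K

variable {ι : Type}

private theorem N3g_thin (P : ι → ℂ[X][X]) (s : ι) (hm : (P s).Monic) (hd : 0 < (P s).natDegree)
    (e : ℂ[X][X]) (he : e ≠ 0) (B : Finset ℂ) :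
    ∃ T : ℂ[X][X], T ≠ 0 ∧ ∀ x : ℂ × ℂ, T.evalEval x.1 x.2 ≠ 0 ↔
      (EG P s e x ∧ ∀ b ∈ B, hval P s x ≠ b) := by
  classical
  obtain ⟨T₁, hT₁, hT₁'⟩ := comp_ne_zero e (P s) he hm hd
  refine ⟨T₁ * ∏ b ∈ B, (P s - Polynomial.C (Polynomial.C b)), ?_, ?_⟩
  · refine mul_ne_zero hT₁ (Finset.prod_ne_zero_iff.2 fun b _ h => ?_)
    have h1 := congrArg Polynomial.natDegree h
    rw [Polynomial.natDegree_sub_C, Polynomial.natDegree_zero] at h1
    omega
  · intro x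
    have h1 : (T₁ * ∏ b ∈ B, (P s - Polynomial.C (Polynomial.C b))).evalEval x.1 x.2 =
        e.evalEval x.1 (hval P s x) * ∏ b ∈ B, (hval P s x - b) := by
      rw [← Polynomial.coe_evalEvalRingHom, map_mul, map_prod, Polynomial.coe_evalEvalRingHom,
        hT₁']
      congr 1
      refine Finset.prod_congr rfl fun b _ => ?_
      rw [Polynomial.evalEval_sub]
      congr 1
      exact Polynomial.evalEval_CC x.1 x.2 b
    rw [h1, mul_ne_zero_iff, Finset.prod_ne_zero_iff]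
    constructor
    · rintro ⟨h2, h3⟩
      exact ⟨h2, fun b hb h => h3 b hb (by rw [h, sub_self])⟩
    · rintro ⟨h2, h3⟩
      exact ⟨h2, fun b hb h => h3 b hb (sub_eq_zero.1 h)⟩

/-- The normal subgroup coming from the fibres of P s.
Proof: `exists_branch`; a point x₁ off the branch curve with hval ∉ Bif (`near_good`), a path γ from
x₀ to x₁ (CX P is path connected), K = the conjugate under U.val γ of the fibre subgroup at x₁ (a
subgroup: products and inverses of loops).  Normal: `transport` with x = y = x₁ and all loops there (U is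
the universal functional, every g ∈ G is U of a loop at x₀).  FG: `fibre_fg`.  Third clause:
`local_in`.  Last clause: by construction. -/
theorem exists_K_gen [Fintype ι] (P : ι → ℂ[X][X]) (hm : ∀ i, (P i).Monic)
    (hirr : ∀ i, Irreducible (P i)) (s : ι) (x₀ : CX P)
    {G : Type} [Group G] (U : PF (CX P) G) (hU : ∀ g : G, ∃ p : Path x₀ x₀, U.val p = g) :
    ∃ (Bif : Set ℂ) (K : Subgroup G), Bif.Finite ∧ K.Normal ∧ K.FG ∧
      (∀ b, b ∉ Bif → ∃ ρ : ℝ, 0 < ρ ∧ ∀ (y : CX P) (p : Path y y),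
        (∀ t, hval P s (p t).1 ∈ Metric.ball b ρ) → U.val p ∈ K) ∧
      ∀ k ∈ K, ∃ (x : CX P) (p : Path x x) (g : G),
        (∀ t, hval P s (p t).1 = hval P s x.1) ∧ k = g * U.val p * g⁻¹ := by
  classical
  have hd : 0 < (P s).natDegree := by
    rw [Nat.pos_iff_ne_zero]
    intro h0
    exact (hirr s).not_isUnit (((hm s).isUnit_iff).2 ((hm s).natDegree_eq_zero.1 h0))
  obtain ⟨e, Bif, hB⟩ := exists_branch P hm hirr s
  obtain ⟨T, hT, hT'⟩ := N3g_thin P s (hm s) hd e hB.ne hB.fin.toFinset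
  obtain ⟨x₁, γ, hx1, -⟩ := near_good P hm T hT Set.univ isOpen_univ x₀ (Set.mem_univ _)
  have hx2 := (hT' x₁.1).1 hx1
  have hx : EG P s e x₁.1 ∧ hval P s x₁.1 ∉ Bif :=
    ⟨hx2.1, fun h => hx2.2 _ (hB.fin.mem_toFinset.2 h) rfl⟩
  obtain ⟨S, hS⟩ := fibre_fg P hm hirr s e Bif hB U x₁ hx
  have hmem : ∀ u, u ∈ Subgroup.closure (S : Set G) ↔
      ∃ p : Path x₁ x₁, (∀ t, hval P s (p t).1 = hval P s x₁.1) ∧ U.val p = u := by
    intro u
    rw [← SetLike.mem_coe, hS]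
    rfl
  have hK : ∀ k, k ∈ (Subgroup.closure (S : Set G)).map
      (MulAut.conj (U.val γ)⁻¹).toMonoidHom ↔
      ∃ p : Path x₁ x₁, (∀ t, hval P s (p t).1 = hval P s x₁.1) ∧
        k = (U.val γ)⁻¹ * U.val p * U.val γ := by
    intro k
    rw [Subgroup.mem_map]
    constructor
    · rintro ⟨u, hu, rfl⟩
      obtain ⟨p, hp, rfl⟩ := (hmem u).1 hu
      refine ⟨p, hp, ?_⟩
      simp
    · rintro ⟨p, hp, rfl⟩
      refine ⟨U.val p, (hmem _).2 ⟨p, hp, rfl⟩, ?_⟩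
      simp
  have hnorm : ((Subgroup.closure (S : Set G)).map
      (MulAut.conj (U.val γ)⁻¹).toMonoidHom).Normal := by
    refine ⟨fun k hk g => ?_⟩
    obtain ⟨p, hp, rfl⟩ := (hK k).1 hk
    obtain ⟨ℓ, hℓ⟩ := hU g
    obtain ⟨q, hq, hq'⟩ := transport P hm hirr s e Bif hB U x₁ x₁ hx hx
      (γ.symm.trans (ℓ.trans γ)) p hp
    refine (hK _).2 ⟨q, hq, ?_⟩
    rw [hq', U.trans, U.trans, U.val_symm, hℓ]
    group
  refine ⟨Bif, _, hB.fin, hnorm, ?_, ?_, ?_⟩
  · refine ⟨S.image (MulAut.conj (U.val γ)⁻¹).toMonoidHom, ?_⟩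
    rw [Finset.coe_image, ← MonoidHom.map_closure]
  · intro b hb
    obtain ⟨ρ, hρ⟩ := hB.push b hb
    refine ⟨ρ, hρ.pos, fun y p hp => ?_⟩
    have : PathConnectedSpace (CX P) := CX_pathConnected P hm
    obtain ⟨δ⟩ := PathConnectedSpace.joined x₁ y
    obtain ⟨q, hq, hq'⟩ := local_in P hm hirr s e Bif hB U x₁ hx b ρ hb hρ y δ p hp
    have h1 := hnorm.conj_mem _ ((hK _).2 ⟨q, hq, rfl⟩) (U.val δ * U.val γ)
    rw [hq'] at h1
    have h2 : U.val δ * U.val γ * ((U.val γ)⁻¹ * ((U.val δ)⁻¹ * U.val p * U.val δ) * U.val γ) *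
        (U.val δ * U.val γ)⁻¹ = U.val p := by
      group
    rw [h2] at h1
    exact h1
  · intro k hk
    obtain ⟨p, hp, rfl⟩ := (hK k).1 hk
    exact ⟨x₁, p, (U.val γ)⁻¹, hp, by rw [inv_inv]⟩

end H13J
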