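import Pool.Agent.Lib.H13J.D
import Pool.Agent.Lib.H13K.K15

set_option autoImplicit false

open scoped unitInterval Polynomial

namespace H13J

open H13K

variable {ι : Type}

private theorem n4a_card (P : ℂ[X]) (hP : P ≠ 0)
    (hs : ∀ w, P.eval w = 0 → (Polynomial.derivative P).eval w ≠ 0) :
    P.roots.toFinset.card = P.natDegree := by
  classical
  have hnd : P.roots.Nodup := by
    rw [Multiset.nodup_iff_count_le_one]
    intro a
    rw [Polynomial.count_roots]
    by_contra hcon
    push Not at hcon
    have h1 := (Polynomial.one_lt_rootMultiplicity_iff_isRoot hP).1 hcon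
    exact hs a h1.1 h1.2
  rw [Multiset.toFinset_card_of_nodup hnd]
  exact IsAlgClosed.card_roots_eq_natDegree

/-- Congruence to a constant on the curve (ℂ[X][X] version of H13M.dvd_of_const). -/
theorem dvd_of_const (p q : ℂ[X][X]) (hp : p.Monic) (r : ℂ[X]) (hr : r ≠ 0) (hs : Simple p r)
    (c : ℂ) (h : ∀ x ∈ CS p r, q.evalEval x.1 x.2 = c) :
    p ∣ q - Polynomial.C (Polynomial.C c) := by
  classical
  by_cases hp1 : p = 1
  · rw [hp1]
    exact one_dvd _
  set s : ℂ[X][X] := q - Polynomial.C (Polynomial.C c) with hsdef
  set t : ℂ[X][X] := s %ₘ p with ht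
  have hdeg : t.natDegree < p.natDegree := Polynomial.natDegree_modByMonic_lt s hp hp1
  have hdecomp : s = t + p * (s /ₘ p) := (Polynomial.modByMonic_add_div s p).symm
  have hz : ∀ z : ℂ, r.eval z ≠ 0 → t.map (Polynomial.evalRingHom z) = 0 := by
    intro z hrz
    have hmon : (p.map (Polynomial.evalRingHom z)).Monic := hp.map _
    have hcard : (p.map (Polynomial.evalRingHom z)).roots.toFinset.card = p.natDegree := by
      rw [n4a_card _ hmon.ne_zero, hp.natDegree_map]
      intro w hw
      rw [Polynomial.map_evalRingHom_eval] at hw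
      have h1 := hs z w hrz hw
      rw [Polynomial.derivative_map, Polynomial.map_evalRingHom_eval]
      exact h1
    refine Polynomial.eq_zero_of_natDegree_lt_card_of_eval_eq_zero' _
      (p.map (Polynomial.evalRingHom z)).roots.toFinset ?_ ?_
    · intro w hw
      rw [Multiset.mem_toFinset, Polynomial.mem_roots hmon.ne_zero, Polynomial.IsRoot.def] at hw
      have hw' : p.evalEval z w = 0 := by
        rw [← Polynomial.map_evalRingHom_eval]
        exact hw
      have h1 : q.evalEval z w = c := h (z, w) ⟨hrz, hw'⟩
      have h2 : (s.map (Polynomial.evalRingHom z)).eval w = 0 := by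
        rw [hsdef, Polynomial.map_sub, Polynomial.eval_sub, Polynomial.map_C, Polynomial.eval_C,
          Polynomial.map_evalRingHom_eval, h1]
        simp
      rw [hdecomp, Polynomial.map_add, Polynomial.eval_add, Polynomial.map_mul,
        Polynomial.eval_mul, hw, zero_mul, add_zero] at h2
      exact h2
    · rw [hcard]
      exact lt_of_le_of_lt Polynomial.natDegree_map_le hdeg
  have ht0 : t = 0 := by
    refine Polynomial.ext fun k => ?_
    rw [Polynomial.coeff_zero]
    have h1 : t.coeff k * r = 0 := by
      refine Polynomial.funext fun z => ?_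
      rw [Polynomial.eval_mul, Polynomial.eval_zero]
      by_cases hrz : r.eval z = 0
      · rw [hrz, mul_zero]
      · have h2 := congrArg (fun P : ℂ[X] => P.coeff k) (hz z hrz)
        simp only [Polynomial.coeff_map, Polynomial.coeff_zero, Polynomial.coe_evalRingHom] at h2
        rw [h2, zero_mul]
    exact (mul_eq_zero.1 h1).resolve_right hr
  exact (Polynomial.modByMonic_eq_zero_iff_dvd hp).1 ht0

end H13J
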