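import Pool.Agent.Lib.H13J.D
import Pool.Agent.Lib.H13J.N4a
import Pool.Agent.Lib.H13K.K15
import Pool.Agent.Lib.H13K.K1

set_option autoImplicit false

open scoped unitInterval Polynomial

namespace H13J

open H13K

variable {ι : Type}

/-- Near u there are no further roots of the family over z. -/
private theorem n4b_adm [Finite ι] (P : ι → ℂ[X][X]) (hm : ∀ i, (P i).Monic) (z u : ℂ) :
    ∃ δ : ℝ, 0 < δ ∧ ∀ b : ℂ, b ≠ 0 → ‖b‖ < δ → ∀ i, (P i).evalEval z (u + b) ≠ 0 := by
  have hfin : ({w : ℂ | ∃ i, (P i).evalEval z w = 0} \ {u}).Finite := by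
    apply Set.Finite.subset _ Set.sdiff_subset
    have h1 : {w : ℂ | ∃ i, (P i).evalEval z w = 0} = ⋃ i, {w : ℂ | (P i).evalEval z w = 0} := by
      ext w
      simp
    rw [h1]
    apply Set.finite_iUnion
    intro i
    have hne : (P i).map (Polynomial.evalRingHom z) ≠ 0 := ((hm i).map _).ne_zero
    refine (((P i).map (Polynomial.evalRingHom z)).roots.toFinset.finite_toSet).subset ?_
    intro w hw
    rw [Finset.mem_coe, Multiset.mem_toFinset, Polynomial.mem_roots hne, Polynomial.IsRoot.def,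
      Polynomial.map_evalRingHom_eval]
    exact hw
  have ho : ({w : ℂ | ∃ i, (P i).evalEval z w = 0} \ {u})ᶜ ∈ nhds u := by
    apply hfin.isClosed.isOpen_compl.mem_nhds
    intro h
    exact h.2 rfl
  obtain ⟨δ, hδ, hball⟩ := Metric.mem_nhds_iff.1 ho
  refine ⟨δ, hδ, ?_⟩
  intro b hb0 hb i hi
  have h2 : u + b ∈ Metric.ball u δ := by
    rw [Metric.mem_ball, dist_eq_norm, add_sub_cancel_left]
    exact hb
  apply hball h2
  refine ⟨⟨i, hi⟩, ?_⟩
  intro h3
  rw [Set.mem_singleton_iff] at h3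
  exact hb0 (by simpa using h3)

/-- If P s is not constant on the curve P n = 0, some meridian of P n lies over a small disc off Bif.
Proof: P s takes two values on the path connected set CS (P n) r (`CS_pathConnected`, `dvd_of_const`), so
its image is an infinite (connected, not a point) set and contains b = P s (z, u) ∉ Bif; a small. -/
theorem mer_over [Finite ι] (P : ι → ℂ[X][X]) (hm : ∀ i, (P i).Monic)
    (hirr : ∀ i, Irreducible (P i)) (r : ℂ[X]) (hr : Disc P r) (s n : ι)
    (hn : ∀ c : ℂ, ¬ P n ∣ P s - Polynomial.C (Polynomial.C c)) (Bif : Set ℂ) (hB : Bif.Finite)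
    (ρ : ℂ → ℝ) (hρ : ∀ b, b ∉ Bif → 0 < ρ b) :
    ∃ (z u a : ℂ) (h : Adm2 P z u a) (b : ℂ), b ∉ Bif ∧ r.eval z ≠ 0 ∧ (P n).evalEval z u = 0 ∧
      ∀ t, hval P s (mer2 P z u a h t).1 ∈ Metric.ball b (ρ b) := by
  have hpc := CS_pathConnected (P n) (hm n) (hirr n) r hr.ne (hr.simple n)
  have hcont : Continuous (hval P s) := continuous_evalEval (P s)
  have himg : (hval P s '' CS (P n) r).Infinite := by
    have hpre : IsPreconnected (hval P s '' CS (P n) r) :=
      hpc.isConnected.isPreconnected.image _ hcont.continuousOn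
    have hnt : (hval P s '' CS (P n) r).Nontrivial := by
      obtain ⟨x₀, hx₀⟩ := hpc.nonempty
      by_contra hcon
      rw [Set.not_nontrivial_iff] at hcon
      apply hn (hval P s x₀)
      apply dvd_of_const (P n) (P s) (hm n) r hr.ne (hr.simple n)
      intro x hx
      exact hcon (Set.mem_image_of_mem _ hx) (Set.mem_image_of_mem _ hx₀)
    exact hpre.infinite_of_nontrivial hnt
  obtain ⟨b, hb, hbB⟩ := himg.exists_notMem_finite hB
  obtain ⟨⟨z, u⟩, ⟨hz, hu⟩, hzu⟩ := hb
  simp only at hz hu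
  obtain ⟨δ, hδ, hadm⟩ := n4b_adm P hm z u
  have hc2 : Continuous fun w : ℂ => hval P s (z, w) := hcont.comp (by fun_prop)
  obtain ⟨δ', hδ', hball⟩ := Metric.continuousAt_iff.1 (hc2.continuousAt (x := u)) (ρ b) (hρ b hbB)
  set m : ℝ := min δ δ' / 2 with hmdef
  have hm0 : 0 < m := by
    rw [hmdef]
    have := lt_min hδ hδ'
    linarith
  have hm1 : m < δ := by
    have := min_le_left δ δ'
    have := lt_min hδ hδ'
    linarith
  have hm2 : m < δ' := by
    have := min_le_right δ δ'
    have := lt_min hδ hδ'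
    linarith
  have hnm : ‖(m : ℂ)‖ = m := by
    rw [Complex.norm_real, Real.norm_eq_abs, abs_of_pos hm0]
  have h : Adm2 P z u (m : ℂ) := by
    refine ⟨by exact_mod_cast hm0.ne', ?_⟩
    intro b' hb' hle i
    rw [hnm] at hle
    exact hadm b' hb' (lt_of_le_of_lt hle hm1) i
  refine ⟨z, u, (m : ℂ), h, b, hbB, hz, hu, ?_⟩
  intro t
  have h1 : dist (u + (m : ℂ) * Complex.exp (2 * Real.pi * (t : ℝ) * Complex.I)) u < δ' := by
    rw [dist_eq_norm, add_sub_cancel_left, norm_mul, hnm, norm_circ t, mul_one]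
    exact hm2
  have h2 := hball h1
  rw [Metric.mem_ball]
  rw [hzu] at h2
  exact h2

end H13J
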