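import Pool.Agent.Lib.H13J.D

set_option autoImplicit false

open scoped unitInterval Polynomial

namespace H13J

open H13K

variable {ι : Type}

private theorem n4c_pos {q : ℂ[X][X]} (hq : q.Monic) (hqi : Irreducible q) : 0 < q.natDegree := by
  rw [Nat.pos_iff_ne_zero]
  intro h
  have h1 : q = 1 := hq.natDegree_eq_zero.1 h
  exact hqi.not_isUnit (h1 ▸ isUnit_one)

private theorem n4c_monic {q : ℂ[X][X]} (hq : q.Monic) (hqi : Irreducible q) (c : ℂ) :
    (q - Polynomial.C (Polynomial.C c)).Monic ∧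
      (q - Polynomial.C (Polynomial.C c)).natDegree = q.natDegree := by
  have h1 : Polynomial.degree (Polynomial.C (Polynomial.C c) : ℂ[X][X]) < q.degree := by
    refine lt_of_le_of_lt Polynomial.degree_C_le ?_
    exact Polynomial.natDegree_pos_iff_degree_pos.1 (n4c_pos hq hqi)
  exact ⟨hq.sub_of_left h1, Polynomial.natDegree_sub_C⟩

/-- Mutually constant monic irreducible polynomials differ by a constant (degrees in w). -/
theorem mutual_eq (p q : ℂ[X][X]) (hp : p.Monic) (hq : q.Monic) (hpi : Irreducible p)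
    (hqi : Irreducible q) (h1 : ∃ c : ℂ, p ∣ q - Polynomial.C (Polynomial.C c))
    (h2 : ∃ c : ℂ, q ∣ p - Polynomial.C (Polynomial.C c)) :
    ∃ c : ℂ, q = p + Polynomial.C (Polynomial.C c) := by
  obtain ⟨c, hc⟩ := h1
  obtain ⟨d, hd⟩ := h2
  obtain ⟨m1, e1⟩ := n4c_monic hq hqi c
  obtain ⟨m2, e2⟩ := n4c_monic hp hpi d
  have h3 := Polynomial.natDegree_le_of_dvd hd m2.ne_zero
  rw [e2] at h3
  have h4 := Polynomial.eq_of_monic_of_dvd_of_natDegree_le hp m1 hc (by rw [e1]; exact h3)
  exact ⟨c, by rw [← h4]; ring⟩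

end H13J
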