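import Pool.Agent.Lib.H13J.N3
import Pool.Agent.Lib.H13J.N4b
import Pool.Agent.Lib.H13B.Main
import Pool.Agent.Lib.H13K.K7
import Pool.Agent.Lib.H13K.T2

set_option autoImplicit false

open scoped unitInterval Polynomial

namespace H13J

open H13K

/-- Winding homomorphisms. -/
theorem wind {ι : Type} (P : ι → ℂ[X][X]) [PathConnectedSpace (CX P)] (x₀ : CX P)
    (Φ : PF (CX P) (FundamentalGroup (CX P) x₀))
    (hΦ : ∀ p : Path x₀ x₀, Φ.val p = FundamentalGroup.fromPath (Path.Homotopic.Quotient.mk p))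
    (l : ι) :
    ∃ w : FundamentalGroup (CX P) x₀ →* Multiplicative ℂ, ∀ (x : CX P) (p : Path x x)
      (ℓ : C(I, ℂ)), (∀ t, Complex.exp (ℓ t) = (P l).evalEval (p t).1.1 (p t).1.2) →
      (w (Φ.val p)).toAdd = (2 * Real.pi * Complex.I)⁻¹ * (ℓ 1 - ℓ 0) := by
  obtain ⟨L, hL⟩ := exists_log (⟨fun x : CX P => (P l).evalEval x.1.1 x.1.2,
    (continuous_evalEval (P l)).comp continuous_subtype_val⟩ : C(CX P, ℂ)) (fun x => x.2 l)
  let ψ : Multiplicative ℂ →* Multiplicative ℂ :=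
    AddMonoidHom.toMultiplicative (AddMonoidHom.mulLeft ((2 * Real.pi * Complex.I)⁻¹))
  have hψ : ∀ c : Multiplicative ℂ,
      (ψ c).toAdd = (2 * Real.pi * Complex.I)⁻¹ * c.toAdd := fun c => rfl
  obtain ⟨w, hw⟩ := exists_hom (L.push ψ) x₀
  refine ⟨w, ?_⟩
  intro x p ℓ hℓ
  have h1 := hom_univ (L.push ψ) x₀ Φ hΦ w hw x p
  rw [h1]
  have h2 : (L.push ψ).val p = ψ (L.val p) := rfl
  rw [h2, hψ, hL p ℓ hℓ]

/-- Meridians exist. -/
theorem exists_mer {ι : Type} [Finite ι] (P : ι → ℂ[X][X]) (hm : ∀ i, (P i).Monic)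
    (hirr : ∀ i, Irreducible (P i)) (r : ℂ[X]) (hr : r ≠ 0) (s : ι) :
    ∃ (z u a : ℂ) (_ : Adm2 P z u a), r.eval z ≠ 0 ∧ (P s).evalEval z u = 0 := by
  obtain ⟨z, hz⟩ : ∃ z, r.eval z ≠ 0 := by
    by_contra hcon
    push Not at hcon
    exact hr (Polynomial.funext (by intro z; rw [hcon z, Polynomial.eval_zero]))
  have hd : ((P s).map (Polynomial.evalRingHom z)).degree ≠ 0 := by
    rw [(hm s).degree_map]
    intro h0
    have h1 : P s = 1 := by
      apply Polynomial.eq_one_of_monic_natDegree_zero (hm s)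
      exact Polynomial.natDegree_eq_of_degree_eq_some h0
    have h2 := hirr s
    rw [h1] at h2
    exact h2.not_isUnit isUnit_one
  obtain ⟨u, hu⟩ := IsAlgClosed.exists_root ((P s).map (Polynomial.evalRingHom z)) hd
  rw [Polynomial.IsRoot.def, Polynomial.map_evalRingHom_eval] at hu
  have hfin : ({w : ℂ | ∃ i, (P i).evalEval z w = 0} \ {u}).Finite := by
    apply Set.Finite.subset _ Set.sdiff_subset
    have h1 : {w : ℂ | ∃ i, (P i).evalEval z w = 0} = ⋃ i, {w : ℂ | (P i).evalEval z w = 0} := by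
      ext w
      simp
    rw [h1]
    apply Set.finite_iUnion
    intro i
    have hne : (P i).map (Polynomial.evalRingHom z) ≠ 0 := ((hm i).map _).ne_zero
    refine (((P i).map (Polynomial.evalRingHom z)).roots.toFinset.finite_toSet).subset ?_
    intro w hw
    rw [Finset.mem_coe, Multiset.mem_toFinset, Polynomial.mem_roots hne, Polynomial.IsRoot.def,
      Polynomial.map_evalRingHom_eval]
    exact hw
  have ho : ({w : ℂ | ∃ i, (P i).evalEval z w = 0} \ {u})ᶜ ∈ nhds u := by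
    apply hfin.isClosed.isOpen_compl.mem_nhds
    intro h
    exact h.2 rfl
  obtain ⟨δ, hδ, hball⟩ := Metric.mem_nhds_iff.1 ho
  have hn : ‖((δ / 2 : ℝ) : ℂ)‖ = δ / 2 := by
    rw [Complex.norm_real, Real.norm_eq_abs, abs_of_pos (by linarith)]
  refine ⟨z, u, ((δ / 2 : ℝ) : ℂ), ⟨?_, ?_⟩, hz, hu⟩
  · exact_mod_cast (by linarith : (δ / 2 : ℝ) ≠ 0)
  · intro b hb0 hb i hi
    rw [hn] at hb
    have h2 : u + b ∈ Metric.ball u δ := by
      rw [Metric.mem_ball, dist_eq_norm, add_sub_cancel_left]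
      linarith
    apply hball h2
    refine ⟨⟨i, hi⟩, ?_⟩
    intro h3
    rw [Set.mem_singleton_iff] at h3
    exact hb0 (by simpa using h3)

/-- The group of a complement that is a free product: the subgroup of the fibres is trivial. -/
theorem small_killed {ι : Type} [Fintype ι] (P : ι → ℂ[X][X]) (hm : ∀ i, (P i).Monic)
    (hirr : ∀ i, Irreducible (P i)) (r : ℂ[X]) (hr : Disc P r) (x₀ : CX P)
    (U : PF (CX P) (FundamentalGroup (CX P) x₀))
    (hU : ∀ p : Path x₀ x₀, U.val p = FundamentalGroup.fromPath (Path.Homotopic.Quotient.mk p))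
    (A B : Type) [Group A] [Group B] [Nontrivial A] [Nontrivial B]
    (e : FundamentalGroup (CX P) x₀ ≃* Monoid.Coprod A B) (s : ι) :
    ∃ Bif : Set ℂ, Bif.Finite ∧ ∀ b, b ∉ Bif → ∃ ρ : ℝ, 0 < ρ ∧ ∀ (y : CX P) (p : Path y y),
      (∀ t, hval P s (p t).1 ∈ Metric.ball b ρ) → U.val p = 1 := by
  classical
  have : PathConnectedSpace (CX P) := CX_pathConnected P hm
  obtain ⟨Bif, K, hfin, hN, hFG, hloc, hback⟩ := exists_K P hm hirr s x₀ U hU
  obtain ⟨w, hw⟩ := wind P x₀ U hU s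
  have hpi : (2 * Real.pi * Complex.I : ℂ) ≠ 0 := Complex.two_pi_I_ne_zero
  -- the winding number kills K
  have hKw : ∀ k ∈ K, w k = 1 := by
    intro k hk
    obtain ⟨x, p, g, hp, rfl⟩ := hback k hk
    have hx : hval P s x.1 ≠ 0 := x.2 s
    have h1 : (w (U.val p)).toAdd = 0 := by
      rw [hw x p (ContinuousMap.const I (Complex.log (hval P s x.1))) (by
        intro t
        rw [ContinuousMap.const_apply, Complex.exp_log hx]
        exact (hp t).symm)]
      simp
    have h2 : w (U.val p) = 1 := by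
      apply Multiplicative.toAdd.injective
      rw [h1]
      rfl
    rw [map_mul, map_mul, h2, mul_one, map_inv, mul_inv_cancel]
  -- a meridian
  obtain ⟨z, u, a, h, hz, hu⟩ := exists_mer P hm hirr r hr.ne s
  obtain ⟨ℓ, hℓ1, hℓ2⟩ := mer2_log P hm r hr s z u a h hz hu s
  rw [if_pos rfl] at hℓ2
  have hg : (w (U.val (mer2 P z u a h))).toAdd = 1 := by
    rw [hw _ _ ℓ hℓ1, hℓ2, inv_mul_cancel₀ hpi]
  let K' : Subgroup (Monoid.Coprod A B) := K.map e.toMonoidHom
  have hN' : K'.Normal := hN.map e.toMonoidHom e.surjective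
  have hFG' : K'.FG := by
    obtain ⟨S, hS⟩ := hFG
    refine ⟨S.image e, ?_⟩
    rw [Finset.coe_image]
    show Subgroup.closure (e.toMonoidHom '' (S : Set _)) = K.map e.toMonoidHom
    rw [← MonoidHom.map_closure, hS]
  let w' : Monoid.Coprod A B →* Multiplicative ℂ := w.comp e.symm.toMonoidHom
  have hw' : ∀ k ∈ K', w' k = 1 := by
    rintro _ ⟨k, hk, rfl⟩
    show w (e.symm (e k)) = 1
    rw [e.symm_apply_apply]
    exact hKw k hk
  have hinf : Infinite (Monoid.Coprod A B ⧸ K') := by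
    let q : Monoid.Coprod A B ⧸ K' →* Multiplicative ℂ := QuotientGroup.lift K' w' hw'
    refine Infinite.of_injective
      (fun n : ℕ => (QuotientGroup.mk (e (U.val (mer2 P z u a h)) ^ n) :
        Monoid.Coprod A B ⧸ K')) ?_
    intro m n hmn
    have h1 := congrArg (fun y => (q y).toAdd) hmn
    have h2 : ∀ n : ℕ, (q (QuotientGroup.mk (e (U.val (mer2 P z u a h)) ^ n))).toAdd = (n : ℂ) := by
      intro n
      have h3 : q (QuotientGroup.mk (e (U.val (mer2 P z u a h)) ^ n)) =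
          w (e.symm (e (U.val (mer2 P z u a h)) ^ n)) := rfl
      rw [h3, map_pow, e.symm_apply_apply, map_pow, toAdd_pow, hg]
      simp
    simp only [h2] at h1
    exact_mod_cast h1
  have hbot : K' = ⊥ := H13B.baumslag K' hFG' hinf
  refine ⟨Bif, hfin, ?_⟩
  intro b hb
  obtain ⟨ρ, hρ, hk⟩ := hloc b hb
  refine ⟨ρ, hρ, ?_⟩
  intro y p hp
  have h1 : U.val p ∈ K := hk y p hp
  have h2 : e (U.val p) ∈ K' := ⟨_, h1, rfl⟩
  rw [hbot, Subgroup.mem_bot] at h2
  exact (map_eq_one_iff e e.injective).1 h2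

/-- All curves of the family are level curves of one polynomial. -/
theorem divides {ι : Type} [Fintype ι] (P : ι → ℂ[X][X]) (hm : ∀ i, (P i).Monic)
    (hirr : ∀ i, Irreducible (P i)) (r : ℂ[X]) (hr : Disc P r) (x₀ : CX P)
    (A B : Type) [Group A] [Group B] [Nontrivial A] [Nontrivial B]
    (e : FundamentalGroup (CX P) x₀ ≃* Monoid.Coprod A B) (s n : ι) :
    ∃ c : ℂ, P n ∣ P s - Polynomial.C (Polynomial.C c) := by
  classical
  have : PathConnectedSpace (CX P) := CX_pathConnected P hm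
  obtain ⟨U, hU⟩ := exists_univ x₀
  obtain ⟨Bif, hfin, hk⟩ := small_killed P hm hirr r hr x₀ U hU A B e s
  by_contra hcon
  push Not at hcon
  choose! ρ hρ1 hρ2 using hk
  obtain ⟨z, u, a, h, b, hb, hz, hu, hball⟩ :=
    mer_over P hm hirr r hr s n hcon Bif hfin ρ hρ1
  have h1 : U.val (mer2 P z u a h) = 1 := hρ2 b hb _ _ hball
  obtain ⟨w, hw⟩ := wind P x₀ U hU n
  obtain ⟨ℓ, hℓ1, hℓ2⟩ := mer2_log P hm r hr n z u a h hz hu n
  rw [if_pos rfl] at hℓ2
  have h2 := hw _ _ ℓ hℓ1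
  rw [h1, map_one, hℓ2, inv_mul_cancel₀ Complex.two_pi_I_ne_zero] at h2
  exact zero_ne_one h2

end H13J
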